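import Pool.Agent.Y159.PT.Lev1

set_option autoImplicit false

/-! Level sets of the torsion of the class groups of pure fields. -/

namespace Pool.Agent.Y159.PT

open NumberField Finset Pool.Agent.TH847.LG Pool.Agent.TH869.EVF Filter
open scoped Classical nonZeroDivisors

/-- conditions that hold for large `N` -/
theorem large_N (c C0 A B s s' : ℝ) (hc : 0 < c) (hs : 0 < s) (hs' : 0 < s') :
    ∃ N1 : ℝ, 1 ≤ N1 ∧ ∀ x : ℝ, N1 ≤ x → x ^ (-s') ≤ c ∧
      C0 + A + B * Real.log x ≤ c * x ^ s := by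
  have h1 : ∀ᶠ x : ℝ in atTop, x ^ (-s') ≤ c := by
    have := tendsto_rpow_neg_atTop hs'
    exact (this.eventually (gt_mem_nhds hc)).mono fun x hx => hx.le
  have h2 : ∀ᶠ x : ℝ in atTop, (C0 + A) / (c / 2) ≤ x ^ s :=
    (tendsto_rpow_atTop hs).eventually_ge_atTop _
  have h3 : ∀ᶠ x : ℝ in atTop, ‖Real.log x‖ ≤ (c / (2 * (|B| + 1))) * ‖x ^ s‖ :=
    (isLittleO_log_rpow_atTop hs).bound (by positivity)
  obtain ⟨N1, hN1⟩ := eventually_atTop.mp ((h1.and h2).and h3)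
  refine ⟨max N1 1, le_max_right _ _, ?_⟩
  intro x hx
  obtain ⟨⟨e1, e2⟩, e3⟩ := hN1 x ((le_max_left _ _).trans hx)
  refine ⟨e1, ?_⟩
  have hx1 : 1 ≤ x := (le_max_right _ _).trans hx
  rw [div_le_iff₀ (by positivity)] at e2
  have hxs : 0 < x ^ s := Real.rpow_pos_of_pos (by linarith) _
  rw [Real.norm_of_nonneg (Real.log_nonneg hx1), Real.norm_of_nonneg hxs.le] at e3
  have h4 : B * Real.log x ≤ c / 2 * x ^ s := by
    have h5 : B * Real.log x ≤ (|B| + 1) * Real.log x := by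
      have := le_abs_self B
      have := Real.log_nonneg hx1
      nlinarith
    have h6 : (|B| + 1) * Real.log x ≤ (|B| + 1) * ((c / (2 * (|B| + 1))) * x ^ s) := by
      gcongr
    have h7 : (|B| + 1) * ((c / (2 * (|B| + 1))) * x ^ s) = c / 2 * x ^ s := by
      have : |B| + 1 ≠ 0 := by positivity
      field_simp
    linarith
  linarith

/-- **Level sets.** -/
theorem level (n l : ℕ) (hn : 3 ≤ n) (hodd : Odd n) (hl : 1 ≤ l) (ε : ℝ) (hε : 0 < ε) :
    ∃ C : ℝ, 0 < C ∧ ∀ N : ℕ, 1 ≤ N → ∀ y : ℝ, 1 ≤ y → (N : ℝ) ^ (1 - 1 / (n : ℝ)) ≤ y ^ l →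
    y ≤ (N : ℝ) ^ (2 : ℝ) → ∀ (K : ℕ → Type) [∀ e, Field (K e)] [∀ e, NumberField (K e)]
    (α : ∀ e, K e) (S : Finset ℕ), (∀ e ∈ S, Squarefree e ∧ N < 2 * e ∧ e ≤ N ∧
      Module.finrank ℚ (K e) = n ∧ IntermediateField.adjoin ℚ {α e} = ⊤ ∧
      (α e) ^ n = (e : K e) ∧
      C * (N : ℝ) ^ (((n : ℝ) - 1) / 2 + ε) <
        (Nat.card {c : ClassGroup (𝓞 (K e)) // c ^ l = 1} : ℝ) * y) →
    (S.card : ℝ) ≤ C * (N : ℝ) ^ ε * ((N : ℝ) ^ (3 / (n : ℝ) - 1) * y ^ l +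
      (N : ℝ) ^ (3 / (n : ℝ) - 2) * y ^ (2 * l)) := by
  have hnr : (3 : ℝ) ≤ n := by exact_mod_cast hn
  have hlr : (1 : ℝ) ≤ l := by exact_mod_cast hl
  have hlogn : 0 ≤ Real.log n := Real.log_natCast_nonneg n
  set κ0 : ℝ := 4 * (n + 1) * (2 * l + 1) with hκ0
  have hκ01 : 48 ≤ κ0 := by rw [hκ0]; nlinarith
  set δ : ℝ := min ε 1 / κ0 with hδ
  have hmin0 : 0 < min ε 1 := lt_min hε one_pos
  have hδ0 : 0 < δ := by positivity
  have hδκ : δ * κ0 = min ε 1 := by rw [hδ]; field_simp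
  have hmin1 : min ε 1 ≤ ε := min_le_left _ _
  have hmin2 : min ε 1 ≤ 1 := min_le_right _ _
  have hδ1 : 48 * δ ≤ 1 := by nlinarith
  have hδa : δ * (n + 1) ≤ ε := by
    have : δ * (n + 1) ≤ δ * κ0 := by
      apply mul_le_mul_of_nonneg_left _ hδ0.le
      rw [hκ0]; nlinarith
    linarith
  have hδb : 2 * ((2 * l + 1) * δ) ≤ ε := by
    have : (2 * (2 * l + 1)) * δ ≤ κ0 * δ := by
      apply mul_le_mul_of_nonneg_right _ hδ0.le
      rw [hκ0]; nlinarith
    nlinarith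
  obtain ⟨C1, hC10, hC1⟩ := sep_bound n hn δ hδ0
  obtain ⟨c, C0, hc0, hC00, hPA⟩ := PA_lower n 2 (by omega)
    ((Nat.coprime_two_left).mpr hodd) δ hδ0 (by linarith)
  set θ0 : ℝ := (1 - 1 / (n : ℝ)) / l with hθ0
  have h1n : 1 / (n : ℝ) ≤ 1 / 3 := by gcongr
  have h1n0 : 0 < 1 / (n : ℝ) := by positivity
  have hθ00 : 0 < θ0 := by
    have : 0 < 1 - 1 / (n : ℝ) := by linarith
    positivity
  obtain ⟨N1, hN11, hN1⟩ := large_N (c / 4) C0 (2 * (Real.log n + n * (n - 1) * Real.log 2))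
    (2 * n) ((1 - δ) * θ0) (δ * θ0) (by positivity)
    (mul_pos (by linarith) hθ00) (by positivity)
  set CA : ℝ := (4 / c) * C1 * 2 ^ ((n : ℝ) * (n - 1)) with hCA
  set CB : ℝ := (4 / c) * (36 * (n : ℝ) ^ 2 * (150 : ℝ) ^ (2 * l)) with hCB
  have hCA0 : 0 < CA := by positivity
  have hCB0 : 0 < CB := by positivity
  refine ⟨N1 + CA + CB, by positivity, ?_⟩
  intro N hN y hy1 hyN hyN2 K _ _ α S hS
  have hNr : (1 : ℝ) ≤ N := by exact_mod_cast hN
  have hN0 : (0 : ℝ) < N := by linarith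
  have hy0 : 0 < y := by linarith
  have hNε1 : 1 ≤ (N : ℝ) ^ ε := Real.one_le_rpow hNr hε.le
  have hyl0 : 0 < y ^ l := pow_pos hy0 l
  -- small `N`
  rcases lt_or_ge (N : ℝ) N1 with hNs | hNl
  · have h1 : (S.card : ℝ) ≤ N := by
      have h2 : S ⊆ Finset.Icc 1 N := by
        intro e he
        obtain ⟨-, h3, h4, -⟩ := hS e he
        rw [Finset.mem_Icc]
        omega
      have h3 := Finset.card_le_card h2
      rw [Nat.card_Icc] at h3
      have h4 : S.card ≤ N := by omega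
      exact_mod_cast h4
    have h2 : (1 : ℝ) ≤ (N : ℝ) ^ (3 / (n : ℝ) - 1) * y ^ l := by
      calc (1 : ℝ) ≤ (N : ℝ) ^ (2 / (n : ℝ)) := Real.one_le_rpow hNr (by positivity)
        _ = (N : ℝ) ^ (3 / (n : ℝ) - 1) * (N : ℝ) ^ (1 - 1 / (n : ℝ)) := by
            rw [← Real.rpow_add hN0]; congr 1; field_simp; ring
        _ ≤ _ := by gcongr
    have h3 : (0 : ℝ) ≤ (N : ℝ) ^ (3 / (n : ℝ) - 2) * y ^ (2 * l) := by positivity
    calc (S.card : ℝ) ≤ N1 * 1 * 1 := by linarith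
      _ ≤ _ := by
          gcongr
          · linarith
          · linarith
  obtain ⟨hi, hii⟩ := hN1 N hNl
  -- `y` is at least a power of `N`
  have hyθ : (N : ℝ) ^ θ0 ≤ y := by
    have h1 : ((N : ℝ) ^ (1 - 1 / (n : ℝ))) ^ (1 / (l : ℝ)) ≤ (y ^ l) ^ (1 / (l : ℝ)) :=
      Real.rpow_le_rpow (by positivity) hyN (by positivity)
    rw [← Real.rpow_mul hN0.le, ← Real.rpow_natCast, ← Real.rpow_mul hy0.le,
      mul_one_div_cancel (by linarith), Real.rpow_one] at h1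
    rwa [hθ0, div_eq_mul_one_div]
  -- the parameters
  set Y : ℝ := (150 * y) ^ l with hY
  have hY0 : 0 < Y := by positivity
  set a : ℝ := 2 * n * Y * (N : ℝ) ^ (-(1 - 1 / (n : ℝ))) with ha
  set b : ℝ := 2 * n * Y * (N : ℝ) ^ (-(1 - 2 / (n : ℝ))) with hb
  have hyY : y ^ l ≤ Y := by
    rw [hY]
    apply pow_le_pow_left₀ hy0.le
    linarith
  have ha1 : 1 ≤ a := by
    have h1 : 1 ≤ Y * (N : ℝ) ^ (-(1 - 1 / (n : ℝ))) := by
      rw [Real.rpow_neg hN0.le, ← div_eq_mul_inv, le_div_iff₀ (by positivity), one_mul]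
      linarith
    rw [ha]
    nlinarith
  have hab : a ≤ b := by
    rw [ha, hb]
    have h1 : (N : ℝ) ^ (-(1 - 1 / (n : ℝ))) ≤ (N : ℝ) ^ (-(1 - 2 / (n : ℝ))) := by
      apply Real.rpow_le_rpow_of_exponent_le hNr
      have : 1 / (n : ℝ) ≤ 2 / (n : ℝ) := by gcongr; norm_num
      linarith
    gcongr
  set z : ℝ := y ^ (1 - 2 * δ) with hz
  have hz0 : 0 < z := Real.rpow_pos_of_pos hy0 _
  set PB : Finset ℕ := (PA n 2 y).filter (fun p : ℕ => z < (p : ℝ)) with hPB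
  -- every member has many bad primes
  have hbad : ∀ e ∈ S, (c / 4) * y ^ (1 - δ) ≤
      ((PB.filter (fun p => BadP n l a b e p)).card : ℝ) := by
    intro e he
    obtain ⟨hsq, hNe, heN, hK, hα, h0, hT⟩ := hS e he
    by_contra hcon
    push Not at hcon
    have he0 : e ≠ 0 := hsq.ne_zero
    have her : (1 : ℝ) ≤ e := by exact_mod_cast Nat.pos_of_ne_zero he0
    have heNr : (e : ℝ) ≤ N := by exact_mod_cast heN
    have hNer : (N : ℝ) / 2 ≤ e := by
      have : (N : ℝ) ≤ 2 * e := by exact_mod_cast hNe.le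
      linarith
    set D := (discr (K e)).natAbs with hD
    have hD0n : D ≠ 0 := Int.natAbs_ne_zero.mpr (discr_ne_zero (K e))
    have hD0 : (0 : ℝ) < D := by exact_mod_cast Nat.pos_of_ne_zero hD0n
    -- the discriminant
    have h0' : (α e) ^ n = ((e : ℤ) : K e) := by rw [h0]; push_cast; rfl
    have hint : IsIntegral ℤ (α e) := by
      refine IsIntegral.of_pow (show 0 < n by omega) ?_
      rw [h0']
      exact isIntegral_algebraMap
    have hβn : (⟨α e, hint⟩ : 𝓞 (K e)) ^ n = ((e : ℤ) : 𝓞 (K e)) := by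
      apply RingOfIntegers.ext
      push_cast
      exact h0
    have hDle : (D : ℝ) ≤ 2 ^ ((n : ℝ) * (n - 1)) * (N : ℝ) ^ ((n : ℝ) - 1) := by
      have hdisc := disc_bound hK ⟨α e, hint⟩ hα
        (fun w => (abs_root (by omega) hβn w).le)
      have hDK : |(discr (K e) : ℝ)| = (D : ℝ) := by
        rw [hD, Nat.cast_natAbs]
        push_cast
        rfl
      rw [hDK, Int.natAbs_natCast] at hdisc
      have hn1 : ((n - 1 : ℕ) : ℝ) = (n : ℝ) - 1 := by
        rw [Nat.cast_sub (by omega)]; norm_num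
      have h4 : (2 * (e : ℝ) ^ (1 / (n : ℝ))) ^ (n * (n - 1)) =
          2 ^ ((n : ℝ) * ((n : ℝ) - 1)) * (e : ℝ) ^ ((n : ℝ) - 1) := by
        rw [mul_pow, ← Real.rpow_natCast ((e : ℝ) ^ (1 / (n : ℝ))),
          ← Real.rpow_mul (by linarith), ← Real.rpow_natCast 2]
        push_cast
        rw [hn1]
        congr 2
        field_simp
      rw [h4] at hdisc
      refine hdisc.trans ?_
      have : (e : ℝ) ^ ((n : ℝ) - 1) ≤ (N : ℝ) ^ ((n : ℝ) - 1) :=
        Real.rpow_le_rpow (by linarith) heNr (by linarith)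
      gcongr
    set N0 : ℕ := n * e * D with hN0'
    have hN00 : N0 ≠ 0 := by
      have : n ≠ 0 := by omega
      positivity
    have hlogN0 : 2 * Real.log (N0 : ℝ) ≤
        2 * (Real.log n + n * (n - 1) * Real.log 2) + 2 * n * Real.log N := by
      rw [hN0']
      push_cast
      have hnpos : (0 : ℝ) < n := by linarith
      rw [Real.log_mul (by positivity) (by positivity),
        Real.log_mul (by positivity) (by positivity)]
      have h2 := Real.log_le_log (by linarith) heNr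
      have h3 := Real.log_le_log hD0 hDle
      rw [Real.log_mul (by positivity) (by positivity), Real.log_rpow (by norm_num),
        Real.log_rpow hN0] at h3
      linarith
    -- the good primes
    set G := (PA n 2 y).filter (fun p => ¬ p ∣ n * e * D ∧ ¬ BadP n l a b e p) with hG
    have hGs := hC1 l hl e hsq (K e) hK (α e) hα h0 y a b hy0 (by
      rw [← hY, ha]
      have h1 : (e : ℝ) ^ (1 / (n : ℝ)) = (e : ℝ) ^ (-(1 - 1 / (n : ℝ))) * e := by
        rw [← Real.rpow_add_one (by linarith)]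
        congr 1; ring
      have h2 : (e : ℝ) ^ (-(1 - 1 / (n : ℝ))) ≤ 2 * (N : ℝ) ^ (-(1 - 1 / (n : ℝ))) := by
        calc (e : ℝ) ^ (-(1 - 1 / (n : ℝ))) ≤ ((N : ℝ) / 2) ^ (-(1 - 1 / (n : ℝ))) :=
              Real.rpow_le_rpow_of_nonpos (by linarith) hNer (by linarith)
          _ = (N : ℝ) ^ (-(1 - 1 / (n : ℝ))) * 2 ^ (1 - 1 / (n : ℝ)) := by
              rw [Real.div_rpow hN0.le (by norm_num), Real.rpow_neg (by norm_num : (0:ℝ) ≤ 2),
                div_inv_eq_mul]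
          _ ≤ (N : ℝ) ^ (-(1 - 1 / (n : ℝ))) * 2 ^ (1 : ℝ) := by
              gcongr
              · norm_num
              · linarith
          _ = _ := by rw [Real.rpow_one]; ring
      rw [h1]
      calc n * ((e : ℝ) ^ (-(1 - 1 / (n : ℝ))) * e * Y)
          = n * Y * e * (e : ℝ) ^ (-(1 - 1 / (n : ℝ))) := by ring
        _ ≤ n * Y * e * (2 * (N : ℝ) ^ (-(1 - 1 / (n : ℝ)))) := by gcongr
        _ = _ := by ring) (by
      rw [← hY, hb]
      have h1 : ((e : ℝ) ^ (1 / (n : ℝ))) ^ 2 = (e : ℝ) ^ (-(1 - 2 / (n : ℝ))) * e := by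
        rw [← Real.rpow_natCast, ← Real.rpow_mul (by linarith), ← Real.rpow_add_one (by linarith)]
        congr 1; push_cast; ring
      have h2n : 2 / (n : ℝ) ≤ 2 / 3 := by gcongr
      have h2 : (e : ℝ) ^ (-(1 - 2 / (n : ℝ))) ≤ 2 * (N : ℝ) ^ (-(1 - 2 / (n : ℝ))) := by
        calc (e : ℝ) ^ (-(1 - 2 / (n : ℝ))) ≤ ((N : ℝ) / 2) ^ (-(1 - 2 / (n : ℝ))) :=
              Real.rpow_le_rpow_of_nonpos (by linarith) hNer (by linarith)
          _ = (N : ℝ) ^ (-(1 - 2 / (n : ℝ))) * 2 ^ (1 - 2 / (n : ℝ)) := by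
              rw [Real.div_rpow hN0.le (by norm_num), Real.rpow_neg (by norm_num : (0:ℝ) ≤ 2),
                div_inv_eq_mul]
          _ ≤ (N : ℝ) ^ (-(1 - 2 / (n : ℝ))) * 2 ^ (1 : ℝ) := by
              have : 0 < 2 / (n : ℝ) := by positivity
              gcongr
              · norm_num
              · linarith
          _ = _ := by rw [Real.rpow_one]; ring
      rw [h1]
      calc n * ((e : ℝ) ^ (-(1 - 2 / (n : ℝ))) * e * Y)
          = n * Y * e * (e : ℝ) ^ (-(1 - 2 / (n : ℝ))) := by ring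
        _ ≤ n * Y * e * (2 * (N : ℝ) ^ (-(1 - 2 / (n : ℝ)))) := by gcongr
        _ = _ := by ring)
    rw [← hD, ← hG] at hGs
    set T : ℝ := (Nat.card {c : ClassGroup (𝓞 (K e)) // c ^ l = 1} : ℝ) with hTdef
    have hT0 : 0 ≤ T := by positivity
    -- lower bound for the number of good primes
    have hcard : ((PA n 2 y).card : ℝ) ≤ G.card + N0.primeFactors.card + z +
        ((PB.filter (fun p => BadP n l a b e p)).card : ℝ) := by
      have h1 : PA n 2 y ⊆ ((G ∪ N0.primeFactors) ∪ (Finset.Icc 1 ⌊z⌋₊)) ∪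
          (PB.filter (fun p => BadP n l a b e p)) := by
        intro p hp
        rw [mem_union, mem_union, mem_union, hG, mem_filter, mem_filter, hPB, mem_filter]
        by_cases h : p ∣ N0
        · left; left; right
          rw [PA, mem_filter] at hp
          exact Nat.mem_primeFactors.mpr ⟨hp.2.1, h, hN00⟩
        · by_cases h2 : BadP n l a b e p
          · by_cases h3 : z < (p : ℝ)
            · right; exact ⟨⟨hp, h3⟩, h2⟩
            · left; right
              rw [PA, mem_filter] at hp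
              rw [Finset.mem_Icc]
              exact ⟨hp.2.1.one_lt.le, Nat.le_floor (not_lt.mp h3)⟩
          · left; left; left; exact ⟨hp, h, h2⟩
      have h2 := card_le_card h1
      have h3 := card_union_le ((G ∪ N0.primeFactors) ∪ (Finset.Icc 1 ⌊z⌋₊))
        (PB.filter (fun p => BadP n l a b e p))
      have h4 := card_union_le (G ∪ N0.primeFactors) (Finset.Icc 1 ⌊z⌋₊)
      have h5 := card_union_le G N0.primeFactors
      have h6 : (Finset.Icc 1 ⌊z⌋₊).card = ⌊z⌋₊ := by rw [Nat.card_Icc]; omega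
      have h7 : (⌊z⌋₊ : ℝ) ≤ z := Nat.floor_le hz0.le
      have h8 : (PA n 2 y).card ≤ G.card + N0.primeFactors.card + ⌊z⌋₊ +
          (PB.filter (fun p => BadP n l a b e p)).card := by omega
      have h9 : ((PA n 2 y).card : ℝ) ≤ G.card + N0.primeFactors.card + (⌊z⌋₊ : ℝ) +
          ((PB.filter (fun p => BadP n l a b e p)).card : ℝ) := by exact_mod_cast h8
      linarith
    have hyδ : z ≤ c / 4 * y ^ (1 - δ) := by
      have h1 : z = y ^ (-δ) * y ^ (1 - δ) := by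
        rw [hz, ← Real.rpow_add hy0]; congr 1; ring
      rw [h1]
      have h2 : y ^ (-δ) ≤ c / 4 := by
        refine le_trans ?_ hi
        calc y ^ (-δ) ≤ ((N : ℝ) ^ θ0) ^ (-δ) :=
              Real.rpow_le_rpow_of_nonpos (by positivity) hyθ (by linarith)
          _ = (N : ℝ) ^ (-(δ * θ0)) := by
              rw [← Real.rpow_mul hN0.le]; congr 1; ring
      have h3 : 0 < y ^ (1 - δ) := Real.rpow_pos_of_pos hy0 _
      gcongr
    have hpf := card_primeFactors_le N0 hN00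
    have hsmall : C0 + (N0.primeFactors.card : ℝ) ≤ c / 4 * y ^ (1 - δ) := by
      have h1 : ((N : ℝ) ^ ((1 - δ) * θ0)) ≤ y ^ (1 - δ) := by
        calc (N : ℝ) ^ ((1 - δ) * θ0) = ((N : ℝ) ^ θ0) ^ (1 - δ) := by
              rw [← Real.rpow_mul hN0.le]; congr 1; ring
          _ ≤ y ^ (1 - δ) := Real.rpow_le_rpow (by positivity) hyθ (by linarith)
      have h2 : c / 4 * (N : ℝ) ^ ((1 - δ) * θ0) ≤ c / 4 * y ^ (1 - δ) := by gcongr
      linarith
    have hg := hPA y hy0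
    have hG4 : c / 4 * y ^ (1 - δ) ≤ G.card + 1 := by linarith
    have hyp : 0 < y ^ (1 - δ) := Real.rpow_pos_of_pos hy0 _
    have h1 : T * (c / 4 * y ^ (1 - δ)) ≤ C1 * (D : ℝ) ^ (1 / 2 + δ) :=
      (mul_le_mul_of_nonneg_left hG4 hT0).trans hGs
    have h2 : (D : ℝ) ^ (1 / 2 + δ) ≤
        2 ^ ((n : ℝ) * (n - 1)) * (N : ℝ) ^ (((n : ℝ) - 1) * (1 / 2 + δ)) := by
      calc (D : ℝ) ^ (1 / 2 + δ) ≤
            (2 ^ ((n : ℝ) * (n - 1)) * (N : ℝ) ^ ((n : ℝ) - 1)) ^ (1 / 2 + δ) :=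
            Real.rpow_le_rpow hD0.le hDle (by linarith)
        _ = (2 ^ ((n : ℝ) * (n - 1))) ^ (1 / 2 + δ) *
              (N : ℝ) ^ (((n : ℝ) - 1) * (1 / 2 + δ)) := by
            rw [Real.mul_rpow (by positivity) (by positivity), ← Real.rpow_mul hN0.le]
        _ ≤ (2 ^ ((n : ℝ) * (n - 1))) ^ (1 : ℝ) *
              (N : ℝ) ^ (((n : ℝ) - 1) * (1 / 2 + δ)) := by
            have h3 : (1 : ℝ) ≤ 2 ^ ((n : ℝ) * (n - 1)) :=
              Real.one_le_rpow (by norm_num) (by nlinarith)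
            gcongr
            linarith
        _ = _ := by rw [Real.rpow_one]
    have h3 : T * y ≤ CA * (N : ℝ) ^ (((n : ℝ) - 1) / 2 + ε) := by
      have h4 : y = y ^ (1 - δ) * y ^ δ := by
        rw [← Real.rpow_add hy0, sub_add_cancel, Real.rpow_one]
      have h5 : y ^ δ ≤ (N : ℝ) ^ (2 * δ) := by
        calc y ^ δ ≤ ((N : ℝ) ^ (2 : ℝ)) ^ δ := Real.rpow_le_rpow hy0.le hyN2 hδ0.le
          _ = (N : ℝ) ^ (2 * δ) := by rw [← Real.rpow_mul hN0.le]
      calc T * y = (4 / c) * (T * (c / 4 * y ^ (1 - δ))) * y ^ δ := by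
            conv_lhs => rw [h4]
            field_simp
        _ ≤ (4 / c) * (C1 * (D : ℝ) ^ (1 / 2 + δ)) * y ^ δ := by gcongr
        _ ≤ (4 / c) * (C1 * (2 ^ ((n : ℝ) * (n - 1)) *
              (N : ℝ) ^ (((n : ℝ) - 1) * (1 / 2 + δ)))) * (N : ℝ) ^ (2 * δ) := by gcongr
        _ = CA * ((N : ℝ) ^ (((n : ℝ) - 1) * (1 / 2 + δ)) * (N : ℝ) ^ (2 * δ)) := by
            rw [hCA]; ring
        _ = CA * (N : ℝ) ^ (((n : ℝ) - 1) * (1 / 2 + δ) + 2 * δ) := by
            rw [← Real.rpow_add hN0]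
        _ ≤ _ := by
            have : (N : ℝ) ^ (((n : ℝ) - 1) * (1 / 2 + δ) + 2 * δ) ≤
                (N : ℝ) ^ (((n : ℝ) - 1) / 2 + ε) := by
              apply Real.rpow_le_rpow_of_exponent_le hNr
              nlinarith
            gcongr
    have h4 : 0 < (N : ℝ) ^ (((n : ℝ) - 1) / 2 + ε) := Real.rpow_pos_of_pos hN0 _
    have h5 : CA * (N : ℝ) ^ (((n : ℝ) - 1) / 2 + ε) ≤
        (N1 + CA + CB) * (N : ℝ) ^ (((n : ℝ) - 1) / 2 + ε) := by
      gcongr
      linarith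
    linarith
  -- double counting
  have hdc : ∑ e ∈ S, ((PB.filter (fun p => BadP n l a b e p)).card : ℝ) =
      ∑ p ∈ PB, ((S.filter (fun e => BadP n l a b e p)).card : ℝ) := by
    simp only [Finset.card_filter, Nat.cast_sum]
    rw [Finset.sum_comm]
  have hup : ∑ p ∈ PB, ((S.filter (fun e => BadP n l a b e p)).card : ℝ) ≤
      y * (9 * (a * b) * (y ^ (2 * l * δ) * ((N : ℝ) / y ^ l + 1))) := by
    have h1 : ∀ p ∈ PB, ((S.filter (fun e => BadP n l a b e p)).card : ℝ) ≤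
        9 * (a * b) * (y ^ (2 * l * δ) * ((N : ℝ) / y ^ l + 1)) := by
      intro p hp
      rw [hPB, mem_filter, PA, mem_filter] at hp
      obtain ⟨⟨-, hpp, -⟩, hzp⟩ := hp
      refine (card_bad hpp S (fun e he => (hS e he).2.2.1) (by linarith)
        (by linarith)).trans ?_
      have h2 : (2 * a + 1) * (2 * b + 1) ≤ 9 * (a * b) := by nlinarith
      have h3 : (N : ℝ) / (p : ℝ) ^ l + 1 ≤ y ^ (2 * l * δ) * ((N : ℝ) / y ^ l + 1) := by
        have h4 : y ^ l * y ^ (-(2 * l * δ)) ≤ (p : ℝ) ^ l := by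
          calc y ^ l * y ^ (-(2 * l * δ)) = z ^ l := by
                rw [hz, ← Real.rpow_natCast y, ← Real.rpow_add hy0,
                  ← Real.rpow_natCast (y ^ (1 - 2 * δ)), ← Real.rpow_mul hy0.le]
                congr 1; ring
            _ ≤ (p : ℝ) ^ l := pow_le_pow_left₀ hz0.le hzp.le _
        have h5 : 1 ≤ y ^ (2 * l * δ) := Real.one_le_rpow hy1 (by positivity)
        have h6 : (N : ℝ) / (p : ℝ) ^ l ≤ (N : ℝ) / (y ^ l * y ^ (-(2 * l * δ))) := by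
          have : 0 < y ^ (-(2 * l * δ)) := Real.rpow_pos_of_pos hy0 _
          gcongr
        have h7 : (N : ℝ) / (y ^ l * y ^ (-(2 * l * δ))) = y ^ (2 * l * δ) * ((N : ℝ) / y ^ l) := by
          rw [Real.rpow_neg hy0.le]
          have : y ^ (2 * l * δ) ≠ 0 := (Real.rpow_pos_of_pos hy0 _).ne'
          field_simp
        rw [mul_add, mul_one]
        linarith
      have h4 : (0 : ℝ) ≤ (N : ℝ) / (p : ℝ) ^ l + 1 := by positivity
      have h5 : (0 : ℝ) ≤ 9 * (a * b) := by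
        have := mul_nonneg (show 0 ≤ a by linarith) (show 0 ≤ b by linarith)
        linarith
      exact mul_le_mul h2 h3 h4 h5
    refine (Finset.sum_le_card_nsmul _ _ _ h1).trans ?_
    rw [nsmul_eq_mul]
    have h2 : (PB.card : ℝ) ≤ y := by
      have h3 : PB ⊆ Finset.Icc 1 ⌊y⌋₊ := by
        intro p hp
        rw [hPB, mem_filter, PA, mem_filter] at hp
        exact hp.1.1
      have h4 := card_le_card h3
      rw [Nat.card_Icc] at h4
      have h5 : PB.card ≤ ⌊y⌋₊ := by omega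
      exact (Nat.cast_le.mpr h5).trans (Nat.floor_le hy0.le)
    have h5 : (0 : ℝ) ≤ 9 * (a * b) * (y ^ (2 * l * δ) * ((N : ℝ) / y ^ l + 1)) := by
      have := mul_nonneg (show 0 ≤ a by linarith) (show 0 ≤ b by linarith)
      positivity
    gcongr
  have hlow : (S.card : ℝ) * ((c / 4) * y ^ (1 - δ)) ≤
      ∑ e ∈ S, ((PB.filter (fun p => BadP n l a b e p)).card : ℝ) := by
    rw [← nsmul_eq_mul]
    exact Finset.card_nsmul_le_sum _ _ _ hbad
  have hyp : 0 < y ^ (1 - δ) := Real.rpow_pos_of_pos hy0 _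
  have h1 : (S.card : ℝ) * ((c / 4) * y ^ (1 - δ)) ≤
      y * (9 * (a * b) * (y ^ (2 * l * δ) * ((N : ℝ) / y ^ l + 1))) := by
    rw [hdc] at hlow
    exact hlow.trans hup
  have hab2 : 9 * (a * b) = 36 * (n : ℝ) ^ 2 * (150 : ℝ) ^ (2 * l) * (y ^ (2 * l) *
      (N : ℝ) ^ (3 / (n : ℝ) - 2)) := by
    have e1 : (N : ℝ) ^ (3 / (n : ℝ) - 2) =
        (N : ℝ) ^ (-(1 - 1 / (n : ℝ))) * (N : ℝ) ^ (-(1 - 2 / (n : ℝ))) := by
      rw [← Real.rpow_add hN0]; congr 1; ring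
    rw [ha, hb, e1, hY, mul_pow, pow_mul', pow_mul' y]
    ring
  have h2 : (S.card : ℝ) * y ^ (1 - δ) ≤ CB * (y * y ^ (2 * l * δ)) *
      ((N : ℝ) ^ (3 / (n : ℝ) - 1) * y ^ l + (N : ℝ) ^ (3 / (n : ℝ) - 2) * y ^ (2 * l)) := by
    have e2 : (N : ℝ) ^ (3 / (n : ℝ) - 1) = (N : ℝ) ^ (3 / (n : ℝ) - 2) * N := by
      rw [← Real.rpow_add_one hN0.ne']; congr 1; ring
    have e3 : y ^ (2 * l) * ((N : ℝ) / y ^ l + 1) = N * y ^ l + y ^ (2 * l) := by
      rw [pow_mul']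
      field_simp
    calc (S.card : ℝ) * y ^ (1 - δ) = (4 / c) * ((S.card : ℝ) * ((c / 4) * y ^ (1 - δ))) := by
          field_simp
      _ ≤ (4 / c) * (y * (9 * (a * b) * (y ^ (2 * l * δ) * ((N : ℝ) / y ^ l + 1)))) := by gcongr
      _ = CB * (y * y ^ (2 * l * δ)) * ((N : ℝ) ^ (3 / (n : ℝ) - 2) *
            (y ^ (2 * l) * ((N : ℝ) / y ^ l + 1))) := by rw [hab2, hCB]; ring
      _ = _ := by rw [e3, e2]; ring
  have h3 : y * y ^ (2 * l * δ) ≤ y ^ (1 - δ) * (N : ℝ) ^ ε := by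
    have e1 : y * y ^ (2 * l * δ) = y ^ (1 - δ) * y ^ ((2 * l + 1) * δ) := by
      rw [← Real.rpow_add hy0]
      nth_rw 1 [← Real.rpow_one y]
      rw [← Real.rpow_add hy0]
      congr 1; ring
    rw [e1]
    have e2 : y ^ ((2 * l + 1) * δ) ≤ (N : ℝ) ^ ε := by
      calc y ^ ((2 * l + 1) * δ) ≤ ((N : ℝ) ^ (2 : ℝ)) ^ ((2 * l + 1) * δ) :=
            Real.rpow_le_rpow hy0.le hyN2 (by positivity)
        _ = (N : ℝ) ^ (2 * ((2 * l + 1) * δ)) := by rw [← Real.rpow_mul hN0.le]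
        _ ≤ (N : ℝ) ^ ε := Real.rpow_le_rpow_of_exponent_le hNr hδb
    gcongr
  set F : ℝ := (N : ℝ) ^ (3 / (n : ℝ) - 1) * y ^ l + (N : ℝ) ^ (3 / (n : ℝ) - 2) * y ^ (2 * l)
    with hF
  have hF0 : 0 < F := by positivity
  have h4 : (S.card : ℝ) * y ^ (1 - δ) ≤ (CB * (N : ℝ) ^ ε * F) * y ^ (1 - δ) := by
    calc _ ≤ _ := h2
      _ ≤ CB * (y ^ (1 - δ) * (N : ℝ) ^ ε) * F := by gcongr
      _ = _ := by ring
  have h5 := le_of_mul_le_mul_right h4 hyp
  calc (S.card : ℝ) ≤ CB * (N : ℝ) ^ ε * F := h5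
    _ ≤ (N1 + CA + CB) * (N : ℝ) ^ ε * F := by
        gcongr
        linarith

end Pool.Agent.Y159.PT
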