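import Pool.Agent.Y159.PT.Coll
import Pool.Agent.TH869.EVF.Fin1

set_option autoImplicit false

/-! Level sets of the torsion of the class groups of pure fields. -/

namespace Pool.Agent.Y159.PT

open NumberField Finset Pool.Agent.TH847.LG Pool.Agent.TH869.EVF
open scoped Classical nonZeroDivisors

/-- the condition satisfied by the primes that are not separated -/
def BadP (n l : ℕ) (a b : ℝ) (e p : ℕ) : Prop :=
  ∃ s t : ℤ, ¬ (p : ℤ) ∣ s ∧ |(s : ℝ)| ≤ a ∧ |(t : ℝ)| ≤ b ∧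
    ((p ^ l : ℕ) : ℤ) ∣ e * s ^ n - t ^ n

theorem card_Icc_floor {a : ℝ} (ha : 0 ≤ a) :
    ((Finset.Icc (-⌊a⌋) ⌊a⌋).card : ℝ) ≤ 2 * a + 1 := by
  rw [Int.card_Icc]
  have h1 : (0 : ℤ) ≤ ⌊a⌋ := Int.floor_nonneg.mpr ha
  have h2 : ((⌊a⌋ + 1 - -⌊a⌋).toNat : ℝ) = 2 * (⌊a⌋ : ℝ) + 1 := by
    have h3 : (((⌊a⌋ + 1 - -⌊a⌋).toNat : ℤ) : ℝ) = ((⌊a⌋ + 1 - -⌊a⌋ : ℤ) : ℝ) := by
      rw [Int.toNat_of_nonneg (by omega)]
    rw [← Int.cast_natCast (R := ℝ), h3]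
    push_cast
    ring
  rw [h2]
  have := Int.floor_le a
  linarith

theorem mem_Icc_floor {a : ℝ} {s : ℤ} (h : |(s : ℝ)| ≤ a) : s ∈ Finset.Icc (-⌊a⌋) ⌊a⌋ := by
  rw [Finset.mem_Icc]
  have h1 := abs_le.mp h
  refine ⟨?_, Int.le_floor.mpr h1.2⟩
  have h2 : -s ≤ ⌊a⌋ := Int.le_floor.mpr (by push_cast; linarith)
  omega

/-- for each prime few parameters are bad -/
theorem card_bad {n l N p : ℕ} (hp : p.Prime) (S : Finset ℕ) (hS : ∀ e ∈ S, e ≤ N) {a b : ℝ}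
    (ha : 0 ≤ a) (hb : 0 ≤ b) :
    ((S.filter (fun e => BadP n l a b e p)).card : ℝ) ≤
      (2 * a + 1) * (2 * b + 1) * ((N : ℝ) / (p : ℝ) ^ l + 1) := by
  have h1 : S.filter (fun e => BadP n l a b e p) ⊆
      ((Finset.Icc (-⌊a⌋) ⌊a⌋) ×ˢ (Finset.Icc (-⌊b⌋) ⌊b⌋)).biUnion (fun st =>
        S.filter (fun e => ¬ (p : ℤ) ∣ st.1 ∧ ((p ^ l : ℕ) : ℤ) ∣ e * st.1 ^ n - st.2 ^ n)) := by
    intro e he
    rw [mem_filter] at he
    obtain ⟨heS, s, t, hs, hsa, htb, hd⟩ := he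
    rw [mem_biUnion]
    refine ⟨(s, t), mem_product.mpr ⟨mem_Icc_floor hsa, mem_Icc_floor htb⟩, ?_⟩
    rw [mem_filter]
    exact ⟨heS, hs, hd⟩
  have hpl : 0 < p ^ l := pow_pos hp.pos l
  have h2 : ∀ st ∈ (Finset.Icc (-⌊a⌋) ⌊a⌋) ×ˢ (Finset.Icc (-⌊b⌋) ⌊b⌋),
      (S.filter (fun e : ℕ => ¬ (p : ℤ) ∣ st.1 ∧
        ((p ^ l : ℕ) : ℤ) ∣ e * st.1 ^ n - st.2 ^ n)).card ≤ N / p ^ l + 1 := by
    intro st _
    refine card_residue _ (fun x hx => hS x (mem_filter.mp hx).1) ?_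
    intro x hx y hy
    obtain ⟨-, hs, hx2⟩ := mem_filter.mp hx
    obtain ⟨-, -, hy2⟩ := mem_filter.mp hy
    have h3 : ((p ^ l : ℕ) : ℤ) ∣ ((x : ℤ) - y) * st.1 ^ n := by
      have h4 := dvd_sub hx2 hy2
      have e1 : ((x : ℤ) * st.1 ^ n - st.2 ^ n) - ((y : ℤ) * st.1 ^ n - st.2 ^ n) =
          ((x : ℤ) - y) * st.1 ^ n := by ring
      rwa [e1] at h4
    refine IsCoprime.dvd_of_dvd_mul_right ?_ h3
    push_cast
    refine (IsCoprime.pow_left ?_).pow_right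
    exact (Int.prime_iff_natAbs_prime.mpr (by simpa using hp)).coprime_iff_not_dvd.mpr hs
  have h3 : (S.filter (fun e => BadP n l a b e p)).card ≤
      ((Finset.Icc (-⌊a⌋) ⌊a⌋).card * (Finset.Icc (-⌊b⌋) ⌊b⌋).card) * (N / p ^ l + 1) := by
    calc _ ≤ _ := card_le_card h1
      _ ≤ _ := card_biUnion_le
      _ ≤ _ := Finset.sum_le_card_nsmul _ _ _ h2
      _ = _ := by rw [card_product, smul_eq_mul]
  have h4 : ((N / p ^ l : ℕ) : ℝ) ≤ (N : ℝ) / (p : ℝ) ^ l := by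
    have := Nat.cast_div_le (α := ℝ) (m := N) (n := p ^ l)
    rwa [Nat.cast_pow] at this
  calc ((S.filter (fun e => BadP n l a b e p)).card : ℝ)
      ≤ (((Finset.Icc (-⌊a⌋) ⌊a⌋).card : ℝ) * ((Finset.Icc (-⌊b⌋) ⌊b⌋).card : ℝ)) *
        (((N / p ^ l : ℕ) : ℝ) + 1) := by exact_mod_cast h3
    _ ≤ _ := by
        have h5 := card_Icc_floor ha
        have h6 := card_Icc_floor hb
        gcongr

/-- the primes that are not bad are separated -/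
theorem sep_bound (n : ℕ) (hn : 3 ≤ n) (δ : ℝ) (hδ : 0 < δ) : ∃ C : ℝ, 0 < C ∧ ∀ l : ℕ, 1 ≤ l →
    ∀ e : ℕ, Squarefree e →
    ∀ (K : Type) [Field K] [NumberField K], Module.finrank ℚ K = n → ∀ α : K,
    IntermediateField.adjoin ℚ {α} = ⊤ → α ^ n = (e : K) → ∀ y a b : ℝ, 0 < y →
    (n * ((e : ℝ) ^ (1 / (n : ℝ)) * (150 * y) ^ l) ≤ a * e) →
    (n * (((e : ℝ) ^ (1 / (n : ℝ))) ^ 2 * (150 * y) ^ l) ≤ b * e) →
    (Nat.card {c : ClassGroup (𝓞 K) // c ^ l = 1} : ℝ) *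
      ((((PA n 2 y).filter (fun p => ¬ p ∣ n * e * (discr K).natAbs ∧
        ¬ BadP n l a b e p)).card : ℝ) + 1) ≤
      C * ((discr K).natAbs : ℝ) ^ (1 / 2 + δ : ℝ) := by
  obtain ⟨C, hC0, hC⟩ := tor_sep n (by omega) δ hδ
  refine ⟨C, hC0, ?_⟩
  intro l hl e he K _ _ hK α hα h0 y a b hy ha hb
  have he0 : e ≠ 0 := he.ne_zero
  have her : (0 : ℝ) < e := by exact_mod_cast Nat.pos_of_ne_zero he0
  have h0' : α ^ n = ((e : ℤ) : K) := by rw [h0]; push_cast; rfl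
  have hint : IsIntegral ℤ α := by
    refine IsIntegral.of_pow (show 0 < n by omega) ?_
    rw [h0']
    exact isIntegral_algebraMap
  have hβn : (⟨α, hint⟩ : 𝓞 K) ^ n = ((e : ℤ) : 𝓞 K) := by
    apply RingOfIntegers.ext
    push_cast
    exact h0
  refine hC l hl K hK _ ?_ ?_
  · intro p hp
    rw [mem_filter, PA, mem_filter, mem_Icc] at hp
    obtain ⟨⟨⟨-, hpy⟩, hpp, hpc⟩, hpN, -⟩ := hp
    have hpn : ¬ p ∣ n := fun h => hpN (by rw [mul_assoc]; exact h.mul_right _)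
    have hpM : ¬ p ∣ e := fun h => hpN ((h.mul_left n).mul_right _)
    refine ⟨hpp, dickson_norm (n := n) (a := 0) (b := e) hn (Or.inl rfl) hK α hα ?_ hpp hpc hpn ?_⟩
    · have h1 := dickson_eval α (0 : K) n
      rw [mul_zero, add_zero, zero_pow (by omega), add_zero] at h1
      rw [Int.cast_zero, h1, h0']
    · simpa [Mab] using hpM
  · intro p hp q hq hpq P J Q R hP hPJ hQ hQR z hz0 hz hw
    rw [mem_filter, PA, mem_filter, mem_Icc] at hp hq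
    obtain ⟨⟨⟨-, hpy⟩, hpp, hpc⟩, hpN, hpB⟩ := hp
    obtain ⟨⟨⟨-, hqy⟩, hqp, hqc⟩, hqN, hqB⟩ := hq
    have hpM : ¬ p ∣ e := fun h => hpN ((h.mul_left n).mul_right _)
    have hpD : ¬ p ∣ (discr K).natAbs := fun h => hpN (h.mul_left _)
    have hpy' : (p : ℝ) ≤ y := (Nat.cast_le.mpr hpy).trans (Nat.floor_le hy.le)
    have hqy' : (q : ℝ) ≤ y := (Nat.cast_le.mpr hqy).trans (Nat.floor_le hy.le)
    have hw' : ∀ w : InfinitePlace K, w (z : K) ≤ (150 * y) ^ l := by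
      intro w
      refine (hw w).trans ?_
      have : ((max p q : ℕ) : ℝ) ≤ y := by
        rw [Nat.cast_max]
        exact max_le hpy' hqy'
      gcongr
    obtain ⟨s, t, h1, h2, h3, h4⟩ := collision hK hl he hβn hpp hqp hpq hP hPJ hpD hpM hQ hz hw'
    apply hpB
    refine ⟨s, t, h1, ?_, ?_, h4⟩
    · exact le_of_mul_le_mul_right (h2.trans ha) her
    · exact le_of_mul_le_mul_right (h3.trans hb) her

end Pool.Agent.Y159.PT
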