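import Pool.Agent.Y159.PT.Tr

set_option autoImplicit false

/-! Roots of integers in number fields. -/

namespace Pool.Agent.Y159.PT

open NumberField Finset
open scoped nonZeroDivisors

variable {K : Type} [Field K] [NumberField K]

/-- an element of the inverse different bounds the discriminant from below -/
theorem pow_dvd_discr {n : ℕ} (hn : Module.finrank ℚ K = n) {β : 𝓞 K} (hβ : β ≠ 0) {m : ℕ}
    (hm0 : m ≠ 0) (hm : ∀ x : 𝓞 K, (m : ℤ) ∣ Algebra.trace ℤ (𝓞 K) (β * x)) :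
    m ^ n ∣ (Algebra.norm ℤ β).natAbs * (discr K).natAbs := by
  have hβK : (β : K) ≠ 0 := by exact_mod_cast hβ
  have hmK : (m : K) ≠ 0 := by exact_mod_cast hm0
  have hI0 : FractionalIdeal.spanSingleton (𝓞 K)⁰ ((m : K) / β) ≠ 0 := by
    rw [Ne, FractionalIdeal.spanSingleton_eq_zero_iff]
    exact div_ne_zero hmK hβK
  have hle : (differentIdeal ℤ (𝓞 K) : FractionalIdeal (𝓞 K)⁰ K) ≤
      FractionalIdeal.spanSingleton (𝓞 K)⁰ ((m : K) / β) := by
    rw [differentialIdeal_le_fractionalIdeal_iff (A := ℤ) (K := ℚ) (L := K) hI0]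
    rintro _ ⟨x, hx, rfl⟩
    have hx' : x ∈ (FractionalIdeal.spanSingleton (𝓞 K)⁰ ((m : K) / β))⁻¹ := hx
    rw [FractionalIdeal.spanSingleton_inv, FractionalIdeal.mem_spanSingleton] at hx'
    obtain ⟨t, ht⟩ := hx'
    obtain ⟨s, hs⟩ := hm t
    have h4 : Algebra.trace ℚ K x = ((s : ℤ) : ℚ) := by
      have h5 : Algebra.trace ℚ K (algebraMap (𝓞 K) K (β * t)) =
          ((Algebra.trace ℤ (𝓞 K) (β * t) : ℤ) : ℚ) := by
        rw [Algebra.coe_trace_int]
      have h6 : algebraMap (𝓞 K) K (β * t) = (m : ℚ) • x := by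
        rw [← ht, Algebra.smul_def, Algebra.smul_def, map_mul, map_natCast]
        field_simp
      rw [h6, map_smul, smul_eq_mul, hs] at h5
      push_cast at h5
      have hp0 : (m : ℚ) ≠ 0 := by exact_mod_cast hm0
      exact mul_left_cancel₀ hp0 h5
    rw [Submodule.mem_one]
    exact ⟨s, by simpa using h4.symm⟩
  have hle2 : Ideal.span {β} * differentIdeal ℤ (𝓞 K) ≤ Ideal.span {((m : ℕ) : 𝓞 K)} := by
    rw [Ideal.span_singleton_mul_le_iff]
    intro d hd
    have h1 : (d : K) ∈ FractionalIdeal.spanSingleton (𝓞 K)⁰ ((m : K) / β) :=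
      hle (FractionalIdeal.mem_coeIdeal_of_mem _ hd)
    rw [FractionalIdeal.mem_spanSingleton] at h1
    obtain ⟨t, ht⟩ := h1
    rw [Ideal.mem_span_singleton]
    refine ⟨t, ?_⟩
    apply RingOfIntegers.ext
    have h2 : ((β * d : 𝓞 K) : K) = (β : K) * (d : K) := by push_cast; rfl
    have h3 : ((((m : ℕ) : 𝓞 K) * t : 𝓞 K) : K) = (m : K) * (t : K) := by push_cast; rfl
    rw [h2, h3, ← ht, Algebra.smul_def]
    field_simp
  have h3 := Ideal.absNorm_dvd_absNorm_of_le hle2
  rw [map_mul, absNorm_differentIdeal K, Ideal.absNorm_span_natCast, RingOfIntegers.rank, hn,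
    Ideal.absNorm_span_singleton] at h3
  exact h3

/-- the radical -/
def rad (e : ℤ) : ℕ := ∏ p ∈ e.natAbs.primeFactors, p

theorem rad_pos (e : ℤ) : 0 < rad e :=
  Finset.prod_pos fun _ hp => (Nat.prime_of_mem_primeFactors hp).pos

/-- the radical of `e` divides the traces of the multiples of a root of `x ^ n = e` -/
theorem rad_dvd_trace {n : ℕ} {e : ℤ} {β : 𝓞 K} (hβ : β ^ n = (e : 𝓞 K)) (x : 𝓞 K) :
    (rad e : ℤ) ∣ Algebra.trace ℤ (𝓞 K) (β * x) := by
  rw [Int.natCast_dvd, rad]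
  refine Finset.prod_primes_dvd _ (fun p hp => (Nat.prime_of_mem_primeFactors hp).prime) ?_
  intro p hp
  rw [← Int.natCast_dvd]
  refine dvd_trace_of_pow (Nat.prime_of_mem_primeFactors hp) (m := n) ?_
  rw [mul_pow, hβ]
  refine dvd_mul_of_dvd_left ?_ _
  obtain ⟨t, ht⟩ := Int.natCast_dvd.mpr (Nat.dvd_of_mem_primeFactors hp)
  exact ⟨(t : 𝓞 K), by rw [ht]; push_cast; rfl⟩

/-- the norm of a root -/
theorem norm_root {n : ℕ} (hn : Module.finrank ℚ K = n) {e : ℤ} {β : 𝓞 K}
    (hβ : β ^ n = (e : 𝓞 K)) : (Algebra.norm ℤ β).natAbs = e.natAbs := by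
  have hn0 : 0 < n := by rw [← hn]; exact (Module.finrank_pos (R := ℚ) (M := K))
  have h1 : (Algebra.norm ℤ β) ^ n = e ^ n := by
    rw [← map_pow, hβ]
    have := Algebra.norm_algebraMap (R := ℤ) (S := 𝓞 K) e
    rw [RingOfIntegers.rank, hn] at this
    rw [← this]
    simp
  have h2 := congrArg Int.natAbs h1
  rw [Int.natAbs_pow, Int.natAbs_pow] at h2
  exact Nat.pow_left_injective (by omega) h2

omit [NumberField K] in
/-- the absolute values of a root -/
theorem abs_root {n : ℕ} (hn0 : n ≠ 0) {e : ℤ} {β : 𝓞 K}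
    (hβ : β ^ n = (e : 𝓞 K)) (w : InfinitePlace K) :
    w (β : K) = (e.natAbs : ℝ) ^ (1 / (n : ℝ)) := by
  have h1 : (w (β : K)) ^ n = (e.natAbs : ℝ) := by
    have h2 : (β : K) ^ n = (e : K) := by
      have := congrArg (algebraMap (𝓞 K) K) hβ
      rw [map_pow, map_intCast] at this
      exact this
    rw [← map_pow, h2]
    have h3 : w ((e : ℤ) : K) = |(e : ℝ)| := by
      rw [← InfinitePlace.norm_embedding_eq, map_intCast, Complex.norm_intCast]
    rw [h3, Nat.cast_natAbs]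
    push_cast
    rfl
  rw [← h1, ← Real.rpow_natCast, ← Real.rpow_mul (apply_nonneg _ _)]
  have : (n : ℝ) ≠ 0 := by exact_mod_cast hn0
  rw [mul_one_div_cancel this, Real.rpow_one]

/-- an integer not divisible by the `n`-th power of a prime is at most the power of its radical -/
theorem natAbs_le_rad {n : ℕ} (hn : 1 ≤ n) {e : ℤ} (he0 : e ≠ 0)
    (he : ∀ p : ℕ, p.Prime → ¬ ((p : ℤ) ^ n ∣ e)) : e.natAbs ≤ rad e ^ (n - 1) := by
  have h1 := Nat.prod_factorization_pow_eq_self (Int.natAbs_ne_zero.mpr he0)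
  have h2 : e.natAbs = ∏ p ∈ e.natAbs.primeFactors, p ^ (e.natAbs.factorization p) := by
    conv_lhs => rw [← h1]
    rfl
  rw [h2, rad, ← Finset.prod_pow]
  refine Finset.prod_le_prod' ?_
  intro p hp
  refine Nat.pow_le_pow_right (Nat.prime_of_mem_primeFactors hp).pos ?_
  by_contra hcon
  push Not at hcon
  have h3 : n ≤ e.natAbs.factorization p := by omega
  apply he p (Nat.prime_of_mem_primeFactors hp)
  have h4 : p ^ n ∣ e.natAbs :=
    (pow_dvd_pow p h3).trans (Nat.ordProj_dvd _ _)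
  have h5 := Int.natCast_dvd.mpr h4
  push_cast at h5
  exact h5

end Pool.Agent.Y159.PT
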