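import Pool.Agent.Y159.PT.Crit
import Pool.Agent.Y159.PT.Pure
import Pool.Agent.TH869.EVF.Fin1

set_option autoImplicit false

/-! Torsion in the class groups of pure fields. -/

namespace Pool.Agent.Y159.PT

open NumberField Finset Pool.Agent.TH847.LG Pool.Agent.TH869.EVF

/-- **Torsion in the class groups of pure fields.** -/
theorem pure_torsion (n : ℕ) (hn : 3 ≤ n) (hodd : Odd n) (ε : ℝ) (hε : 0 < ε) :
    ∃ C : ℝ, 0 < C ∧ ∀ l : ℕ, 1 ≤ l → ∀ e : ℤ, (∀ p : ℕ, p.Prime → ¬ ((p : ℤ) ^ n ∣ e)) →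
    ∀ (K : Type) [Field K] [NumberField K], Module.finrank ℚ K = n → ∀ α : K,
    IntermediateField.adjoin ℚ {α} = ⊤ → α ^ n = (e : K) →
    (Nat.card {c : ClassGroup (𝓞 K) // c ^ l = 1} : ℝ) *
      ((rad e : ℝ) / (e.natAbs : ℝ) ^ (1 / (n : ℝ))) ^ (1 / (l : ℝ)) ≤
      C * ((discr K).natAbs : ℝ) ^ (1 / 2 + ε : ℝ) := by
  set δ : ℝ := min ε 1 / 4 with hδ
  have hδ0 : 0 < δ := by
    have : 0 < min ε 1 := lt_min hε one_pos
    positivity
  have hδε : 4 * δ ≤ ε := by
    rw [hδ]; have := min_le_left ε 1; linarith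
  have hδ1 : 4 * δ ≤ 1 := by
    rw [hδ]; have := min_le_right ε 1; linarith
  obtain ⟨C1, hC10, hC1⟩ := crit n (by omega) δ hδ0
  obtain ⟨c, C0, hc0, hC00, hPA⟩ := PA_lower n 2 (by omega)
    ((Nat.coprime_two_left).mpr hodd) δ hδ0 (by linarith)
  have hlogn : 0 ≤ Real.log n := Real.log_natCast_nonneg n
  have hnr : (3 : ℝ) ≤ n := by exact_mod_cast hn
  set C2 : ℝ := C0 + 2 * (Real.log n + n / δ) with hC2
  have hC20 : 0 < C2 := by positivity
  set c3 : ℝ := c / (300 * n) with hc3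
  have hc30 : 0 < c3 := by positivity
  refine ⟨C1 * (2 / c3) + C1 * (2 * C2 / c3), by positivity, ?_⟩
  intro l hl e he K _ _ hK α hα h0
  have he0 : e ≠ 0 := by
    rintro rfl
    exact he 2 Nat.prime_two (dvd_zero _)
  set D := (discr K).natAbs with hD
  have hD2 : 2 < D := by
    have := abs_discr_gt_two (K := K) (by rw [hK]; omega)
    rw [Int.abs_eq_natAbs] at this
    exact_mod_cast this
  have hDr : (3 : ℝ) ≤ D := by exact_mod_cast hD2
  have hDpos : (0 : ℝ) < D := by linarith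
  set T : ℝ := (Nat.card {c : ClassGroup (𝓞 K) // c ^ l = 1} : ℝ) with hT
  have hT0 : 0 ≤ T := by positivity
  have hlr : (1 : ℝ) ≤ l := by exact_mod_cast hl
  -- the root
  have hint : IsIntegral ℤ α := by
    refine IsIntegral.of_pow (show 0 < n by omega) ?_
    rw [h0]
    exact isIntegral_algebraMap
  set β : 𝓞 K := ⟨α, hint⟩ with hβ
  have hβn : β ^ n = (e : 𝓞 K) := by
    apply RingOfIntegers.ext
    push_cast
    exact h0
  have hβ0 : β ≠ 0 := by
    rintro h
    rw [h, zero_pow (by omega)] at hβn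
    exact he0 (by exact_mod_cast hβn.symm)
  have hnorm := norm_root hK hβn
  have hRdvd : ∀ x : 𝓞 K, (rad e : ℤ) ∣ Algebra.trace ℤ (𝓞 K) (β * x) := rad_dvd_trace hβn
  have hR0 : 0 < rad e := rad_pos e
  set R : ℝ := (rad e : ℝ) with hR
  have hRr : (1 : ℝ) ≤ R := by rw [hR]; exact_mod_cast hR0
  set E : ℝ := (e.natAbs : ℝ) with hE
  have hE1n : 1 ≤ e.natAbs := Nat.one_le_iff_ne_zero.mpr (Int.natAbs_ne_zero.mpr he0)
  have hE1 : (1 : ℝ) ≤ E := by rw [hE]; exact_mod_cast hE1n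
  have hER : e.natAbs ≤ rad e ^ (n - 1) := natAbs_le_rad (by omega) he0 he
  have hRD : rad e ≤ D := by
    have h1 := pow_dvd_discr hK hβ0 hR0.ne' hRdvd
    rw [hnorm] at h1
    have h2 : rad e ^ n ≤ e.natAbs * D := Nat.le_of_dvd (by positivity) h1
    have h3 : rad e ^ n ≤ rad e ^ (n - 1) * D := h2.trans (Nat.mul_le_mul_right _ hER)
    have h4 : rad e ^ n = rad e ^ (n - 1) * rad e := by
      rw [← pow_succ]; congr 1; omega
    rw [h4] at h3
    exact Nat.le_of_mul_le_mul_left h3 (by positivity)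
  have hRDr : R ≤ D := by rw [hR]; exact_mod_cast hRD
  have hED : E ≤ (D : ℝ) ^ (n - 1) := by
    have : e.natAbs ≤ D ^ (n - 1) := hER.trans (Nat.pow_le_pow_left hRD _)
    rw [hE]
    exact_mod_cast this
  set ρ : ℝ := R / E ^ (1 / (n : ℝ)) with hρ
  have hEn0 : 0 < E ^ (1 / (n : ℝ)) := Real.rpow_pos_of_pos (by linarith) _
  have hEnle : 1 ≤ E ^ (1 / (n : ℝ)) := Real.one_le_rpow hE1 (by positivity)
  have hρ1 : 1 ≤ ρ := by
    rw [hρ, le_div_iff₀ hEn0, one_mul]
    have h1 : E ≤ R ^ n := by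
      have h2 : e.natAbs ≤ rad e ^ n := hER.trans (Nat.pow_le_pow_right hR0 (by omega))
      rw [hE, hR]
      exact_mod_cast h2
    calc E ^ (1 / (n : ℝ)) ≤ (R ^ n) ^ (1 / (n : ℝ)) :=
          Real.rpow_le_rpow (by linarith) h1 (by positivity)
      _ = R := by
        rw [← Real.rpow_natCast, ← Real.rpow_mul (by linarith),
          mul_one_div_cancel (by linarith), Real.rpow_one]
  have hρD : ρ ≤ D := by
    rw [hρ, div_le_iff₀ hEn0]
    nlinarith
  set κ : ℝ := ρ ^ (1 / (l : ℝ)) with hκ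
  have hκ1 : 1 ≤ κ := Real.one_le_rpow hρ1 (by positivity)
  have hκD : κ ≤ D := by
    calc κ ≤ ρ ^ (1 : ℝ) := by
          apply Real.rpow_le_rpow_of_exponent_le hρ1
          rw [div_le_one (by linarith)]
          exact hlr
      _ = ρ := Real.rpow_one _
      _ ≤ D := hρD
  have hκl : κ ^ l = ρ := by
    rw [hκ, ← Real.rpow_natCast, ← Real.rpow_mul (by linarith),
      one_div_mul_cancel (by linarith), Real.rpow_one]
  set y : ℝ := κ / (300 * n) with hy
  have hy0 : 0 < y := by positivity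
  set N0 : ℕ := n * e.natAbs * D with hN0
  have hN00 : N0 ≠ 0 := by
    have : D ≠ 0 := by omega
    have : n ≠ 0 := by omega
    have : e.natAbs ≠ 0 := by omega
    positivity
  set G := (PA n 2 y).filter (fun p => ¬ p ∣ N0) with hG
  have hmain := hC1 l hl K hK β (rad e) hRdvd (E ^ (1 / (n : ℝ)))
    (fun w => (abs_root (by omega) hβn w).le) G (by
    intro p hp
    rw [hG, mem_filter, PA, mem_filter, mem_Icc] at hp
    obtain ⟨⟨⟨-, hpy⟩, hpp, hpc⟩, hpN⟩ := hp
    have hpn : ¬ p ∣ n := fun h => hpN (by rw [hN0, mul_assoc]; exact h.mul_right _)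
    have hpM : ¬ p ∣ e.natAbs := fun h => hpN (by rw [hN0]; exact (h.mul_left n).mul_right _)
    have hpD : ¬ p ∣ D := fun h => hpN (by rw [hN0]; exact h.mul_left _)
    refine ⟨hpp, hpD, by rw [hnorm]; exact hpM, ?_, ?_⟩
    · have h1 : (p : ℝ) ≤ y := (Nat.cast_le.mpr hpy).trans (Nat.floor_le hy0.le)
      have h2 : (150 * (p : ℝ)) ^ l ≤ (κ / (2 * n)) ^ l := by
        apply pow_le_pow_left₀ (by positivity)
        calc 150 * (p : ℝ) ≤ 150 * y := by linarith
          _ = κ / (2 * n) := by rw [hy]; field_simp; norm_num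
      have h3 : (κ / (2 * n)) ^ l ≤ ρ / (2 * n) := by
        rw [div_pow, hκl]
        apply div_le_div_of_nonneg_left (by linarith) (by positivity)
        exact le_self_pow₀ (by linarith) (by omega)
      calc n * (E ^ (1 / (n : ℝ)) * (150 * (p : ℝ)) ^ l)
          ≤ n * (E ^ (1 / (n : ℝ)) * (ρ / (2 * n))) := by
            have := h2.trans h3
            gcongr
        _ = R / 2 := by rw [hρ]; field_simp
        _ < R := by linarith
    · refine dickson_norm (n := n) (a := 0) (b := e) hn (Or.inl rfl) hK α hα ?_ hpp hpc hpn ?_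
      · have h1 := dickson_eval α (0 : K) n
        rw [mul_zero, add_zero, zero_pow (by omega), add_zero] at h1
        rw [Int.cast_zero, h1, h0]
      · simpa [Mab] using hpM)
  rw [← hT, ← hD] at hmain
  -- lower bound for the number of primes
  have hcard : ((PA n 2 y).card : ℝ) ≤ G.card + N0.primeFactors.card := by
    have h1 : PA n 2 y ⊆ G ∪ N0.primeFactors := by
      intro p hp
      rw [mem_union, hG, mem_filter]
      by_cases h : p ∣ N0
      · right
        rw [PA, mem_filter] at hp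
        exact Nat.mem_primeFactors.mpr ⟨hp.2.1, h, hN00⟩
      · left; exact ⟨hp, h⟩
    have h2 := (card_le_card h1).trans (card_union_le _ _)
    exact_mod_cast h2
  have hDδ : 1 ≤ (D : ℝ) ^ δ := Real.one_le_rpow (by linarith) hδ0.le
  have hDδ0 : 0 < (D : ℝ) ^ δ := by linarith
  have hlogD : Real.log D ≤ (D : ℝ) ^ δ / δ := Real.log_le_rpow_div hDpos.le hδ0
  have hlogN : Real.log (N0 : ℝ) ≤ Real.log n + n * Real.log D := by
    have hnpos : (0 : ℝ) < n := by linarith
    have hMpos : (0 : ℝ) < (e.natAbs : ℝ) := by linarith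
    rw [hN0]
    push_cast
    rw [Real.log_mul (by positivity) (by positivity), Real.log_mul (by positivity) (by positivity)]
    have h2 := Real.log_le_log hMpos hED
    rw [Real.log_pow, Nat.cast_sub (by omega)] at h2
    push_cast at h2
    linarith
  have hbad : C0 + (N0.primeFactors.card : ℝ) ≤ C2 * (D : ℝ) ^ δ := by
    have h1 := card_primeFactors_le N0 hN00
    have e1 : C0 ≤ C0 * (D : ℝ) ^ δ := le_mul_of_one_le_right hC00.le hDδ
    have e2 : Real.log n ≤ Real.log n * (D : ℝ) ^ δ := le_mul_of_one_le_right hlogn hDδ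
    have e4 : n * Real.log D ≤ n / δ * (D : ℝ) ^ δ := by
      calc n * Real.log D ≤ n * ((D : ℝ) ^ δ / δ) := by gcongr
        _ = n / δ * (D : ℝ) ^ δ := by ring
    calc C0 + (N0.primeFactors.card : ℝ)
        ≤ C0 + 2 * (Real.log n + n * Real.log D) := by linarith
      _ ≤ C0 * (D : ℝ) ^ δ + 2 * (Real.log n * (D : ℝ) ^ δ + n / δ * (D : ℝ) ^ δ) := by linarith
      _ = C2 * (D : ℝ) ^ δ := by rw [hC2]; ring
  set A : ℝ := κ * (D : ℝ) ^ (-δ) with hA
  have hA0 : 0 < A := by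
    have := Real.rpow_pos_of_pos hDpos (-δ)
    positivity
  have hypow : A / (300 * n) ≤ y ^ (1 - δ) := by
    rw [hy, Real.div_rpow (by linarith) (by positivity)]
    have h1 : (300 * n : ℝ) ^ (1 - δ) ≤ 300 * n := by
      calc (300 * n : ℝ) ^ (1 - δ) ≤ (300 * n) ^ (1 : ℝ) :=
            Real.rpow_le_rpow_of_exponent_le (by linarith) (by linarith)
        _ = 300 * n := Real.rpow_one _
    have h2 : A ≤ κ ^ (1 - δ) := by
      rw [hA, Real.rpow_sub (by linarith), Real.rpow_one, Real.rpow_neg hDpos.le, div_eq_mul_inv]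
      gcongr
    have h3 : (0 : ℝ) < (300 * n) ^ (1 - δ) := Real.rpow_pos_of_pos (by positivity) _
    gcongr
  have hg := hPA y hy0
  set g : ℝ := (G.card : ℝ) with hgdef
  have hg0 : 0 ≤ g := by positivity
  have hgA : c3 * A - C2 * (D : ℝ) ^ δ ≤ g := by
    have h1 : c * (A / (300 * n)) ≤ c * y ^ (1 - δ) := by gcongr
    have e : c3 * A = c * (A / (300 * n)) := by rw [hc3]; ring
    rw [e]
    linarith
  have hDe : ∀ u : ℝ, u ≤ 1 / 2 + ε → (D : ℝ) ^ u ≤ (D : ℝ) ^ (1 / 2 + ε) := fun u hu =>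
    Real.rpow_le_rpow_of_exponent_le (by linarith) hu
  set Z : ℝ := (D : ℝ) ^ (1 / 2 + ε) with hZ
  have hZ0 : 0 < Z := Real.rpow_pos_of_pos hDpos _
  have hκA : κ = A * (D : ℝ) ^ δ := by
    rw [hA, mul_assoc, ← Real.rpow_add hDpos, neg_add_cancel, Real.rpow_zero, mul_one]
  rcases le_or_gt (C2 * (D : ℝ) ^ δ) (c3 / 2 * A) with hcase | hcase
  · have h1 : c3 / 2 * A ≤ g + 1 := by
      have e : c3 * A = c3 / 2 * A + c3 / 2 * A := by ring
      rw [e] at hgA
      linarith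
    have h2 : T * (c3 / 2 * A) ≤ C1 * (D : ℝ) ^ (1 / 2 + δ) := by
      refine le_trans ?_ hmain
      exact mul_le_mul_of_nonneg_left h1 hT0
    calc T * κ = (T * (c3 / 2 * A)) * (2 / c3 * (D : ℝ) ^ δ) := by rw [hκA]; field_simp
      _ ≤ (C1 * (D : ℝ) ^ (1 / 2 + δ)) * (2 / c3 * (D : ℝ) ^ δ) := by gcongr
      _ = C1 * (2 / c3) * (D : ℝ) ^ (1 / 2 + δ + δ) := by
          rw [Real.rpow_add hDpos (1 / 2 + δ) δ]; ring
      _ ≤ C1 * (2 / c3) * Z := by
          have := hDe (1 / 2 + δ + δ) (by linarith)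
          gcongr
      _ ≤ _ := by
          have : 0 ≤ C1 * (2 * C2 / c3) * Z := by positivity
          rw [add_mul]
          linarith
  · have h1 : T ≤ C1 * (D : ℝ) ^ (1 / 2 + δ) := by
      refine le_trans ?_ hmain
      exact le_mul_of_one_le_right hT0 (by linarith)
    have h3 : κ ≤ 2 * C2 / c3 * ((D : ℝ) ^ δ * (D : ℝ) ^ δ) := by
      rw [hκA]
      calc A * (D : ℝ) ^ δ = 2 / c3 * (c3 / 2 * A) * (D : ℝ) ^ δ := by field_simp
        _ ≤ 2 / c3 * (C2 * (D : ℝ) ^ δ) * (D : ℝ) ^ δ := by gcongr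
        _ = _ := by ring
    calc T * κ ≤ (C1 * (D : ℝ) ^ (1 / 2 + δ)) * (2 * C2 / c3 * ((D : ℝ) ^ δ * (D : ℝ) ^ δ)) := by
          gcongr
      _ = C1 * (2 * C2 / c3) * (D : ℝ) ^ (1 / 2 + δ + δ + δ) := by
          rw [Real.rpow_add hDpos (1 / 2 + δ + δ) δ, Real.rpow_add hDpos (1 / 2 + δ) δ]; ring
      _ ≤ C1 * (2 * C2 / c3) * Z := by
          have := hDe (1 / 2 + δ + δ + δ) (by linarith)
          gcongr
      _ ≤ _ := by
          have : 0 ≤ C1 * (2 / c3) * Z := by positivity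
          rw [add_mul]
          linarith

end Pool.Agent.Y159.PT
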