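import Pool.Agent.Y159.PT.Lev2
import Pool.Agent.Y159.PT.Main

set_option autoImplicit false

/-! Moments of the torsion of the class groups of pure fields. -/

namespace Pool.Agent.Y159.PT

open NumberField Finset Pool.Agent.TH847.LG Pool.Agent.TH869.EVF
open scoped Classical nonZeroDivisors

/-- the discriminant of a pure field -/
theorem disc_le {n : ℕ} (hn : 3 ≤ n) {e N : ℕ} (he0 : e ≠ 0) (heN : e ≤ N)
    {K : Type} [Field K] [NumberField K] (hK : Module.finrank ℚ K = n) {α : K}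
    (hα : IntermediateField.adjoin ℚ {α} = ⊤) (h0 : α ^ n = (e : K)) :
    ((discr K).natAbs : ℝ) ≤ 2 ^ ((n : ℝ) * (n - 1)) * (N : ℝ) ^ ((n : ℝ) - 1) := by
  have hnr : (3 : ℝ) ≤ n := by exact_mod_cast hn
  have her : (1 : ℝ) ≤ e := by exact_mod_cast Nat.pos_of_ne_zero he0
  have heNr : (e : ℝ) ≤ N := by exact_mod_cast heN
  have h0' : α ^ n = ((e : ℤ) : K) := by rw [h0]; push_cast; rfl
  have hint : IsIntegral ℤ α := by
    refine IsIntegral.of_pow (show 0 < n by omega) ?_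
    rw [h0']
    exact isIntegral_algebraMap
  have hβn : (⟨α, hint⟩ : 𝓞 K) ^ n = ((e : ℤ) : 𝓞 K) := by
    apply RingOfIntegers.ext
    push_cast
    exact h0
  have hdisc := disc_bound hK ⟨α, hint⟩ hα
    (fun w => (abs_root (by omega) hβn w).le)
  have hDK : |(discr K : ℝ)| = ((discr K).natAbs : ℝ) := by
    rw [Nat.cast_natAbs]
    push_cast
    rfl
  rw [hDK, Int.natAbs_natCast] at hdisc
  have hn1 : ((n - 1 : ℕ) : ℝ) = (n : ℝ) - 1 := by
    rw [Nat.cast_sub (by omega)]; norm_num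
  have h4 : (2 * (e : ℝ) ^ (1 / (n : ℝ))) ^ (n * (n - 1)) =
      2 ^ ((n : ℝ) * ((n : ℝ) - 1)) * (e : ℝ) ^ ((n : ℝ) - 1) := by
    rw [mul_pow, ← Real.rpow_natCast ((e : ℝ) ^ (1 / (n : ℝ))),
      ← Real.rpow_mul (by linarith), ← Real.rpow_natCast 2]
    push_cast
    rw [hn1]
    congr 2
    field_simp
  rw [h4] at hdisc
  refine hdisc.trans ?_
  have : (e : ℝ) ^ ((n : ℝ) - 1) ≤ (N : ℝ) ^ ((n : ℝ) - 1) :=
    Real.rpow_le_rpow (by linarith) heNr (by linarith)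
  gcongr

/-- the pointwise bound, in a dyadic interval -/
theorem pointwise (n l : ℕ) (hn : 3 ≤ n) (hodd : Odd n) (hl : 1 ≤ l) (ε : ℝ) (hε : 0 < ε) :
    ∃ C : ℝ, 0 < C ∧ ∀ N e : ℕ, Squarefree e → N < 2 * e → e ≤ N →
    ∀ (K : Type) [Field K] [NumberField K], Module.finrank ℚ K = n → ∀ α : K,
    IntermediateField.adjoin ℚ {α} = ⊤ → α ^ n = (e : K) →
    (Nat.card {c : ClassGroup (𝓞 K) // c ^ l = 1} : ℝ) * (N : ℝ) ^ ((1 - 1 / (n : ℝ)) / l) ≤
      C * (N : ℝ) ^ (((n : ℝ) - 1) / 2 + ε) := by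
  have hnr : (3 : ℝ) ≤ n := by exact_mod_cast hn
  have hlr : (1 : ℝ) ≤ l := by exact_mod_cast hl
  set δ : ℝ := min ε 1 / (2 * n) with hδ
  have hmin0 : 0 < min ε 1 := lt_min hε one_pos
  have hδ0 : 0 < δ := by positivity
  have hδn : δ * (2 * n) = min ε 1 := by rw [hδ]; field_simp
  have hmin1 : min ε 1 ≤ ε := min_le_left _ _
  have hmin2 : min ε 1 ≤ 1 := min_le_right _ _
  have hδ1 : δ ≤ 1 / 2 := by nlinarith
  obtain ⟨C1, hC10, hC1⟩ := pure_torsion n hn hodd δ hδ0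
  refine ⟨2 * (C1 * 2 ^ ((n : ℝ) * (n - 1))), by positivity, ?_⟩
  intro N e hsq hNe heN K _ _ hK α hα h0
  have he0 : e ≠ 0 := hsq.ne_zero
  have her : (1 : ℝ) ≤ e := by exact_mod_cast Nat.pos_of_ne_zero he0
  have heNr : (e : ℝ) ≤ N := by exact_mod_cast heN
  have hN1 : (1 : ℝ) ≤ N := her.trans heNr
  have hN0 : (0 : ℝ) < N := by linarith
  have hNer : (N : ℝ) / 2 ≤ e := by
    have : (N : ℝ) ≤ 2 * e := by exact_mod_cast hNe.le
    linarith
  have hDle := disc_le hn he0 heN hK hα h0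
  have h1 := hC1 l hl (e : ℤ) (by
    intro p hp hd
    have h2 : p ^ 2 ∣ e := by
      have h3 : ((p ^ 2 : ℕ) : ℤ) ∣ (e : ℤ) := by
        push_cast
        exact (pow_dvd_pow _ (by omega)).trans hd
      exact_mod_cast h3
    rw [sq] at h2
    exact hp.one_lt.ne' (Nat.isUnit_iff.mp (hsq p h2))) K hK α hα (by rw [h0]; push_cast; rfl)
  set D := (discr K).natAbs with hD
  have hD0n : D ≠ 0 := Int.natAbs_ne_zero.mpr (discr_ne_zero K)
  have hD0 : (0 : ℝ) < D := by exact_mod_cast Nat.pos_of_ne_zero hD0n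
  set T : ℝ := (Nat.card {c : ClassGroup (𝓞 K) // c ^ l = 1} : ℝ) with hT
  have hT0 : 0 ≤ T := by positivity
  have hrad : rad (e : ℤ) = e := by
    rw [rad, Int.natAbs_natCast, Nat.prod_primeFactors_of_squarefree hsq]
  rw [hrad, Int.natAbs_natCast] at h1
  have h2 : (N : ℝ) ^ ((1 - 1 / (n : ℝ)) / l) ≤
      2 * ((e : ℝ) / (e : ℝ) ^ (1 / (n : ℝ))) ^ (1 / (l : ℝ)) := by
    have e1 : (e : ℝ) / (e : ℝ) ^ (1 / (n : ℝ)) = (e : ℝ) ^ (1 - 1 / (n : ℝ)) := by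
      rw [Real.rpow_sub (by linarith), Real.rpow_one]
    have h1n : 1 / (n : ℝ) ≤ 1 / 3 := by gcongr
    have h1n0 : 0 < 1 / (n : ℝ) := by positivity
    rw [e1, ← Real.rpow_mul (by linarith), mul_one_div]
    set θ : ℝ := (1 - 1 / (n : ℝ)) / l with hθ
    have hθ0 : 0 ≤ θ := by
      have : 0 < 1 - 1 / (n : ℝ) := by linarith
      positivity
    have hθ1 : θ ≤ 1 := by
      rw [hθ, div_le_one (by linarith)]
      linarith
    calc (N : ℝ) ^ θ ≤ (2 * e : ℝ) ^ θ := Real.rpow_le_rpow (by linarith) (by linarith) hθ0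
      _ = 2 ^ θ * (e : ℝ) ^ θ := Real.mul_rpow (by norm_num) (by linarith)
      _ ≤ 2 ^ (1 : ℝ) * (e : ℝ) ^ θ := by
          gcongr
          norm_num
      _ = 2 * (e : ℝ) ^ θ := by rw [Real.rpow_one]
  have h3 : (D : ℝ) ^ (1 / 2 + δ) ≤
      2 ^ ((n : ℝ) * (n - 1)) * (N : ℝ) ^ (((n : ℝ) - 1) / 2 + ε) := by
    calc (D : ℝ) ^ (1 / 2 + δ) ≤
          (2 ^ ((n : ℝ) * (n - 1)) * (N : ℝ) ^ ((n : ℝ) - 1)) ^ (1 / 2 + δ) :=
          Real.rpow_le_rpow hD0.le hDle (by linarith)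
      _ = (2 ^ ((n : ℝ) * (n - 1))) ^ (1 / 2 + δ) *
            (N : ℝ) ^ (((n : ℝ) - 1) * (1 / 2 + δ)) := by
          rw [Real.mul_rpow (by positivity) (by positivity), ← Real.rpow_mul hN0.le]
      _ ≤ (2 ^ ((n : ℝ) * (n - 1))) ^ (1 : ℝ) *
            (N : ℝ) ^ (((n : ℝ) - 1) / 2 + ε) := by
          have h3 : (1 : ℝ) ≤ 2 ^ ((n : ℝ) * (n - 1)) :=
            Real.one_le_rpow (by norm_num) (by nlinarith)
          gcongr
          · linarith
          · nlinarith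
      _ = _ := by rw [Real.rpow_one]
  calc T * (N : ℝ) ^ ((1 - 1 / (n : ℝ)) / l)
      ≤ T * (2 * ((e : ℝ) / (e : ℝ) ^ (1 / (n : ℝ))) ^ (1 / (l : ℝ))) := by gcongr
    _ = 2 * (T * ((e : ℝ) / (e : ℝ) ^ (1 / (n : ℝ))) ^ (1 / (l : ℝ))) := by ring
    _ ≤ 2 * (C1 * (D : ℝ) ^ (1 / 2 + δ)) := by gcongr
    _ ≤ 2 * (C1 * (2 ^ ((n : ℝ) * (n - 1)) * (N : ℝ) ^ (((n : ℝ) - 1) / 2 + ε))) := by gcongr
    _ = _ := by ring

/-- splitting a power according to levels -/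
theorem levels (J r : ℕ) (T : ℝ) (hT : 0 ≤ T) (A : ℕ → ℝ) (hA : ∀ j, 0 ≤ A j) (h0 : T ≤ A 0) :
    T ^ r ≤ A J ^ r + ∑ j ∈ range J, if A (j + 1) < T then A j ^ r else 0 := by
  induction J with
  | zero =>
    rw [Finset.sum_range_zero, add_zero]
    exact pow_le_pow_left₀ hT h0 r
  | succ J ih =>
    rw [Finset.sum_range_succ]
    by_cases h : A (J + 1) < T
    · rw [if_pos h]
      have := pow_nonneg (hA (J + 1)) r
      linarith
    · rw [if_neg h]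
      have h1 : T ^ r ≤ A (J + 1) ^ r := pow_le_pow_left₀ hT (not_lt.mp h) r
      have h2 : 0 ≤ ∑ j ∈ range J, if A (j + 1) < T then A j ^ r else 0 := by
        refine Finset.sum_nonneg fun j _ => ?_
        split_ifs
        · exact pow_nonneg (hA j) r
        · exact le_rfl
      linarith

end Pool.Agent.Y159.PT
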