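import Pool.Agent.Y159.PT.Crit
import Pool.Agent.Y159.PT.Pure

set_option autoImplicit false

/-! The congruence satisfied by a pure field with two small primes that are not separated. -/

namespace Pool.Agent.Y159.PT

open NumberField Finset Pool.Agent.TH847.LG
open scoped nonZeroDivisors

variable {K : Type} [Field K] [NumberField K]

theorem collision {n : ℕ} (hK : Module.finrank ℚ K = n) {l : ℕ} (hl : 1 ≤ l) {e : ℕ}
    (he : Squarefree e) {β : 𝓞 K} (hβ : β ^ n = ((e : ℤ) : 𝓞 K)) {P J Q : Ideal (𝓞 K)}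
    {p q : ℕ} (hp : p.Prime) (hq : q.Prime) (hpq : p ≠ q) (hP : Ideal.absNorm P = p)
    (hPJ : P * J = Ideal.span {((p : ℕ) : 𝓞 K)}) (hpD : ¬ p ∣ (discr K).natAbs)
    (hpe : ¬ p ∣ e) (hQ : Ideal.absNorm Q = q) {z : 𝓞 K}
    (hz : Ideal.span {z} = Q ^ l * J ^ l) {Y : ℝ}
    (hY : ∀ w : InfinitePlace K, w (z : K) ≤ Y) :
    ∃ s t : ℤ, ¬ (p : ℤ) ∣ s ∧ |(s : ℝ)| * e ≤ n * ((e : ℝ) ^ (1 / (n : ℝ)) * Y) ∧
      |(t : ℝ)| * e ≤ n * (((e : ℝ) ^ (1 / (n : ℝ))) ^ 2 * Y) ∧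
      ((p ^ l : ℕ) : ℤ) ∣ e * s ^ n - t ^ n := by
  have hn0 : 0 < n := by rw [← hK]; exact (Module.finrank_pos (R := ℚ) (M := K))
  have he0 : e ≠ 0 := he.ne_zero
  have hrad : rad (e : ℤ) = e := by
    rw [rad, Int.natAbs_natCast, Nat.prod_primeFactors_of_squarefree he]
  have hnorm : (Algebra.norm ℤ β).natAbs = e := by
    rw [norm_root hK hβ, Int.natAbs_natCast]
  have habs : ∀ w : InfinitePlace K, w (β : K) = (e : ℝ) ^ (1 / (n : ℝ)) := by
    intro w
    rw [abs_root hn0.ne' hβ w, Int.natAbs_natCast]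
  set B : ℝ := (e : ℝ) ^ (1 / (n : ℝ)) with hB
  have hPJ' : ¬ P ∣ J := fun h => hpD (dvd_discr_of_dvd hp hP hPJ h)
  have hkey := trace_key hl hp hq hpq hP hPJ hpD hQ (by rw [hnorm]; exact hpe) hz
  have h1 := rad_dvd_trace hβ z
  have h2 := rad_dvd_trace hβ (β * z)
  rw [hrad] at h1 h2
  obtain ⟨s, hs⟩ := h1
  obtain ⟨t, ht⟩ := h2
  have hps : ¬ (p : ℤ) ∣ s := by
    intro h
    apply hkey
    rw [hs]
    exact h.mul_left _
  have hzJ := mem_pow_of_span hz
  obtain ⟨b, hb⟩ := exists_int_sub_mem_pow hp hP hPJ hPJ' l β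
  have hcop : IsCoprime ((p ^ l : ℕ) : ℤ) (e : ℤ) := by
    rw [Nat.isCoprime_iff_coprime]
    exact Nat.Coprime.pow_left _ ((Nat.Prime.coprime_iff_not_dvd hp).mpr hpe)
  -- the first congruence
  have h3 : ((p ^ l : ℕ) : ℤ) ∣ t - b * s := by
    have h4 := dvd_trace_of_mem hPJ hb (show β * z ∈ J ^ l from (J ^ l).mul_mem_left _ hzJ)
    have h5 : Algebra.trace ℤ (𝓞 K) ((β - (b : 𝓞 K)) * (β * z)) = (e : ℤ) * (t - b * s) := by
      have e1 : (β - (b : 𝓞 K)) * (β * z) = β * (β * z) - b • (β * z) := by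
        rw [zsmul_eq_mul]; ring
      rw [e1, map_sub, map_smul, smul_eq_mul, hs, ht]
      ring
    rw [h5] at h4
    exact hcop.dvd_of_dvd_mul_left h4
  -- the second congruence
  have h6 : ((p ^ l : ℕ) : ℤ) ∣ e - b ^ n := by
    have h7 : (((e : ℤ) - b ^ n : ℤ) : 𝓞 K) ∈ P ^ l := by
      have e1 : (((e : ℤ) - b ^ n : ℤ) : 𝓞 K) = β ^ n - (b : 𝓞 K) ^ n := by
        rw [hβ]; push_cast; ring
      rw [e1]
      obtain ⟨c, hc⟩ := sub_dvd_pow_sub_pow β (b : 𝓞 K) n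
      rw [hc]
      exact (P ^ l).mul_mem_right _ hb
    have h4 := dvd_trace_of_mem hPJ h7 (show β * z ∈ J ^ l from (J ^ l).mul_mem_left _ hzJ)
    have h5 : Algebra.trace ℤ (𝓞 K) ((((e : ℤ) - b ^ n : ℤ) : 𝓞 K) * (β * z)) =
        ((e : ℤ) - b ^ n) * ((e : ℤ) * s) := by
      have e1 : (((e : ℤ) - b ^ n : ℤ) : 𝓞 K) * (β * z) = ((e : ℤ) - b ^ n) • (β * z) := by
        rw [zsmul_eq_mul]
      rw [e1, map_smul, smul_eq_mul, hs]
    rw [h5] at h4
    refine IsCoprime.dvd_of_dvd_mul_right ?_ h4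
    refine IsCoprime.mul_right hcop ?_
    push_cast
    refine IsCoprime.pow_left ?_
    exact (Int.prime_iff_natAbs_prime.mpr (by simpa using hp)).coprime_iff_not_dvd.mpr hps
  have h8 : ((p ^ l : ℕ) : ℤ) ∣ e * s ^ n - t ^ n := by
    have e1 : (e : ℤ) * s ^ n - t ^ n = (e - b ^ n) * s ^ n - (t ^ n - (b * s) ^ n) := by ring
    rw [e1]
    exact dvd_sub (h6.mul_right _) (h3.trans (sub_dvd_pow_sub_pow _ _ _))
  refine ⟨s, t, hps, ?_, ?_, h8⟩
  · have h9 : |((Algebra.trace ℤ (𝓞 K) (β * z) : ℤ) : ℝ)| ≤ n * (B * Y) := by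
      refine trace_le hK (β * z) ?_
      intro v
      have e1 : ((β * z : 𝓞 K) : K) = (β : K) * (z : K) := by push_cast; rfl
      rw [e1, map_mul, habs]
      exact mul_le_mul_of_nonneg_left (hY v) (by positivity)
    rw [hs] at h9
    push_cast at h9
    rw [abs_mul, Nat.abs_cast] at h9
    linarith
  · have h9 : |((Algebra.trace ℤ (𝓞 K) (β * (β * z)) : ℤ) : ℝ)| ≤ n * (B ^ 2 * Y) := by
      refine trace_le hK (β * (β * z)) ?_
      intro v
      have e1 : ((β * (β * z) : 𝓞 K) : K) = (β : K) * ((β : K) * (z : K)) := by push_cast; rfl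
      rw [e1, map_mul, map_mul, habs, ← mul_assoc, ← sq]
      exact mul_le_mul_of_nonneg_left (hY v) (by positivity)
    rw [ht] at h9
    push_cast at h9
    rw [abs_mul, Nat.abs_cast] at h9
    linarith

/-- few members of an interval lie in a given residue class -/
theorem card_residue {N m : ℕ} (A : Finset ℕ) (hA : ∀ x ∈ A, x ≤ N)
    (hc : ∀ x ∈ A, ∀ y ∈ A, (m : ℤ) ∣ (x : ℤ) - y) : A.card ≤ N / m + 1 := by
  have h1 : A.card ≤ (Finset.range (N / m + 1)).card := by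
    refine Finset.card_le_card_of_injOn (fun x => x / m) ?_ ?_
    · intro x hx
      rw [Finset.coe_range, Set.mem_Iio]
      have := Nat.div_le_div_right (c := m) (hA x hx)
      simp only
      omega
    · intro x hx y hy hxy
      simp only at hxy
      have h2 := hc x hx y hy
      have h3 : x % m = y % m := by
        have h4 : (x : ℤ) % m = (y : ℤ) % m := (Int.modEq_iff_dvd.mpr h2).symm
        exact_mod_cast h4
      rw [← Nat.div_add_mod x m, ← Nat.div_add_mod y m, hxy, h3]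
  rwa [Finset.card_range] at h1

end Pool.Agent.Y159.PT
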