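import Pool.Agent.Y159.PT.Coll

set_option autoImplicit false

/-! A non-separated small prime gives a small rational approximation of the root. -/

namespace Pool.Agent.Y159.PT

open NumberField Finset Pool.Agent.TH847.LG
open scoped nonZeroDivisors

variable {K : Type} [Field K] [NumberField K]

/-- the arithmetic of a sequence in geometric progression -/
theorem geom_seq {k : ℕ} (T : ℕ → ℤ) (h0 : T 0 ≠ 0)
    (h : ∀ j, j < k → T 0 * T (j + 1) = T 1 * T j) :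
    ∃ g u v : ℤ, T 0 = g * u ∧ T 1 = g * v ∧ |u| ^ k ≤ |T 0| ∧ |v| ^ k ≤ |T k| := by
  obtain ⟨g', u, v, hg, h1, hu, hv⟩ := Int.exists_gcd_one' (Int.gcd_pos_of_ne_zero_left (T 1) h0)
  have hcop : IsCoprime u v := Int.isCoprime_iff_gcd_eq_one.mpr h1
  have hgne : (g' : ℤ) ≠ 0 := by exact_mod_cast hg.ne'
  have hu0 : u ≠ 0 := by
    rintro rfl
    rw [zero_mul] at hu
    exact h0 hu
  have h2 : ∀ j, j < k → u * T (j + 1) = v * T j := by
    intro j hj
    have h3 := h j hj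
    rw [hu, hv] at h3
    have h4 : (g' : ℤ) * (u * T (j + 1)) = g' * (v * T j) := by linear_combination h3
    exact mul_left_cancel₀ hgne h4
  have h3 : ∀ j, j ≤ k → u ^ j * T j = v ^ j * T 0 := by
    intro j
    induction j with
    | zero => intro _; simp
    | succ j ih =>
      intro hj
      have h4 := ih (by omega)
      have h5 := h2 j (by omega)
      calc u ^ (j + 1) * T (j + 1) = u ^ j * (u * T (j + 1)) := by ring
        _ = u ^ j * (v * T j) := by rw [h5]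
        _ = v * (u ^ j * T j) := by ring
        _ = v * (v ^ j * T 0) := by rw [h4]
        _ = v ^ (j + 1) * T 0 := by ring
  have h4 := h3 k le_rfl
  have h5 : u ^ k ∣ T 0 := by
    have h6 : u ^ k ∣ v ^ k * T 0 := ⟨T k, h4.symm⟩
    exact (hcop.pow (m := k) (n := k)).dvd_of_dvd_mul_left h6
  obtain ⟨s, hs⟩ := h5
  have hs0 : s ≠ 0 := by
    rintro rfl
    rw [mul_zero] at hs
    exact h0 hs
  have h6 : T k = v ^ k * s := by
    rw [hs] at h4
    have h7 : u ^ k * T k = u ^ k * (v ^ k * s) := by rw [h4]; ring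
    exact mul_left_cancel₀ (pow_ne_zero k hu0) h7
  have hs1 : 1 ≤ |s| := Int.one_le_abs hs0
  refine ⟨g', u, v, by rw [hu, mul_comm], by rw [hv, mul_comm], ?_, ?_⟩
  · rw [hs, abs_mul, abs_pow]
    exact le_mul_of_one_le_right (by positivity) hs1
  · rw [h6, abs_mul, abs_pow]
    exact le_mul_of_one_le_right (by positivity) hs1

/-- two primes that are not separated give a small approximation to the root modulo a power -/
theorem collision_k {n k : ℕ} (hkn : k + 1 ≤ n) (hK : Module.finrank ℚ K = n) {l : ℕ} (hl : 1 ≤ l)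
    {e : ℕ} (he : Squarefree e) {β : 𝓞 K} (hβ : β ^ n = ((e : ℤ) : 𝓞 K)) {P J Q : Ideal (𝓞 K)}
    {p q : ℕ} (hp : p.Prime) (hq : q.Prime) (hpq : p ≠ q) (hP : Ideal.absNorm P = p)
    (hPJ : P * J = Ideal.span {((p : ℕ) : 𝓞 K)}) (hpD : ¬ p ∣ (discr K).natAbs)
    (hpe : ¬ p ∣ e) (hQ : Ideal.absNorm Q = q) {z : 𝓞 K}
    (hz : Ideal.span {z} = Q ^ l * J ^ l) {Y : ℝ} (hY0 : 0 ≤ Y)
    (hY : ∀ w : InfinitePlace K, w (z : K) ≤ Y)
    (hbig : 2 * (n : ℝ) ^ 2 * Y ^ 2 * ((e : ℝ) ^ (1 / (n : ℝ))) ^ (k + 2) <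
      (e : ℝ) ^ 2 * (p : ℝ) ^ l) :
    ∃ u v : ℤ, ¬ (p : ℤ) ∣ u ∧ |(u : ℝ)| ^ k * e ≤ n * ((e : ℝ) ^ (1 / (n : ℝ)) * Y) ∧
      |(v : ℝ)| ^ k * e ≤ n * (((e : ℝ) ^ (1 / (n : ℝ))) ^ (k + 1) * Y) ∧
      ((p ^ l : ℕ) : ℤ) ∣ e * u ^ n - v ^ n := by
  have hn0 : 0 < n := by omega
  have he0 : e ≠ 0 := he.ne_zero
  have her : (1 : ℝ) ≤ e := by exact_mod_cast Nat.pos_of_ne_zero he0
  have hrad : rad (e : ℤ) = e := by
    rw [rad, Int.natAbs_natCast, Nat.prod_primeFactors_of_squarefree he]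
  have hnorm : (Algebra.norm ℤ β).natAbs = e := by
    rw [norm_root hK hβ, Int.natAbs_natCast]
  have habs : ∀ w : InfinitePlace K, w (β : K) = (e : ℝ) ^ (1 / (n : ℝ)) := by
    intro w
    rw [abs_root hn0.ne' hβ w, Int.natAbs_natCast]
  set B : ℝ := (e : ℝ) ^ (1 / (n : ℝ)) with hB
  have hB1 : 1 ≤ B := Real.one_le_rpow her (by positivity)
  have hPJ' : ¬ P ∣ J := fun h => hpD (dvd_discr_of_dvd hp hP hPJ h)
  have hkey := trace_key hl hp hq hpq hP hPJ hpD hQ (by rw [hnorm]; exact hpe) hz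
  have h1 : ∀ j : ℕ, (e : ℤ) ∣ Algebra.trace ℤ (𝓞 K) (β ^ (j + 1) * z) := by
    intro j
    have h2 := rad_dvd_trace hβ (β ^ j * z)
    rw [hrad] at h2
    have e1 : β * (β ^ j * z) = β ^ (j + 1) * z := by ring
    rwa [e1] at h2
  choose T hT using h1
  have hps : ¬ (p : ℤ) ∣ T 0 := by
    intro h
    apply hkey
    have := hT 0
    rw [zero_add, pow_one] at this
    rw [this]
    exact h.mul_left _
  have hzJ := mem_pow_of_span hz
  obtain ⟨b, hb⟩ := exists_int_sub_mem_pow hp hP hPJ hPJ' l β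
  have hcop : IsCoprime ((p ^ l : ℕ) : ℤ) (e : ℤ) := by
    rw [Nat.isCoprime_iff_coprime]
    exact Nat.Coprime.pow_left _ ((Nat.Prime.coprime_iff_not_dvd hp).mpr hpe)
  have hpz : Prime (p : ℤ) := Int.prime_iff_natAbs_prime.mpr (by simpa using hp)
  -- the congruences
  have h3 : ∀ j, ((p ^ l : ℕ) : ℤ) ∣ T (j + 1) - b * T j := by
    intro j
    have h4 := dvd_trace_of_mem hPJ hb
      (show β ^ (j + 1) * z ∈ J ^ l from (J ^ l).mul_mem_left _ hzJ)
    have h5 : Algebra.trace ℤ (𝓞 K) ((β - (b : 𝓞 K)) * (β ^ (j + 1) * z)) =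
        (e : ℤ) * (T (j + 1) - b * T j) := by
      have e1 : (β - (b : 𝓞 K)) * (β ^ (j + 1) * z) =
          β ^ (j + 1 + 1) * z - b • (β ^ (j + 1) * z) := by
        rw [zsmul_eq_mul]; ring
      rw [e1, map_sub, map_smul, smul_eq_mul, hT (j + 1), hT j]
      ring
    rw [h5] at h4
    exact hcop.dvd_of_dvd_mul_left h4
  have h6 : ((p ^ l : ℕ) : ℤ) ∣ e - b ^ n := by
    have h7 : (((e : ℤ) - b ^ n : ℤ) : 𝓞 K) ∈ P ^ l := by
      have e1 : (((e : ℤ) - b ^ n : ℤ) : 𝓞 K) = β ^ n - (b : 𝓞 K) ^ n := by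
        rw [hβ]; push_cast; ring
      rw [e1]
      obtain ⟨c, hc⟩ := sub_dvd_pow_sub_pow β (b : 𝓞 K) n
      rw [hc]
      exact (P ^ l).mul_mem_right _ hb
    have h4 := dvd_trace_of_mem hPJ h7
      (show β ^ (0 + 1) * z ∈ J ^ l from (J ^ l).mul_mem_left _ hzJ)
    have h5 : Algebra.trace ℤ (𝓞 K) ((((e : ℤ) - b ^ n : ℤ) : 𝓞 K) * (β ^ (0 + 1) * z)) =
        ((e : ℤ) - b ^ n) * ((e : ℤ) * T 0) := by
      have e1 : (((e : ℤ) - b ^ n : ℤ) : 𝓞 K) * (β ^ (0 + 1) * z) =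
          ((e : ℤ) - b ^ n) • (β ^ (0 + 1) * z) := by
        rw [zsmul_eq_mul]
      rw [e1, map_smul, smul_eq_mul, hT 0]
    rw [h5] at h4
    refine IsCoprime.dvd_of_dvd_mul_right ?_ h4
    refine IsCoprime.mul_right hcop ?_
    push_cast
    exact IsCoprime.pow_left (hpz.coprime_iff_not_dvd.mpr hps)
  -- the sizes
  have hsize : ∀ j, |(T j : ℝ)| * e ≤ n * (B ^ (j + 1) * Y) := by
    intro j
    have h9 : |((Algebra.trace ℤ (𝓞 K) (β ^ (j + 1) * z) : ℤ) : ℝ)| ≤ n * (B ^ (j + 1) * Y) := by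
      refine trace_le hK (β ^ (j + 1) * z) ?_
      intro v
      have e1 : ((β ^ (j + 1) * z : 𝓞 K) : K) = (β : K) ^ (j + 1) * (z : K) := by
        push_cast; rfl
      rw [e1, map_mul, map_pow, habs]
      exact mul_le_mul_of_nonneg_left (hY v) (by positivity)
    rw [hT j] at h9
    push_cast at h9
    rw [abs_mul, Nat.abs_cast] at h9
    linarith
  -- the relations
  have hT00 : T 0 ≠ 0 := by
    intro h
    rw [h] at hps
    exact hps (dvd_zero _)
  have hrel : ∀ j, j < k → T 0 * T (j + 1) = T 1 * T j := by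
    intro j hj
    have h7 : ((p ^ l : ℕ) : ℤ) ∣ T 0 * T (j + 1) - T 1 * T j := by
      have e1 : T 0 * T (j + 1) - T 1 * T j =
          T 0 * (T (j + 1) - b * T j) - T j * (T 1 - b * T 0) := by ring
      rw [e1]
      exact dvd_sub ((h3 j).mul_left _) ((h3 0).mul_left _)
    have h8 : |((T 0 * T (j + 1) - T 1 * T j : ℤ) : ℝ)| < (p : ℝ) ^ l := by
      have a0 := hsize 0
      have a1 := hsize 1
      have aj := hsize j
      have aj1 := hsize (j + 1)
      have h9 : |((T 0 * T (j + 1) - T 1 * T j : ℤ) : ℝ)| * (e : ℝ) ^ 2 ≤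
          2 * (n : ℝ) ^ 2 * Y ^ 2 * B ^ (j + 3) := by
        push_cast
        have hn' : (0 : ℝ) ≤ n := by positivity
        have m1 : |(T 0 : ℝ)| * e * (|(T (j + 1) : ℝ)| * e) ≤
            n * (B ^ (0 + 1) * Y) * (n * (B ^ (j + 1 + 1) * Y)) :=
          mul_le_mul a0 aj1 (by positivity) (by positivity)
        have m2 : |(T 1 : ℝ)| * e * (|(T j : ℝ)| * e) ≤
            n * (B ^ (1 + 1) * Y) * (n * (B ^ (j + 1) * Y)) :=
          mul_le_mul a1 aj (by positivity) (by positivity)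
        calc |(T 0 : ℝ) * T (j + 1) - T 1 * T j| * (e : ℝ) ^ 2
            ≤ (|(T 0 : ℝ) * T (j + 1)| + |(T 1 : ℝ) * T j|) * (e : ℝ) ^ 2 := by
              gcongr
              exact abs_sub _ _
          _ = |(T 0 : ℝ)| * e * (|(T (j + 1) : ℝ)| * e) + |(T 1 : ℝ)| * e * (|(T j : ℝ)| * e) := by
              rw [abs_mul, abs_mul]; ring
          _ ≤ n * (B ^ (0 + 1) * Y) * (n * (B ^ (j + 1 + 1) * Y)) +
              n * (B ^ (1 + 1) * Y) * (n * (B ^ (j + 1) * Y)) := add_le_add m1 m2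
          _ = _ := by ring
      have h10 : 2 * (n : ℝ) ^ 2 * Y ^ 2 * B ^ (j + 3) ≤ 2 * (n : ℝ) ^ 2 * Y ^ 2 * B ^ (k + 2) := by
        have : B ^ (j + 3) ≤ B ^ (k + 2) := pow_le_pow_right₀ hB1 (by omega)
        gcongr
      have h11 : |((T 0 * T (j + 1) - T 1 * T j : ℤ) : ℝ)| * (e : ℝ) ^ 2 <
          (p : ℝ) ^ l * (e : ℝ) ^ 2 := by
        calc _ ≤ _ := h9
          _ ≤ _ := h10
          _ < _ := hbig
          _ = _ := by ring
      exact lt_of_mul_lt_mul_right h11 (by positivity)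
    have h12 : |T 0 * T (j + 1) - T 1 * T j| < ((p ^ l : ℕ) : ℤ) := by
      have h13 : ((|T 0 * T (j + 1) - T 1 * T j| : ℤ) : ℝ) < (((p ^ l : ℕ) : ℤ) : ℝ) := by
        rw [Int.cast_abs]
        push_cast
        push_cast at h8
        exact h8
      exact_mod_cast h13
    have h13 := Int.eq_zero_of_abs_lt_dvd h7 h12
    linarith
  obtain ⟨g, u, v, hu, hv, huk, hvk⟩ := geom_seq T hT00 hrel
  have hpg : ¬ (p : ℤ) ∣ g := fun h => hps (by rw [hu]; exact h.mul_right _)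
  have hpu : ¬ (p : ℤ) ∣ u := fun h => hps (by rw [hu]; exact h.mul_left _)
  have h14 : ((p ^ l : ℕ) : ℤ) ∣ v - b * u := by
    have h15 := h3 0
    rw [zero_add, hu, hv] at h15
    have e1 : g * v - b * (g * u) = g * (v - b * u) := by ring
    rw [e1] at h15
    refine IsCoprime.dvd_of_dvd_mul_left ?_ h15
    push_cast
    exact IsCoprime.pow_left (hpz.coprime_iff_not_dvd.mpr hpg)
  refine ⟨u, v, hpu, ?_, ?_, ?_⟩
  · have h15 : |(u : ℝ)| ^ k ≤ |(T 0 : ℝ)| := by exact_mod_cast huk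
    calc |(u : ℝ)| ^ k * e ≤ |(T 0 : ℝ)| * e := by gcongr
      _ ≤ n * (B ^ (0 + 1) * Y) := hsize 0
      _ = _ := by rw [zero_add, pow_one]
  · have h15 : |(v : ℝ)| ^ k ≤ |(T k : ℝ)| := by exact_mod_cast hvk
    calc |(v : ℝ)| ^ k * e ≤ |(T k : ℝ)| * e := by gcongr
      _ ≤ n * (B ^ (k + 1) * Y) := hsize k
  · have e1 : (e : ℤ) * u ^ n - v ^ n = (e - b ^ n) * u ^ n - (v ^ n - (b * u) ^ n) := by ring
    rw [e1]
    exact dvd_sub (h6.mul_right _) (h14.trans (sub_dvd_pow_sub_pow _ _ _))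

end Pool.Agent.Y159.PT
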