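import Pool.Agent.TH847.LG.EV

set_option autoImplicit false

/-! Traces of integers of a number field divisible by all but one prime above `p`. -/

namespace Pool.Agent.Y159.PT

open NumberField Finset
open scoped nonZeroDivisors

variable {K : Type} [Field K] [NumberField K]

/-- If `P J = (p)`, `N P = p` and `p` does not divide the discriminant, then some element of `J`
has trace prime to `p`. -/
theorem exists_trace_unit {P J : Ideal (𝓞 K)} {p : ℕ} (hp : p.Prime)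
    (hP : Ideal.absNorm P = p) (hPJ : P * J = Ideal.span {((p : ℕ) : 𝓞 K)})
    (hpD : ¬ p ∣ (discr K).natAbs) : ∃ y ∈ J, ¬ (p : ℤ) ∣ Algebra.trace ℤ (𝓞 K) y := by
  by_contra hcon
  push Not at hcon
  apply hpD
  have hP0 : P ≠ ⊥ := by
    rintro rfl
    rw [Ideal.absNorm_bot] at hP
    exact hp.ne_zero hP.symm
  have hle : differentIdeal ℤ (𝓞 K) ≤ P := by
    rw [differentialIdeal_le_iff (A := ℤ) (K := ℚ) (L := K) hP0]
    rintro _ ⟨x, hx, rfl⟩
    have hx' : x ∈ ((P : FractionalIdeal (𝓞 K)⁰ K))⁻¹ := hx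
    -- p x ∈ J
    have h1 : ((p : ℕ) : K) * x ∈ ((J : Ideal (𝓞 K)) : FractionalIdeal (𝓞 K)⁰ K) := by
      have h2 : ((J : Ideal (𝓞 K)) : FractionalIdeal (𝓞 K)⁰ K) =
          (P : FractionalIdeal (𝓞 K)⁰ K)⁻¹ *
            FractionalIdeal.spanSingleton (𝓞 K)⁰ ((p : ℕ) : K) := by
        have h3 : (P : FractionalIdeal (𝓞 K)⁰ K) * (J : FractionalIdeal (𝓞 K)⁰ K) =
            FractionalIdeal.spanSingleton (𝓞 K)⁰ ((p : ℕ) : K) := by
          rw [← FractionalIdeal.coeIdeal_mul, hPJ, FractionalIdeal.coeIdeal_span_singleton]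
          simp
        rw [← h3, ← mul_assoc, inv_mul_cancel₀ (by simpa using hP0), one_mul]
      rw [h2, mul_comm ((p : ℕ) : K) x]
      exact FractionalIdeal.mul_mem_mul hx' (FractionalIdeal.mem_spanSingleton_self _ _)
    rw [FractionalIdeal.mem_coeIdeal] at h1
    obtain ⟨y, hy, hyx⟩ := h1
    obtain ⟨t, ht⟩ := hcon y hy
    have h4 : Algebra.trace ℚ K x = ((t : ℤ) : ℚ) := by
      have h5 : Algebra.trace ℚ K (algebraMap (𝓞 K) K y) = ((Algebra.trace ℤ (𝓞 K) y : ℤ) : ℚ) := by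
        rw [Algebra.coe_trace_int]
      rw [hyx, ht] at h5
      have h6 : Algebra.trace ℚ K (((p : ℕ) : K) * x) = (p : ℚ) * Algebra.trace ℚ K x := by
        have : ((p : ℕ) : K) * x = (p : ℚ) • x := by
          rw [Algebra.smul_def]; simp
        rw [this, map_smul, smul_eq_mul]
      rw [h6] at h5
      push_cast at h5
      have hp0 : (p : ℚ) ≠ 0 := by exact_mod_cast hp.ne_zero
      exact mul_left_cancel₀ hp0 h5
    rw [Submodule.mem_one]
    exact ⟨t, by simpa using h4.symm⟩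
  have h3 := Ideal.absNorm_dvd_absNorm_of_le hle
  rwa [hP, absNorm_differentIdeal K] at h3


/-- every integer of `K` is congruent to a rational integer modulo `P ^ l` if `P` has degree one
and is unramified -/
theorem exists_int_sub_mem_pow {P J : Ideal (𝓞 K)} {p : ℕ} (hp : p.Prime)
    (hP : Ideal.absNorm P = p) (hPJ : P * J = Ideal.span {((p : ℕ) : 𝓞 K)})
    (hPJ' : ¬ P ∣ J) (l : ℕ) (x : 𝓞 K) : ∃ c : ℤ, x - (c : 𝓞 K) ∈ P ^ l := by
  have hPp : P.IsPrime := Ideal.isPrime_of_irreducible_absNorm (by rw [hP]; exact hp)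
  have hP0 : P ≠ ⊥ := by
    rintro rfl
    rw [Ideal.absNorm_bot] at hP
    exact hp.ne_zero hP.symm
  have hcard : Nat.card (𝓞 K ⧸ P ^ l) = p ^ l := by
    have h1 : Ideal.absNorm (P ^ l) = p ^ l := by rw [map_pow, hP]
    rw [Ideal.absNorm_apply, Submodule.cardQuot_apply] at h1
    exact h1
  have hpl : 0 < p ^ l := pow_pos hp.pos l
  have : Finite (𝓞 K ⧸ P ^ l) := Nat.finite_of_card_ne_zero (by rw [hcard]; omega)
  have : Fintype (𝓞 K ⧸ P ^ l) := Fintype.ofFinite _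
  obtain ⟨c, hc⟩ := CharP.exists (𝓞 K ⧸ P ^ l)
  have h0 : ((p ^ l : ℕ) : 𝓞 K ⧸ P ^ l) = 0 := by
    have h1 : ((p ^ l : ℕ) : 𝓞 K) ∈ P ^ l := by
      have h2 : Ideal.span {((p : ℕ) : 𝓞 K)} ^ l ≤ P ^ l := by
        rw [← hPJ, mul_pow]
        exact (Ideal.mul_le_left : P ^ l * J ^ l ≤ P ^ l)
      apply h2
      rw [Ideal.span_singleton_pow]
      have : ((p ^ l : ℕ) : 𝓞 K) = (p : 𝓞 K) ^ l := by push_cast; rfl
      rw [this]
      exact Ideal.mem_span_singleton_self _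
    have := Ideal.Quotient.eq_zero_iff_mem.mpr h1
    rwa [map_natCast] at this
  have hcd : c ∣ p ^ l := (CharP.cast_eq_zero_iff (𝓞 K ⧸ P ^ l) c (p ^ l)).mp h0
  obtain ⟨a, ha, hca⟩ := (Nat.dvd_prime_pow hp).mp hcd
  have hal : a = l := by
    by_contra hne
    have hlt : a < l := lt_of_le_of_ne ha hne
    have h1 : ((p ^ a : ℕ) : 𝓞 K ⧸ P ^ l) = 0 := by
      rw [← hca]; exact CharP.cast_eq_zero _ _
    rw [← map_natCast (Ideal.Quotient.mk (P ^ l)), Ideal.Quotient.eq_zero_iff_mem] at h1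
    have h2 : P ^ l ∣ P ^ a * J ^ a := by
      rw [← mul_pow, hPJ, Ideal.span_singleton_pow, Ideal.dvd_iff_le, Ideal.span_le,
        Set.singleton_subset_iff]
      push_cast at h1
      exact h1
    obtain ⟨m, rfl⟩ := Nat.exists_eq_add_of_lt hlt
    have h3 : P ^ a * P ^ (m + 1) ∣ P ^ a * J ^ a := by
      rw [← pow_add]
      convert h2 using 2; omega
    have hPa : P ^ a ≠ 0 := pow_ne_zero _ hP0
    have h4 : P ^ (m + 1) ∣ J ^ a := (mul_dvd_mul_iff_left hPa).mp h3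
    have h5 : P ∣ J ^ a := (dvd_pow_self P (by omega)).trans h4
    exact hPJ' ((Ideal.prime_of_isPrime hP0 hPp).dvd_of_dvd_pow h5)
  subst hal
  subst hca
  have hsurj := (ZMod.castHom_bijective (𝓞 K ⧸ P ^ a) (n := p ^ a)
    (by rw [← Nat.card_eq_fintype_card, hcard])).surjective
  obtain ⟨d, hd⟩ := hsurj (Ideal.Quotient.mk _ x)
  refine ⟨(d.val : ℤ), ?_⟩
  rw [← Ideal.Quotient.eq_zero_iff_mem, map_sub, ← hd]
  have : NeZero (p ^ a) := ⟨hpl.ne'⟩
  rw [sub_eq_zero, Int.cast_natCast, map_natCast]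
  conv_lhs => rw [← ZMod.natCast_zmod_val d]
  rw [map_natCast]


/-- the trace of an element that is nilpotent modulo a prime -/
theorem dvd_trace_of_pow {q : ℕ} (hq : q.Prime) {w : 𝓞 K} {m : ℕ}
    (h : ((q : ℕ) : 𝓞 K) ∣ w ^ m) : (q : ℤ) ∣ Algebra.trace ℤ (𝓞 K) w := by
  classical
  obtain ⟨t, ht⟩ := h
  have : Fact q.Prime := ⟨hq⟩
  let b := RingOfIntegers.basis K
  let M := Algebra.leftMulMatrix b w
  have h1 : Algebra.trace ℤ (𝓞 K) w = Matrix.trace M := Algebra.trace_eq_matrix_trace b w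
  have h2 : (M.map (Int.castRingHom (ZMod q))) ^ m = 0 := by
    rw [← Matrix.map_pow]
    have h3 : M ^ m = Algebra.leftMulMatrix b (w ^ m) := (map_pow _ _ _).symm
    have h4 : (((q : ℕ) : 𝓞 K) * t) = (q : ℤ) • t := by
      rw [zsmul_eq_mul]; push_cast; rfl
    rw [h3, ht, h4, map_smul]
    ext i j
    rw [Matrix.map_apply, Matrix.smul_apply, smul_eq_mul, map_mul]
    simp
  have h5 : IsNilpotent (M.map (Int.castRingHom (ZMod q))) := ⟨m, h2⟩
  have h6 := Matrix.isNilpotent_trace_of_isNilpotent h5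
  have h7 := h6.eq_zero
  have h8 : Matrix.trace (M.map (Int.castRingHom (ZMod q))) =
      ((Matrix.trace M : ℤ) : ZMod q) := by
    rw [Matrix.trace, Matrix.trace]
    push_cast
    rfl
  rw [h8] at h7
  rw [h1]
  exact (ZMod.intCast_zmod_eq_zero_iff_dvd _ _).mp h7

omit [NumberField K] in
/-- divisibility of the trace by an ideal product -/
theorem dvd_trace_of_mem {P J : Ideal (𝓞 K)} {p l : ℕ}
    (hPJ : P * J = Ideal.span {((p : ℕ) : 𝓞 K)}) {y z : 𝓞 K} (hy : y ∈ P ^ l) (hz : z ∈ J ^ l) :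
    (((p ^ l : ℕ)) : ℤ) ∣ Algebra.trace ℤ (𝓞 K) (y * z) := by
  have h1 : y * z ∈ Ideal.span {((p : ℕ) : 𝓞 K)} ^ l := by
    rw [← hPJ, mul_pow]
    exact Ideal.mul_mem_mul hy hz
  rw [Ideal.span_singleton_pow, Ideal.mem_span_singleton] at h1
  obtain ⟨t, ht⟩ := h1
  refine ⟨Algebra.trace ℤ (𝓞 K) t, ?_⟩
  have h2 : y * z = ((p ^ l : ℕ) : ℤ) • t := by
    rw [ht, zsmul_eq_mul]; push_cast; rfl
  rw [h2, map_smul, smul_eq_mul]

/-- the conjugates bound the trace -/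
theorem trace_le {n : ℕ} (hn : Module.finrank ℚ K = n) (w : 𝓞 K) {B : ℝ}
    (hB : ∀ v : InfinitePlace K, v (w : K) ≤ B) :
    |((Algebra.trace ℤ (𝓞 K) w : ℤ) : ℝ)| ≤ n * B := by
  have h1 : ((Algebra.trace ℤ (𝓞 K) w : ℤ) : ℂ) = ∑ σ : K →ₐ[ℚ] ℂ, σ (w : K) := by
    have h2 : ((Algebra.trace ℤ (𝓞 K) w : ℤ) : ℚ) = Algebra.trace ℚ K (w : K) := by
      rw [Algebra.coe_trace_int]
    have h3 := trace_eq_sum_embeddings (K := ℚ) (L := K) ℂ (x := (w : K))
    rw [← h3, ← h2]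
    simp
  have h4 : |((Algebra.trace ℤ (𝓞 K) w : ℤ) : ℝ)| = ‖((Algebra.trace ℤ (𝓞 K) w : ℤ) : ℂ)‖ := by
    rw [← Complex.ofReal_intCast, Complex.norm_real, Real.norm_eq_abs]
  rw [h4, h1]
  refine (norm_sum_le _ _).trans ?_
  have h5 : ∀ σ : K →ₐ[ℚ] ℂ, ‖σ (w : K)‖ ≤ B := by
    intro σ
    have := hB (InfinitePlace.mk (σ : K →+* ℂ))
    rwa [InfinitePlace.apply] at this
  refine (Finset.sum_le_sum fun σ _ => h5 σ).trans ?_
  rw [Finset.sum_const, Finset.card_univ, AlgHom.card, hn, nsmul_eq_mul]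


/-- the trace of an element of the cofactor that is prime to `P` -/
theorem trace_unit {P J : Ideal (𝓞 K)} {p : ℕ} (hp : p.Prime)
    (hP : Ideal.absNorm P = p) (hPJ : P * J = Ideal.span {((p : ℕ) : 𝓞 K)})
    (hPJ' : ¬ P ∣ J) (hpD : ¬ p ∣ (discr K).natAbs) {w : 𝓞 K} (hwJ : w ∈ J) (hwP : w ∉ P) :
    ¬ (p : ℤ) ∣ Algebra.trace ℤ (𝓞 K) w := by
  intro hdvd
  obtain ⟨y, hyJ, hy⟩ := exists_trace_unit hp hP hPJ hpD
  apply hy
  have hPp : P.IsPrime := Ideal.isPrime_of_irreducible_absNorm (by rw [hP]; exact hp)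
  have hP0 : P ≠ ⊥ := by
    rintro rfl
    rw [Ideal.absNorm_bot] at hP
    exact hp.ne_zero hP.symm
  have hPm : P.IsMaximal := hPp.isMaximal hP0
  -- an inverse of `w` modulo `P`
  obtain ⟨v, i, hi, hvi⟩ := hPm.exists_inv hwP
  have hv : v * w - 1 ∈ P := by
    have e : v * w - 1 = -i := by rw [← hvi]; ring
    rw [e]
    exact P.neg_mem hi
  obtain ⟨c, hc⟩ := exists_int_sub_mem_pow hp hP hPJ hPJ' 1 (y * v)
  rw [pow_one] at hc
  have h1 : y - (c : 𝓞 K) * w ∈ P := by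
    have e : y - (c : 𝓞 K) * w = (y * v - c) * w - y * (v * w - 1) := by ring
    rw [e]
    exact P.sub_mem (P.mul_mem_right _ hc) (P.mul_mem_left _ hv)
  have h2 : y - (c : 𝓞 K) * w ∈ J := J.sub_mem hyJ (J.mul_mem_left _ hwJ)
  have hcop : P ⊔ J = ⊤ := by
    refine hPm.out.2 _ (lt_of_le_of_ne le_sup_left ?_)
    intro h
    apply hPJ'
    rw [Ideal.dvd_iff_le]
    rw [h]
    exact le_sup_right
  have h3 : y - (c : 𝓞 K) * w ∈ P * J := by
    rw [Ideal.mul_eq_inf_of_coprime hcop]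
    exact ⟨h1, h2⟩
  rw [hPJ, Ideal.mem_span_singleton] at h3
  obtain ⟨t, ht⟩ := h3
  have h4 : y = (c : ℤ) • w + (p : ℤ) • t := by
    rw [zsmul_eq_mul, zsmul_eq_mul, Int.cast_natCast, ← ht]
    ring
  rw [h4, map_add, map_smul, map_smul, smul_eq_mul, smul_eq_mul]
  exact dvd_add (hdvd.mul_left _) (dvd_mul_right _ _)


end Pool.Agent.Y159.PT
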