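import Pool.Agent.Y159.PT.Ev
import Pool.Agent.Y159.PT.Tr

set_option autoImplicit false

/-! A small element of the inverse different bounds the torsion of the class group. -/

namespace Pool.Agent.Y159.PT

open NumberField Finset Pool.Agent.TH847.LG
open scoped nonZeroDivisors

variable {K : Type} [Field K] [NumberField K]

/-- an element generating `Q ^ l * J ^ l` lies in `J` and not in `P` -/
theorem not_mem_of_span {P J Q : Ideal (𝓞 K)} {p q l : ℕ} (hp : p.Prime) (hq : q.Prime)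
    (hpq : p ≠ q) (hP : Ideal.absNorm P = p) (hPJ' : ¬ P ∣ J)
    (hQ : Ideal.absNorm Q = q) {z : 𝓞 K}
    (hz : Ideal.span {z} = Q ^ l * J ^ l) : z ∉ P := by
  have hPp : P.IsPrime := Ideal.isPrime_of_irreducible_absNorm (by rw [hP]; exact hp)
  have hP0 : P ≠ ⊥ := by
    rintro rfl
    rw [Ideal.absNorm_bot] at hP
    exact hp.ne_zero hP.symm
  have hPr := Ideal.prime_of_isPrime hP0 hPp
  intro hzP
  have h1 : P ∣ Q ^ l * J ^ l := by
    rw [← hz, Ideal.dvd_iff_le, Ideal.span_le, Set.singleton_subset_iff]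
    exact hzP
  rcases hPr.dvd_or_dvd h1 with h | h
  · have h2 := hPr.dvd_of_dvd_pow h
    have h3 := Ideal.absNorm_dvd_absNorm_of_le (Ideal.le_of_dvd h2)
    rw [hP, hQ] at h3
    exact hpq ((Nat.prime_dvd_prime_iff_eq hp hq).mp h3)
  · exact hPJ' (hPr.dvd_of_dvd_pow h)

omit [NumberField K] in
theorem mem_pow_of_span {J Q : Ideal (𝓞 K)} {l : ℕ} {z : 𝓞 K}
    (hz : Ideal.span {z} = Q ^ l * J ^ l) : z ∈ J ^ l := by
  have h1 : Ideal.span {z} ≤ J ^ l := by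
    rw [hz]
    exact Ideal.mul_le_right
  exact h1 (Ideal.mem_span_singleton_self z)

theorem not_mem_of_norm {P : Ideal (𝓞 K)} {p : ℕ} (hP : Ideal.absNorm P = p) {β : 𝓞 K}
    (hpβ : ¬ p ∣ (Algebra.norm ℤ β).natAbs) : β ∉ P := by
  intro h
  apply hpβ
  have h1 : Ideal.span {β} ≤ P := by
    rw [Ideal.span_le, Set.singleton_subset_iff]; exact h
  have h3 := Ideal.absNorm_dvd_absNorm_of_le h1
  rwa [hP, Ideal.absNorm_span_singleton] at h3

/-- the key: `p` does not divide the trace of `β z` -/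
theorem trace_key {P J Q : Ideal (𝓞 K)} {p q l : ℕ} (hl : 1 ≤ l)
    (hp : p.Prime) (hq : q.Prime)
    (hpq : p ≠ q) (hP : Ideal.absNorm P = p) (hPJ : P * J = Ideal.span {((p : ℕ) : 𝓞 K)})
    (hpD : ¬ p ∣ (discr K).natAbs) (hQ : Ideal.absNorm Q = q) {β z : 𝓞 K}
    (hpβ : ¬ p ∣ (Algebra.norm ℤ β).natAbs)
    (hz : Ideal.span {z} = Q ^ l * J ^ l) : ¬ (p : ℤ) ∣ Algebra.trace ℤ (𝓞 K) (β * z) := by
  have hPJ' : ¬ P ∣ J := fun h => hpD (dvd_discr_of_dvd hp hP hPJ h)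
  have hPp : P.IsPrime := Ideal.isPrime_of_irreducible_absNorm (by rw [hP]; exact hp)
  refine trace_unit hp hP hPJ hPJ' hpD ?_ ?_
  · refine J.mul_mem_left _ (Ideal.pow_le_self (by omega) (mem_pow_of_span hz))
  · intro h
    rcases hPp.mem_or_mem h with h | h
    · exact not_mem_of_norm hP hpβ h
    · exact not_mem_of_span hp hq hpq hP hPJ' hQ hz h

/-- **Criterion.** -/
theorem crit (n : ℕ) (hn2 : 2 ≤ n) (ε : ℝ) (hε : 0 < ε) : ∃ C : ℝ, 0 < C ∧ ∀ l : ℕ, 1 ≤ l →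
    ∀ (K : Type) [Field K] [NumberField K], Module.finrank ℚ K = n →
    ∀ (β : 𝓞 K) (m : ℕ), (∀ x : 𝓞 K, (m : ℤ) ∣ Algebra.trace ℤ (𝓞 K) (β * x)) →
    ∀ B : ℝ, (∀ w : InfinitePlace K, w (β : K) ≤ B) → ∀ G : Finset ℕ,
    (∀ p ∈ G, p.Prime ∧ ¬ p ∣ (discr K).natAbs ∧ ¬ p ∣ (Algebra.norm ℤ β).natAbs ∧
      n * (B * (150 * (p : ℝ)) ^ l) < m ∧ ∃ P : Ideal (𝓞 K), Ideal.absNorm P = p) →
    (Nat.card {c : ClassGroup (𝓞 K) // c ^ l = 1} : ℝ) * ((G.card : ℝ) + 1) ≤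
      C * ((discr K).natAbs : ℝ) ^ (1 / 2 + ε) := by
  obtain ⟨C, hC0, hC⟩ := tor_sep n hn2 ε hε
  refine ⟨C, hC0, ?_⟩
  intro l hl K _ _ hn β m hm B hB G hG
  refine hC l hl K hn G (fun p hp => ⟨(hG p hp).1, (hG p hp).2.2.2.2⟩) ?_
  intro p hpG q hqG hpq P J Q R hP hPJ hQ hQR z hz0 hz hw
  obtain ⟨hp, hpD, hpβ, hpm, -⟩ := hG p hpG
  obtain ⟨hq, hqD, hqβ, hqm, -⟩ := hG q hqG
  have hkey := trace_key hl hp hq hpq hP hPJ hpD hQ hpβ hz
  set t := Algebra.trace ℤ (𝓞 K) (β * z) with ht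
  have ht0 : t ≠ 0 := by
    intro h
    rw [h] at hkey
    exact hkey (dvd_zero _)
  have h1 : (m : ℤ) ≤ |t| := Int.le_of_dvd (abs_pos.mpr ht0) ((dvd_abs _ _).mpr (hm z))
  have h2 : |((t : ℤ) : ℝ)| ≤ n * (B * (150 * ((max p q : ℕ) : ℝ)) ^ l) := by
    refine trace_le hn (β * z) ?_
    intro v
    have e : ((β * z : 𝓞 K) : K) = (β : K) * (z : K) := by push_cast; rfl
    rw [e, map_mul]
    exact mul_le_mul (hB v) (hw v) (apply_nonneg _ _) ((apply_nonneg _ _).trans (hB v))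
  have h3 : n * (B * (150 * ((max p q : ℕ) : ℝ)) ^ l) < m := by
    rcases max_choice p q with h | h
    · rw [h]; exact hpm
    · rw [h]; exact hqm
  have h4 : (m : ℝ) ≤ |((t : ℤ) : ℝ)| := by
    rw [← Int.cast_abs]
    exact_mod_cast h1
  linarith

end Pool.Agent.Y159.PT
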