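import Pool.Agent.TH847.LG.Fin
import Pool.Agent.TH869.EVF.Tor

/-! A small-prime inequality for torsion in class groups, with an abstract separation
hypothesis. -/

set_option autoImplicit false

namespace Pool.Agent.Y159.PT

open NumberField Finset Pool.Agent.TH847.LS Pool.Agent.TH847.LG NumberField.InfinitePlace
  IntermediateField
open scoped Classical nonZeroDivisors

variable {K : Type} [Field K] [NumberField K]

/-- the small-prime inequality, with an abstract separation hypothesis -/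
theorem ev_sep {n : ℕ} (hn : Module.finrank ℚ K = n) {l : ℕ} (hl : 1 ≤ l) (N : ℕ)
    (hN : 2 ^ n * √|(discr K : ℝ)| < N) (G : Finset ℕ)
    (P J : {p // p ∈ G} → (Ideal (𝓞 K))⁰)
    (hG : ∀ p : {p // p ∈ G}, p.1.Prime ∧
      (P p : Ideal (𝓞 K)) * (J p : Ideal (𝓞 K)) = Ideal.span {((p.1 : ℕ) : 𝓞 K)} ∧
      Ideal.absNorm (P p : Ideal (𝓞 K)) = p.1 ∧
      Ideal.absNorm (J p : Ideal (𝓞 K)) = p.1 ^ (n - 1))
    (hsep : ∀ p q : {p // p ∈ G}, p ≠ q → ∀ z : 𝓞 K, z ≠ 0 →
      Ideal.span {z} = (P q : Ideal (𝓞 K)) ^ l * (J p : Ideal (𝓞 K)) ^ l →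
      (∀ w : InfinitePlace K, w (z : K) ≤ (150 * ((max p.1 q.1 : ℕ) : ℝ)) ^ l) → False) :
    (G.card : ℝ) * (Nat.card {c : ClassGroup (𝓞 K) // c ^ l = 1} : ℝ) ≤
      ∑ J ∈ FI K N, (1 + Real.log ((N : ℝ) / Ideal.absNorm J)) ^ n := by
  have hn0 : 0 < n := by rw [← hn]; exact (Module.finrank_pos (R := ℚ) (M := K))
  have hnr : (0 : ℝ) < n := by exact_mod_cast hn0
  have hlr : (1 : ℝ) ≤ l := by exact_mod_cast hl
  have hA : ∀ c : {c : ClassGroup (𝓞 K) // c ^ l = 1}, ∃ (A : (Ideal (𝓞 K))⁰)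
      (γ : 𝓞 K), ClassGroup.mk0 A = c.1 ∧
      (A : Ideal (𝓞 K)) ^ l = Ideal.span {γ} ∧ γ ≠ 0 ∧
      ∀ w : InfinitePlace K, |Lw w (γ : K)| ≤ 2 * l :=
    fun c => exists_rep hl c.1 c.2
  choose A γ hA1 hA2 hA3 hA4 using hA
  have key := pack hn N hN ({p // p ∈ G} × {c : ClassGroup (𝓞 K) // c ^ l = 1})
    (fun i => A i.2 * P i.1) (by
      rintro ⟨p, c⟩ ⟨q, c'⟩ a b ha hb hab hw
      simp only [Submonoid.coe_mul] at hab
      have haK : (a : K) ≠ 0 := by exact_mod_cast ha
      have hbK : (b : K) ≠ 0 := by exact_mod_cast hb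
      have hγK : (γ c : K) ≠ 0 := by exact_mod_cast hA3 c
      have hγK' : (γ c' : K) ≠ 0 := by exact_mod_cast hA3 c'
      have hpK : ((p.1 : ℕ) : K) ≠ 0 := by exact_mod_cast (hG p).1.ne_zero
      have hpq : p = q := by
        by_contra hne
        -- the l-th power
        have e1 : Ideal.span {a ^ l * γ c'} * ((P q : Ideal (𝓞 K)) ^ l * (J p : Ideal (𝓞 K)) ^ l) =
            Ideal.span {b ^ l * γ c * (p.1 : 𝓞 K) ^ l} := by
          have e2 := congrArg (fun I => I ^ l * (J p : Ideal (𝓞 K)) ^ l) hab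
          simp only [mul_pow, Ideal.span_singleton_pow, hA2] at e2
          rw [← Ideal.span_singleton_mul_span_singleton, ← Ideal.span_singleton_mul_span_singleton,
            ← Ideal.span_singleton_mul_span_singleton, ← Ideal.span_singleton_pow (p.1 : 𝓞 K),
            ← (hG p).2.1, mul_pow]
          calc _ = Ideal.span {a ^ l} * (Ideal.span {γ c'} * (P q : Ideal (𝓞 K)) ^ l) *
                (J p : Ideal (𝓞 K)) ^ l := by ring
            _ = Ideal.span {b ^ l} * (Ideal.span {γ c} * (P p : Ideal (𝓞 K)) ^ l) *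
                (J p : Ideal (𝓞 K)) ^ l := e2
            _ = _ := by ring
        have hden : a ^ l * γ c' ≠ 0 := mul_ne_zero (pow_ne_zero _ ha) (hA3 c')
        have hdvd : a ^ l * γ c' ∣ b ^ l * γ c * (p.1 : 𝓞 K) ^ l := by
          rw [← Ideal.span_singleton_le_span_singleton, ← e1]
          exact Ideal.mul_le_left
        obtain ⟨z, hz⟩ := hdvd
        have hzspan : Ideal.span {z} = (P q : Ideal (𝓞 K)) ^ l * (J p : Ideal (𝓞 K)) ^ l := by
          rw [hz, ← Ideal.span_singleton_mul_span_singleton (a ^ l * γ c')] at e1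
          have hne0 : Ideal.span {a ^ l * γ c'} ≠ (0 : Ideal (𝓞 K)) := by
            rw [Ne, Ideal.zero_eq_bot, Ideal.span_singleton_eq_bot]
            exact hden
          exact (mul_left_cancel₀ hne0 e1).symm
        have hz0 : z ≠ 0 := by
          rintro rfl
          rw [mul_zero] at hz
          have : (b ^ l * γ c * (p.1 : 𝓞 K) ^ l) ≠ 0 := by
            refine mul_ne_zero (mul_ne_zero (pow_ne_zero _ hb) (hA3 c)) (pow_ne_zero _ ?_)
            exact_mod_cast (hG p).1.ne_zero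
          exact this hz
        have hzK : (z : K) ≠ 0 := by exact_mod_cast hz0
        -- the norm of z
        have hnz : (Algebra.norm ℤ z).natAbs = (q.1 * p.1 ^ (n - 1)) ^ l := by
          rw [← Ideal.absNorm_span_singleton, hzspan, map_mul, map_pow, map_pow,
            (hG q).2.2.1, (hG p).2.2.2, mul_pow]
        have hnz' : |((Algebra.norm ℚ (z : K) : ℚ) : ℝ)| = (((q.1 * p.1 ^ (n - 1)) ^ l : ℕ) : ℝ) := by
          rw [← Algebra.coe_norm_int, ← hnz, Nat.cast_natAbs]
          push_cast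
          rfl
        set y := max p.1 q.1 with hy
        have hy0 : 0 < y := lt_of_lt_of_le (hG p).1.pos (le_max_left _ _)
        have hyr : (0 : ℝ) < y := by exact_mod_cast hy0
        have hnle : (q.1 * p.1 ^ (n - 1)) ^ l ≤ (y ^ l) ^ n := by
          have h1 : q.1 * p.1 ^ (n - 1) ≤ y ^ n := by
            calc q.1 * p.1 ^ (n - 1) ≤ y * y ^ (n - 1) := by
                  gcongr
                  · exact le_max_right _ _
                  · exact le_max_left _ _
              _ = y ^ n := by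
                  rw [← pow_succ']
                  congr 1
                  omega
          calc (q.1 * p.1 ^ (n - 1)) ^ l ≤ (y ^ n) ^ l := by gcongr
            _ = (y ^ l) ^ n := by rw [← pow_mul, ← pow_mul, mul_comm]
        -- the size of z at the places
        have hLz : ∀ w : InfinitePlace K, Lw w (z : K) ≤ 5 * l := by
          intro w
          have h1 : Lw w ((a ^ l * γ c' * z : 𝓞 K) : K) =
              Lw w ((b ^ l * γ c * (p.1 : 𝓞 K) ^ l : 𝓞 K) : K) := by rw [hz]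
          push_cast at h1
          rw [Lw_mul w (mul_ne_zero (pow_ne_zero _ haK) hγK') hzK,
            Lw_mul w (pow_ne_zero _ haK) hγK', Lw_mul w (mul_ne_zero (pow_ne_zero _ hbK) hγK)
              (pow_ne_zero _ hpK), Lw_mul w (pow_ne_zero _ hbK) hγK, Lw_pow, Lw_pow, Lw_pow,
            Lw_natCast, mul_zero, add_zero] at h1
          have h2 := abs_lt.mp (hw w)
          have h3 := abs_le.mp (hA4 c w)
          have h4 := abs_le.mp (hA4 c' w)
          have h5 : (l : ℝ) * (Lw w (b : K) - Lw w (a : K)) ≤ l * 1 :=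
            mul_le_mul_of_nonneg_left (by linarith) (by linarith)
          nlinarith
        have hwz : ∀ w : InfinitePlace K, w (z : K) ≤ (150 * y : ℝ) ^ l := by
          intro w
          have h1 := hLz w
          unfold Lw at h1
          rw [hnz', hn] at h1
          have hpos : (0 : ℝ) < (((q.1 * p.1 ^ (n - 1)) ^ l : ℕ) : ℝ) := by
            have := mul_pos (hG q).1.pos (pow_pos (hG p).1.pos (n - 1))
            exact_mod_cast pow_pos this l
          have h2 : Real.log (((q.1 * p.1 ^ (n - 1)) ^ l : ℕ) : ℝ) ≤ n * (l * Real.log y) := by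
            have : (((q.1 * p.1 ^ (n - 1)) ^ l : ℕ) : ℝ) ≤ ((y : ℝ) ^ l) ^ n := by
              exact_mod_cast hnle
            have h3 := Real.log_le_log hpos this
            rw [Real.log_pow, Real.log_pow] at h3
            exact h3
          have h3 : Real.log (((q.1 * p.1 ^ (n - 1)) ^ l : ℕ) : ℝ) / n ≤ l * Real.log y := by
            rw [div_le_iff₀ hnr]
            linarith
          have h4 : Real.log (w (z : K)) ≤ Real.log ((150 * y : ℝ) ^ l) := by
            rw [Real.log_pow, Real.log_mul (by norm_num) hyr.ne']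
            have h5 : (5 : ℝ) ≤ Real.log 150 := by
              rw [Real.le_log_iff_exp_le (by norm_num)]
              have h6 : Real.exp 1 < 2.7182818286 := Real.exp_one_lt_d9
              have h7 : Real.exp 5 = Real.exp 1 ^ 5 := by
                rw [← Real.exp_nat_mul]; norm_num
              rw [h7]
              have h8 : Real.exp 1 ^ 5 ≤ (2.7182818286 : ℝ) ^ 5 := by
                gcongr
              refine h8.trans ?_
              norm_num
            nlinarith
          exact (Real.log_le_log_iff (w_pos w hzK) (by positivity)).mp h4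
        exact hsep p q hne z hz0 hzspan hwz
      subst hpq
      have hc : c = c' := by
        have hP0 : (P p : Ideal (𝓞 K)) ≠ 0 := nonZeroDivisors.coe_ne_zero _
        have e1 : Ideal.span {a} * (A c' : Ideal (𝓞 K)) =
            Ideal.span {b} * (A c : Ideal (𝓞 K)) := by
          rw [← mul_assoc, ← mul_assoc] at hab
          exact mul_right_cancel₀ hP0 hab
        have e2 : ClassGroup.mk0 (A c') = ClassGroup.mk0 (A c) := by
          rw [ClassGroup.mk0_eq_mk0_iff]
          exact ⟨a, b, ha, hb, e1⟩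
        rw [hA1, hA1] at e2
        exact Subtype.ext e2.symm
      rw [hc])
  rw [Fintype.card_prod, Fintype.card_coe] at key
  rw [Nat.card_eq_fintype_card]
  push_cast at key
  exact key


/-- the weighted number of ideals of norm at most about the square root of the discriminant -/
theorem W_bound (n : ℕ) (hn2 : 2 ≤ n) (ε : ℝ) (hε : 0 < ε) : ∃ C : ℝ, 0 < C ∧
    ∀ (K : Type) [Field K] [NumberField K], Module.finrank ℚ K = n → ∃ N : ℕ,
    2 ^ n * √|(discr K : ℝ)| < N ∧
    ∑ J ∈ FI K N, (1 + Real.log ((N : ℝ) / Ideal.absNorm J)) ^ n ≤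
      C * ((discr K).natAbs : ℝ) ^ (1 / 2 + ε) := by
  obtain ⟨C, hC0, hC⟩ := EE_bound n hn2
  obtain ⟨C1, hC10, hC1⟩ := dyadic
  set c1 : ℝ := (2 * (n / ε)) ^ n with hc1
  have hc10 : 0 < c1 := by
    have : (0 : ℝ) < n := by exact_mod_cast (by omega : 0 < n)
    positivity
  refine ⟨2 * ((2 * n : ℝ) ^ n * (C1 * ((2 + 6 * n) * Real.exp (3 * n)) * 2 ^ (n + 1) * C)) * c1,
    by positivity, ?_⟩
  intro K _ _ hn
  set D := (discr K).natAbs with hD
  have hDK : |(discr K : ℝ)| = (D : ℝ) := by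
    rw [hD, Nat.cast_natAbs]
    push_cast
    rfl
  have hD2 : 2 < D := by
    have := abs_discr_gt_two (K := K) (by rw [hn]; omega)
    rw [Int.abs_eq_natAbs] at this
    exact_mod_cast this
  have hDr : (2 : ℝ) < D := by exact_mod_cast hD2
  have hs1 : 1 ≤ √(D : ℝ) := by
    rw [Real.one_le_sqrt]; linarith
  set X : ℝ := 2 ^ n * √(D : ℝ) with hX
  have hX1 : 1 ≤ X := by
    have : (1 : ℝ) ≤ 2 ^ n := one_le_pow₀ (by norm_num)
    nlinarith
  set N := ⌊X⌋₊ + 1 with hN
  have hN1 : X < N := by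
    rw [hN]; push_cast; exact Nat.lt_floor_add_one _
  have hN2 : (N : ℝ) ≤ 2 ^ (n + 1) * √(D : ℝ) := by
    rw [hN]; push_cast
    have := Nat.floor_le (show 0 ≤ X by linarith)
    rw [pow_succ]
    nlinarith
  have hN3 : 1 < N := by
    have : 1 ≤ ⌊X⌋₊ := Nat.le_floor (by exact_mod_cast hX1)
    omega
  have hlD : 0 < Real.log D := Real.log_pos (by linarith)
  have hNr : (0 : ℝ) < N := by exact_mod_cast (by omega : 0 < N)
  have hlN : Real.log N ≤ (n + 2) * Real.log D := by
    have h1 := Real.log_le_log hNr hN2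
    rw [Real.log_mul (by positivity) (by positivity), Real.log_pow,
      Real.log_sqrt (by linarith)] at h1
    have h2 : Real.log 2 ≤ Real.log D := Real.log_le_log (by norm_num) (by linarith)
    push_cast at h1
    have h3 : (0 : ℝ) ≤ n := by positivity
    nlinarith
  have hlN2 : Real.log D ≤ 2 * (1 + Real.log N) := by
    have h1 : √(D : ℝ) ≤ N := by
      have : (1 : ℝ) ≤ 2 ^ n := one_le_pow₀ (by norm_num)
      nlinarith
    have h2 := Real.log_le_log (by positivity) h1
    rw [Real.log_sqrt (by linarith)] at h2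
    linarith
  have hXN : 2 ^ n * √|(discr K : ℝ)| < N := by rw [hDK]; exact hN1
  set W := ∑ J ∈ FI K N, (1 + Real.log ((N : ℝ) / Ideal.absNorm J)) ^ n with hW
  set G := GG K n 1 D ∅ with hG
  set k := G.card with hk
  -- the weighted sum
  have hn1 : 1 ≤ n := by omega
  have hW1 : W ≤ (2 * n : ℝ) ^ n * ∑ J ∈ FI K N, √((N : ℝ) / Ideal.absNorm J) := by
    rw [hW, Finset.mul_sum]
    refine Finset.sum_le_sum fun J hJ => ?_
    rw [mem_FI] at hJ
    have h4 : (0 : ℝ) < Ideal.absNorm J := by exact_mod_cast absNorm_pos hJ.2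
    refine log_pow_le hn1 ?_
    rw [le_div_iff₀ h4, one_mul]
    exact_mod_cast hJ.1
  have hE := hC 1 le_rfl K D N ∅ (by simp) (by omega) hN3 hlN
  rw [← hG, ← hk] at hE
  have hdy := hC1 K n hn N (by omega)
  have hEpos := EE_pos (K := K) n N
  have hk0 : (0 : ℝ) ≤ k := by positivity
  have hb0 : (0 : ℝ) ≤ (∅ : Finset ℕ).card := by positivity
  have hlk : 0 < Real.log ((k : ℝ) + 2) := Real.log_pos (by linarith)
  have hlb : 0 < Real.log (((∅ : Finset ℕ).card : ℝ) + 2) := Real.log_pos (by linarith)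
  set L := (Real.log ((k : ℝ) + 2)) ^ n * (Real.log (((∅ : Finset ℕ).card : ℝ) + 2)) ^ n with hL
  have hL0 : 0 < L := by positivity
  have hln : (0 : ℝ) ≤ ((1 : ℕ) : ℝ) ^ n := by positivity
  have hlN0 : 0 ≤ Real.log N := Real.log_nonneg (by exact_mod_cast hN3.le)
  have hW0 : 0 ≤ ∑ J ∈ FI K N, √((N : ℝ) / Ideal.absNorm J) :=
    Finset.sum_nonneg fun _ _ => Real.sqrt_nonneg _
  have hWb : W * Real.log D ≤
      2 * ((2 * n : ℝ) ^ n * (C1 * ((2 + 6 * n) * Real.exp (3 * n)) * 2 ^ (n + 1) * C)) *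
        ((1 : ℕ) : ℝ) ^ n * L * √(D : ℝ) := by
    calc W * Real.log D
        ≤ ((2 * n : ℝ) ^ n * ∑ J ∈ FI K N, √((N : ℝ) / Ideal.absNorm J)) *
            (2 * (1 + Real.log N)) := by gcongr
      _ = 2 * (2 * n : ℝ) ^ n * ((∑ J ∈ FI K N, √((N : ℝ) / Ideal.absNorm J)) *
            (1 + Real.log N)) := by ring
      _ ≤ 2 * (2 * n : ℝ) ^ n * (C1 * ((2 + 6 * n) * Real.exp (3 * n)) * N * EE K n N) := by
          gcongr
      _ ≤ 2 * (2 * n : ℝ) ^ n * (C1 * ((2 + 6 * n) * Real.exp (3 * n)) *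
            (2 ^ (n + 1) * √(D : ℝ)) * (C * ((1 : ℕ) : ℝ) ^ n * (Real.log ((k : ℝ) + 2)) ^ n *
              (Real.log (((∅ : Finset ℕ).card : ℝ) + 2)) ^ n)) := by gcongr
      _ = _ := by rw [hL]; ring
  have hDr3 : (3 : ℝ) ≤ D := by exact_mod_cast hD2
  have hkD : k ≤ D := by
    have h4 : GG K n 1 D ∅ ⊆ Finset.Icc 1 D := by
      intro p hp
      rw [GG, Finset.mem_filter, mem_TT] at hp
      rw [Finset.mem_Icc]
      exact ⟨hp.1.1.2.one_lt.le, hp.1.1.1⟩
    have h5 := Finset.card_le_card h4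
    rw [Nat.card_Icc, ← hG, ← hk] at h5
    omega
  have hlog : 1 ≤ Real.log (D : ℝ) := by
    rw [Real.le_log_iff_exp_le (by linarith)]
    have := Real.exp_one_lt_d9
    linarith
  have hb1 := Pool.Agent.TH869.EVF.log_pow_bound n (by omega) ε hε D hDr3 k (by positivity)
    (by exact_mod_cast hkD)
  rw [← hc1] at hb1
  have hW00 : 0 ≤ W := by
    refine Finset.sum_nonneg fun J hJ => ?_
    rw [mem_FI] at hJ
    have h4 : (0 : ℝ) < Ideal.absNorm J := by exact_mod_cast absNorm_pos hJ.2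
    have h5 : (1 : ℝ) ≤ (N : ℝ) / Ideal.absNorm J := by
      rw [le_div_iff₀ h4, one_mul]
      exact_mod_cast hJ.1
    have := Real.log_nonneg h5
    positivity
  have hDpos : (0 : ℝ) < D := by linarith
  have hlb1 : (Real.log (((∅ : Finset ℕ).card : ℝ) + 2)) ^ n ≤ 1 := by
    apply pow_le_one₀ hlb.le
    rw [Finset.card_empty]
    have := Real.log_two_lt_d9
    norm_num
    linarith
  refine ⟨N, hXN, ?_⟩
  rw [← hW]
  calc W ≤ W * Real.log D := le_mul_of_one_le_right hW00 hlog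
    _ ≤ _ := hWb
    _ ≤ 2 * ((2 * n : ℝ) ^ n * (C1 * ((2 + 6 * n) * Real.exp (3 * n)) * 2 ^ (n + 1) * C)) *
          ((1 : ℕ) : ℝ) ^ n * ((c1 * (D : ℝ) ^ ε) * 1) * √(D : ℝ) := by
        rw [hL]
        gcongr
    _ = _ := by
        rw [Real.sqrt_eq_rpow, Real.rpow_add hDpos]
        push_cast
        ring

/-- many small primes that are norms, pairwise separated, give a saving -/
theorem tor_sep (n : ℕ) (hn2 : 2 ≤ n) (ε : ℝ) (hε : 0 < ε) : ∃ C : ℝ, 0 < C ∧ ∀ l : ℕ, 1 ≤ l →
    ∀ (K : Type) [Field K] [NumberField K], Module.finrank ℚ K = n → ∀ G : Finset ℕ,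
    (∀ p ∈ G, p.Prime ∧ ∃ P : Ideal (𝓞 K), Ideal.absNorm P = p) →
    (∀ p ∈ G, ∀ q ∈ G, p ≠ q → ∀ P J Q R : Ideal (𝓞 K), Ideal.absNorm P = p →
      P * J = Ideal.span {((p : ℕ) : 𝓞 K)} → Ideal.absNorm Q = q →
      Q * R = Ideal.span {((q : ℕ) : 𝓞 K)} → ∀ z : 𝓞 K, z ≠ 0 →
      Ideal.span {z} = Q ^ l * J ^ l →
      (∀ w : InfinitePlace K, w (z : K) ≤ (150 * ((max p q : ℕ) : ℝ)) ^ l) → False) →
    (Nat.card {c : ClassGroup (𝓞 K) // c ^ l = 1} : ℝ) * ((G.card : ℝ) + 1) ≤
      C * ((discr K).natAbs : ℝ) ^ (1 / 2 + ε) := by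
  obtain ⟨C, hC0, hC⟩ := W_bound n hn2 ε hε
  refine ⟨2 * C, by positivity, ?_⟩
  intro l hl K _ _ hn G hG hsep
  obtain ⟨N, hXN, hW⟩ := hC K hn
  set W := ∑ J ∈ FI K N, (1 + Real.log ((N : ℝ) / Ideal.absNorm J)) ^ n with hWdef
  set T := Nat.card {c : ClassGroup (𝓞 K) // c ^ l = 1} with hT
  have hTh : T ≤ Nat.card (ClassGroup (𝓞 K)) :=
    Nat.card_le_card_of_injective _ Subtype.val_injective
  have hT1 : (T : ℝ) ≤ W := by
    have h1 := class_le_n hn N hXN
    have h2 : (T : ℝ) ≤ Nat.card (ClassGroup (𝓞 K)) := by exact_mod_cast hTh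
    linarith
  have hT2 : (G.card : ℝ) * T ≤ W := by
    have hex : ∀ p : {p // p ∈ G}, ∃ P' J : (Ideal (𝓞 K))⁰,
        (P' : Ideal (𝓞 K)) * (J : Ideal (𝓞 K)) = Ideal.span {((p.1 : ℕ) : 𝓞 K)} ∧
        Ideal.absNorm (P' : Ideal (𝓞 K)) = p.1 ∧
        Ideal.absNorm (J : Ideal (𝓞 K)) = p.1 ^ (n - 1) := by
      rintro ⟨p, hp⟩
      obtain ⟨hpp, P, hP⟩ := hG p hp
      obtain ⟨P', J, _, h1, h2, h3⟩ := cofactorn hn hpp hP
      exact ⟨P', J, h1, h2, h3⟩
    choose P J h1 h2 h3 using hex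
    exact ev_sep hn hl N hXN G P J (fun p => ⟨(hG p.1 p.2).1, h1 p, h2 p, h3 p⟩)
      (fun p q hne z hz0 hz hw => hsep p.1 p.2 q.1 q.2 (fun h => hne (Subtype.ext h))
        (P p) (J p) (P q) (J q) (h2 p) (h1 p) (h2 q) (h1 q) z hz0 hz hw)
  calc (T : ℝ) * ((G.card : ℝ) + 1) = G.card * T + T := by ring
    _ ≤ W + W := by gcongr
    _ ≤ _ := by linarith

end Pool.Agent.Y159.PT
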