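import Pool.Agent.Y159.PT.Mom1

set_option autoImplicit false

/-! Moments of the torsion of the class groups of pure fields. -/

namespace Pool.Agent.Y159.PT

open NumberField Finset Pool.Agent.TH847.LG Pool.Agent.TH869.EVF
open scoped Classical nonZeroDivisors

/-- the hypothesis on the family: squarefree parameters, pure fields of degree `n` -/
theorem pow_le_add {x g E1 E2 : ℝ} (hx : 1 ≤ x) (h : g ≤ E1 ∨ g ≤ E2) :
    x ^ g ≤ x ^ E1 + x ^ E2 := by
  have h1 : 0 < x ^ E1 := Real.rpow_pos_of_pos (by linarith) _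
  have h2 : 0 < x ^ E2 := Real.rpow_pos_of_pos (by linarith) _
  rcases h with h | h
  · have := Real.rpow_le_rpow_of_exponent_le hx h
    linarith
  · have := Real.rpow_le_rpow_of_exponent_le hx h
    linarith

theorem moment_dyadic (n l r : ℕ) (hn : 3 ≤ n) (hodd : Odd n) (hl : 1 ≤ l) (ε : ℝ) (hε : 0 < ε) :
    ∃ C : ℝ, 0 < C ∧ ∀ N : ℕ, 1 ≤ N →
    ∀ (K : ℕ → Type) [∀ e, Field (K e)] [∀ e, NumberField (K e)]
    (α : ∀ e, K e) (S : Finset ℕ), (∀ e ∈ S, Squarefree e ∧ N < 2 * e ∧ e ≤ N ∧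
      Module.finrank ℚ (K e) = n ∧ IntermediateField.adjoin ℚ {α e} = ⊤ ∧
      (α e) ^ n = (e : K e)) →
    ∑ e ∈ S, (Nat.card {c : ClassGroup (𝓞 (K e)) // c ^ l = 1} : ℝ) ^ r ≤
      C * ((N : ℝ) ^ ε * ((N : ℝ) ^ (1 + r * (((n : ℝ) - 1) / 2 - 3 / 2 * ((1 - 1 / n) / l))) +
        (N : ℝ) ^ (2 / (n : ℝ) + r * (((n : ℝ) - 1) / 2 - (1 - 1 / n) / l)))) := by
  have hnr : (3 : ℝ) ≤ n := by exact_mod_cast hn
  have hlr : (1 : ℝ) ≤ l := by exact_mod_cast hl
  have hr0 : (0 : ℝ) ≤ r := by positivity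
  have h1n : 1 / (n : ℝ) ≤ 1 / 3 := by gcongr
  have h1n0 : 0 < 1 / (n : ℝ) := by positivity
  set θ0 : ℝ := (1 - 1 / (n : ℝ)) / l with hθ0
  have hθ00 : 0 < θ0 := by
    have : 0 < 1 - 1 / (n : ℝ) := by linarith
    positivity
  have hθl : θ0 * l = 1 - 1 / (n : ℝ) := by rw [hθ0]; field_simp
  have hθ1 : θ0 ≤ 1 := by nlinarith
  set E1 : ℝ := 1 + r * (((n : ℝ) - 1) / 2 - 3 / 2 * θ0) with hE1
  set E2 : ℝ := 2 / (n : ℝ) + r * (((n : ℝ) - 1) / 2 - θ0) with hE2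
  set ε1 : ℝ := ε / (2 * (r + 1)) with hε1
  have hε10 : 0 < ε1 := by positivity
  have hε1r : ε1 * (2 * (r + 1)) = ε := by rw [hε1]; field_simp
  obtain ⟨C2, hC20, hC2⟩ := level n l hn hodd hl ε1 hε10
  obtain ⟨C3, hC30, hC3⟩ := pointwise n l hn hodd hl ε1 hε10
  set J : ℕ := ⌈1 / ε1⌉₊ + 1 with hJ
  have hJ0 : (0 : ℝ) < J := by rw [hJ]; positivity
  have hJ1 : 1 / ε1 ≤ J := by
    have := Nat.le_ceil (1 / ε1)
    rw [hJ]; push_cast; linarith
  set η : ℝ := (θ0 / 2) / J with hη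
  have hη0 : 0 < η := by positivity
  have hηJ : η * J = θ0 / 2 := by rw [hη]; field_simp
  have hηε : η ≤ ε1 := by
    rw [hη, div_le_iff₀ hJ0]
    have : 1 ≤ ε1 * J := by
      rw [div_le_iff₀ hε10] at hJ1
      linarith
    linarith
  set Cm : ℝ := C2 + C3 + 1 with hCm
  have hCm0 : 0 < Cm := by positivity
  have hCm1 : 1 ≤ Cm := by linarith
  refine ⟨Cm ^ r + J * (2 * (Cm * Cm ^ r)), by positivity, ?_⟩
  intro N hN K _ _ α S hS
  have hNr : (1 : ℝ) ≤ N := by exact_mod_cast hN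
  have hN0 : (0 : ℝ) < N := by linarith
  set A : ℕ → ℝ := fun j => Cm * (N : ℝ) ^ (((n : ℝ) - 1) / 2 + ε1 - (θ0 + j * η)) with hA
  have hA0 : ∀ j, 0 ≤ A j := fun j => by
    rw [hA]
    positivity
  set T : ℕ → ℝ := fun e => (Nat.card {c : ClassGroup (𝓞 (K e)) // c ^ l = 1} : ℝ) with hT
  have hT0 : ∀ e, 0 ≤ T e := fun e => by rw [hT]; positivity
  have hTA : ∀ e ∈ S, T e ≤ A 0 := by
    intro e he
    obtain ⟨hsq, hNe, heN, hK, hα, h0⟩ := hS e he
    have h1 := hC3 N e hsq hNe heN (K e) hK (α e) hα h0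
    rw [← hθ0] at h1
    have hNθ : 0 < (N : ℝ) ^ θ0 := Real.rpow_pos_of_pos hN0 _
    have h2 : A 0 * (N : ℝ) ^ θ0 = Cm * (N : ℝ) ^ (((n : ℝ) - 1) / 2 + ε1) := by
      rw [hA]
      simp only [Nat.cast_zero, zero_mul, add_zero]
      rw [mul_assoc, ← Real.rpow_add hN0]
      congr 2
      ring
    refine le_of_mul_le_mul_right ?_ hNθ
    rw [h2]
    refine h1.trans ?_
    gcongr
    linarith
  have hsplit : ∑ e ∈ S, T e ^ r ≤ ∑ e ∈ S, (A J ^ r +
      ∑ j ∈ range J, if A (j + 1) < T e then A j ^ r else 0) :=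
    Finset.sum_le_sum fun e he => levels J r (T e) (hT0 e) A hA0 (hTA e he)
  refine hsplit.trans ?_
  rw [Finset.sum_add_distrib, Finset.sum_const, nsmul_eq_mul, Finset.sum_comm]
  set Z : ℝ := (N : ℝ) ^ ε * ((N : ℝ) ^ E1 + (N : ℝ) ^ E2) with hZ
  have hZ0 : 0 < Z := by positivity
  -- the top level
  have hScard : (S.card : ℝ) ≤ N := by
    have h2 : S ⊆ Finset.Icc 1 N := by
      intro e he
      obtain ⟨-, h3, h4, -⟩ := hS e he
      rw [Finset.mem_Icc]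
      omega
    have h3 := Finset.card_le_card h2
    rw [Nat.card_Icc] at h3
    have h4 : S.card ≤ N := by omega
    exact_mod_cast h4
  have htop : (S.card : ℝ) * A J ^ r ≤ Cm ^ r * Z := by
    have h1 : A J ^ r = Cm ^ r * (N : ℝ) ^ ((((n : ℝ) - 1) / 2 + ε1 - 3 / 2 * θ0) * r) := by
      rw [hA]
      simp only
      rw [mul_pow, ← Real.rpow_natCast ((N : ℝ) ^ _) r, ← Real.rpow_mul hN0.le]
      congr 2
      rw [mul_comm (J : ℝ) η, hηJ]
      ring
    rw [h1]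
    calc (S.card : ℝ) * (Cm ^ r * (N : ℝ) ^ ((((n : ℝ) - 1) / 2 + ε1 - 3 / 2 * θ0) * r))
        ≤ N * (Cm ^ r * (N : ℝ) ^ ((((n : ℝ) - 1) / 2 + ε1 - 3 / 2 * θ0) * r)) := by gcongr
      _ = Cm ^ r * ((N : ℝ) ^ (ε1 * r) * (N : ℝ) ^ E1) := by
          rw [← Real.rpow_add hN0]
          have e1 : ε1 * r + E1 = 1 + (((n : ℝ) - 1) / 2 + ε1 - 3 / 2 * θ0) * r := by
            rw [hE1]; ring
          rw [e1, Real.rpow_add hN0 1, Real.rpow_one]
          ring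
      _ ≤ Cm ^ r * ((N : ℝ) ^ ε * ((N : ℝ) ^ E1 + (N : ℝ) ^ E2)) := by
          have h2 : (N : ℝ) ^ (ε1 * r) ≤ (N : ℝ) ^ ε := by
            apply Real.rpow_le_rpow_of_exponent_le hNr
            nlinarith
          have h3 : (N : ℝ) ^ E1 ≤ (N : ℝ) ^ E1 + (N : ℝ) ^ E2 := by
            have : 0 < (N : ℝ) ^ E2 := Real.rpow_pos_of_pos hN0 _
            linarith
          gcongr
  -- the other levels
  have hlev : ∀ j ∈ range J, ∑ e ∈ S, (if A (j + 1) < T e then A j ^ r else 0) ≤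
      2 * (Cm * Cm ^ r) * Z := by
    intro j hj
    rw [Finset.mem_range] at hj
    rw [← Finset.sum_filter, Finset.sum_const, nsmul_eq_mul]
    set S' := S.filter (fun e => A (j + 1) < T e) with hS'
    set θ : ℝ := θ0 + (j + 1) * η with hθ
    have hθlow : θ0 ≤ θ := by
      have : 0 ≤ ((j : ℝ) + 1) * η := by positivity
      linarith
    have hθup : θ ≤ 3 / 2 * θ0 := by
      have h1 : ((j : ℝ) + 1) ≤ J := by exact_mod_cast hj
      have h2 : ((j : ℝ) + 1) * η ≤ J * η := by gcongr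
      have h3 : (J : ℝ) * η = θ0 / 2 := by rw [mul_comm, hηJ]
      linarith
    set y : ℝ := (N : ℝ) ^ θ with hy
    have hy0 : 0 < y := Real.rpow_pos_of_pos hN0 _
    have hcard := hC2 N hN y (Real.one_le_rpow hNr (by linarith)) (by
      rw [hy, ← Real.rpow_natCast ((N : ℝ) ^ θ) l, ← Real.rpow_mul hN0.le]
      apply Real.rpow_le_rpow_of_exponent_le hNr
      rw [← hθl]
      gcongr) (by
      rw [hy]
      apply Real.rpow_le_rpow_of_exponent_le hNr
      linarith) K α S' (by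
      intro e he
      rw [hS', mem_filter] at he
      obtain ⟨he, hAT⟩ := he
      obtain ⟨hsq, hNe, heN, hK, hα, h0⟩ := hS e he
      refine ⟨hsq, hNe, heN, hK, hα, h0, ?_⟩
      have h2 : A (j + 1) * y = Cm * (N : ℝ) ^ (((n : ℝ) - 1) / 2 + ε1) := by
        rw [hA, hy]
        simp only
        rw [mul_assoc, ← Real.rpow_add hN0]
        congr 2
        rw [hθ]
        push_cast
        ring
      have h3 : A (j + 1) * y < T e * y := mul_lt_mul_of_pos_right hAT hy0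
      rw [h2] at h3
      refine lt_of_le_of_lt ?_ h3
      gcongr
      linarith)
    have hAj : A j ^ r = Cm ^ r * (N : ℝ) ^ ((((n : ℝ) - 1) / 2 + ε1 - (θ - η)) * r) := by
      rw [hA]
      simp only
      rw [mul_pow, ← Real.rpow_natCast ((N : ℝ) ^ _) r, ← Real.rpow_mul hN0.le]
      congr 2
      rw [hθ]
      ring
    have hyl : (N : ℝ) ^ (3 / (n : ℝ) - 1) * y ^ l = (N : ℝ) ^ (3 / (n : ℝ) - 1 + θ * l) := by
      rw [hy, ← Real.rpow_natCast ((N : ℝ) ^ θ) l, ← Real.rpow_mul hN0.le,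
        ← Real.rpow_add hN0]
    have hy2l : (N : ℝ) ^ (3 / (n : ℝ) - 2) * y ^ (2 * l) =
        (N : ℝ) ^ (3 / (n : ℝ) - 2 + θ * (2 * l)) := by
      rw [hy, ← Real.rpow_natCast ((N : ℝ) ^ θ) (2 * l), ← Real.rpow_mul hN0.le,
        ← Real.rpow_add hN0]
      push_cast
      rfl
    rw [hyl, hy2l] at hcard
    set ω : ℝ := ε1 + (ε1 + η) * r with hω
    have hωε : ω ≤ ε := by
      rw [hω]
      nlinarith
    set g0 : ℝ := (((n : ℝ) - 1) / 2 - θ) * r with hg0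
    have hexp : (((n : ℝ) - 1) / 2 + ε1 - (θ - η)) * r + ε1 = ω + g0 := by
      rw [hω, hg0]; ring
    have hg1 : (N : ℝ) ^ (g0 + (3 / (n : ℝ) - 1 + θ * l)) ≤ (N : ℝ) ^ E1 + (N : ℝ) ^ E2 := by
      apply pow_le_add hNr
      have e3 : 3 / (n : ℝ) = 3 * (1 / (n : ℝ)) := by ring
      have e2 : 2 / (n : ℝ) = 2 * (1 / (n : ℝ)) := by ring
      rcases le_total (l : ℝ) r with h | h
      · right
        have h1 : (r - l : ℝ) * θ0 ≤ (r - l) * θ := by
          apply mul_le_mul_of_nonneg_left hθlow; linarith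
        rw [hg0, hE2, e3, e2]
        nlinarith
      · left
        have h1 : (l - r : ℝ) * θ ≤ (l - r) * (3 / 2 * θ0) := by
          apply mul_le_mul_of_nonneg_left hθup; linarith
        rw [hg0, hE1, e3]
        nlinarith
    have hg2 : (N : ℝ) ^ (g0 + (3 / (n : ℝ) - 2 + θ * (2 * l))) ≤
        (N : ℝ) ^ E1 + (N : ℝ) ^ E2 := by
      apply pow_le_add hNr
      have e3 : 3 / (n : ℝ) = 3 * (1 / (n : ℝ)) := by ring
      have e2 : 2 / (n : ℝ) = 2 * (1 / (n : ℝ)) := by ring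
      rcases le_total (2 * l : ℝ) r with h | h
      · right
        have h1 : (r - 2 * l : ℝ) * θ0 ≤ (r - 2 * l) * θ := by
          apply mul_le_mul_of_nonneg_left hθlow; linarith
        rw [hg0, hE2, e3, e2]
        nlinarith
      · left
        have h1 : (2 * l - r : ℝ) * θ ≤ (2 * l - r) * (3 / 2 * θ0) := by
          apply mul_le_mul_of_nonneg_left hθup; linarith
        rw [hg0, hE1, e3]
        nlinarith
    calc (S'.card : ℝ) * A j ^ r
        ≤ (C2 * (N : ℝ) ^ ε1 * ((N : ℝ) ^ (3 / (n : ℝ) - 1 + θ * l) +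
            (N : ℝ) ^ (3 / (n : ℝ) - 2 + θ * (2 * l)))) * A j ^ r := by
          have := pow_nonneg (hA0 j) r
          gcongr
      _ = C2 * Cm ^ r * ((N : ℝ) ^ ((((n : ℝ) - 1) / 2 + ε1 - (θ - η)) * r + ε1) *
            ((N : ℝ) ^ (3 / (n : ℝ) - 1 + θ * l) +
            (N : ℝ) ^ (3 / (n : ℝ) - 2 + θ * (2 * l)))) := by
          rw [hAj, Real.rpow_add hN0 _ ε1]
          ring
      _ = C2 * Cm ^ r * ((N : ℝ) ^ ω * ((N : ℝ) ^ (g0 + (3 / (n : ℝ) - 1 + θ * l)) +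
            (N : ℝ) ^ (g0 + (3 / (n : ℝ) - 2 + θ * (2 * l))))) := by
          rw [hexp, Real.rpow_add hN0 ω g0, Real.rpow_add hN0 g0, Real.rpow_add hN0 g0]
          ring
      _ ≤ Cm * Cm ^ r * ((N : ℝ) ^ ε * (((N : ℝ) ^ E1 + (N : ℝ) ^ E2) +
            ((N : ℝ) ^ E1 + (N : ℝ) ^ E2))) := by
          gcongr
          linarith
      _ = _ := by rw [hZ]; ring
  have hsum := Finset.sum_le_card_nsmul _ _ _ hlev
  rw [Finset.card_range, nsmul_eq_mul] at hsum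
  calc (S.card : ℝ) * A J ^ r +
        ∑ j ∈ range J, ∑ e ∈ S, (if A (j + 1) < T e then A j ^ r else 0)
      ≤ Cm ^ r * Z + J * (2 * (Cm * Cm ^ r) * Z) := add_le_add htop hsum
    _ = _ := by ring

end Pool.Agent.Y159.PT
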