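import Pool.Agent.Y159.PT.CollK
import Pool.Agent.Y159.PT.Mom1

set_option autoImplicit false

/-! Pure fields: a stronger bound for small torsion. -/

namespace Pool.Agent.Y159.PT

open NumberField Finset Pool.Agent.TH847.LG Pool.Agent.TH869.EVF
open scoped Classical nonZeroDivisors

/-- the condition satisfied by the primes that are not separated -/
def BadK (n k l : ℕ) (a b : ℝ) (e p : ℕ) : Prop :=
  ∃ u v : ℤ, ¬ (p : ℤ) ∣ u ∧ |(u : ℝ)| ^ k ≤ a ∧ |(v : ℝ)| ^ k ≤ b ∧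
    ((p ^ l : ℕ) : ℤ) ∣ e * u ^ n - v ^ n

/-- a squarefree integer is not a power of a rational number -/
theorem ne_pow {n e : ℕ} (hn : 2 ≤ n) (he : Squarefree e) (he1 : 1 < e) {u v : ℤ} (hu : u ≠ 0) :
    (e : ℤ) * u ^ n - v ^ n ≠ 0 := by
  intro h
  have h1 : (e : ℤ) * u ^ n = v ^ n := by linarith
  have h2 : u ^ n ∣ v ^ n := ⟨e, by rw [← h1]; ring⟩
  rw [Int.pow_dvd_pow_iff (by omega)] at h2
  obtain ⟨w, rfl⟩ := h2
  have h3 : (e : ℤ) = w ^ n := by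
    have h4 : u ^ n * (e : ℤ) = u ^ n * w ^ n := by rw [mul_comm, h1, mul_pow]
    exact mul_left_cancel₀ (pow_ne_zero n hu) h4
  have h4 : e = w.natAbs ^ n := by
    have := congrArg Int.natAbs h3
    rwa [Int.natAbs_natCast, Int.natAbs_pow] at this
  have h5 : w.natAbs * w.natAbs ∣ e := by
    rw [h4, ← sq]
    exact pow_dvd_pow _ hn
  have h6 := Nat.isUnit_iff.mp (he _ h5)
  rw [h6, one_pow] at h4
  omega

/-- few primes are bad -/
theorem card_badK {n k l e : ℕ} (hn : 2 ≤ n) (hk : 1 ≤ k) (hl : 1 ≤ l) (he : Squarefree e)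
    (he1 : 1 < e) {a b L : ℝ} (ha : 1 ≤ a) (hb : 1 ≤ b)
    (hL : Real.log (e * a ^ n + b ^ n) ≤ L) (G : Finset ℕ) (hG : ∀ p ∈ G, p.Prime) :
    ((G.filter (fun p => BadK n k l a b e p)).card : ℝ) ≤
      18 * (a * b) ^ (1 / (k : ℝ)) * L := by
  have hkr : (1 : ℝ) ≤ k := by exact_mod_cast hk
  set a1 : ℝ := a ^ (1 / (k : ℝ)) with ha1
  set b1 : ℝ := b ^ (1 / (k : ℝ)) with hb1
  have ha11 : 1 ≤ a1 := Real.one_le_rpow ha (by positivity)
  have hb11 : 1 ≤ b1 := Real.one_le_rpow hb (by positivity)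
  have hle : ∀ {c : ℝ} {u : ℤ}, 1 ≤ c → |(u : ℝ)| ^ k ≤ c → |(u : ℝ)| ≤ c ^ (1 / (k : ℝ)) := by
    intro c u hc hu
    calc |(u : ℝ)| = (|(u : ℝ)| ^ k) ^ (1 / (k : ℝ)) := by
          rw [← Real.rpow_natCast, ← Real.rpow_mul (abs_nonneg _),
            mul_one_div_cancel (by linarith), Real.rpow_one]
      _ ≤ c ^ (1 / (k : ℝ)) := Real.rpow_le_rpow (by positivity) hu (by positivity)
  set I : Finset (ℤ × ℤ) := ((Finset.Icc (-⌊a1⌋) ⌊a1⌋) ×ˢ (Finset.Icc (-⌊b1⌋) ⌊b1⌋)).filter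
    (fun uv => uv.1 ≠ 0 ∧ |(uv.1 : ℝ)| ^ k ≤ a ∧ |(uv.2 : ℝ)| ^ k ≤ b) with hI
  have h1 : G.filter (fun p => BadK n k l a b e p) ⊆
      I.biUnion (fun uv => (((e : ℤ) * uv.1 ^ n - uv.2 ^ n).natAbs).primeFactors) := by
    intro p hp
    rw [mem_filter] at hp
    obtain ⟨hpG, u, v, hpu, hu, hv, hd⟩ := hp
    have hu0 : u ≠ 0 := by
      rintro rfl
      exact hpu (dvd_zero _)
    rw [mem_biUnion]
    refine ⟨(u, v), ?_, ?_⟩
    · rw [hI, mem_filter]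
      exact ⟨mem_product.mpr ⟨mem_Icc_floor (hle ha hu), mem_Icc_floor (hle hb hv)⟩, hu0, hu, hv⟩
    · rw [Nat.mem_primeFactors]
      refine ⟨hG p hpG, ?_, ?_⟩
      · rw [← Int.natCast_dvd]
        refine dvd_trans ?_ hd
        push_cast
        exact dvd_pow_self _ (by omega)
      · exact Int.natAbs_ne_zero.mpr (ne_pow hn he he1 hu0)
  have h2 : ∀ uv ∈ I, ((((e : ℤ) * uv.1 ^ n - uv.2 ^ n).natAbs).primeFactors.card : ℝ) ≤
      2 * L := by
    intro uv huv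
    rw [hI, mem_filter] at huv
    obtain ⟨-, hu0, hu, hv⟩ := huv
    have h3 := card_primeFactors_le _ (Int.natAbs_ne_zero.mpr (ne_pow hn he he1 hu0 (v := uv.2)))
    refine h3.trans ?_
    have h4 : (0 : ℝ) < (((e : ℤ) * uv.1 ^ n - uv.2 ^ n).natAbs : ℝ) := by
      exact_mod_cast Int.natAbs_pos.mpr (ne_pow hn he he1 hu0 (v := uv.2))
    have hbase : ∀ {c : ℝ} {u : ℤ}, 1 ≤ c → |(u : ℝ)| ^ k ≤ c → |(u : ℝ)| ^ n ≤ c ^ n := by
      intro c u hc hu
      have h5 : |(u : ℝ)| ≤ c := by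
        refine (hle hc hu).trans ?_
        calc c ^ (1 / (k : ℝ)) ≤ c ^ (1 : ℝ) := by
              apply Real.rpow_le_rpow_of_exponent_le hc
              rw [div_le_one (by linarith)]
              exact hkr
          _ = c := Real.rpow_one _
      exact pow_le_pow_left₀ (abs_nonneg _) h5 n
    have h5 : (((e : ℤ) * uv.1 ^ n - uv.2 ^ n).natAbs : ℝ) ≤ e * a ^ n + b ^ n := by
      rw [Nat.cast_natAbs]
      push_cast
      calc |(e : ℝ) * (uv.1 : ℝ) ^ n - (uv.2 : ℝ) ^ n|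
          ≤ |(e : ℝ) * (uv.1 : ℝ) ^ n| + |(uv.2 : ℝ) ^ n| := abs_sub _ _
        _ = e * |(uv.1 : ℝ)| ^ n + |(uv.2 : ℝ)| ^ n := by
            rw [abs_mul, Nat.abs_cast, abs_pow, abs_pow]
        _ ≤ e * a ^ n + b ^ n := by
            have := hbase ha hu
            have := hbase hb hv
            gcongr
    have h6 := Real.log_le_log h4 h5
    linarith
  have h3 : (I.card : ℝ) ≤ 9 * (a1 * b1) := by
    have h4 : I.card ≤ (Finset.Icc (-⌊a1⌋) ⌊a1⌋).card * (Finset.Icc (-⌊b1⌋) ⌊b1⌋).card := by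
      rw [← card_product]
      exact card_filter_le _ _
    have h5 := card_Icc_floor (show 0 ≤ a1 by linarith)
    have h6 := card_Icc_floor (show 0 ≤ b1 by linarith)
    calc (I.card : ℝ) ≤ ((Finset.Icc (-⌊a1⌋) ⌊a1⌋).card : ℝ) *
          ((Finset.Icc (-⌊b1⌋) ⌊b1⌋).card : ℝ) := by exact_mod_cast h4
      _ ≤ (2 * a1 + 1) * (2 * b1 + 1) := by gcongr
      _ ≤ 9 * (a1 * b1) := by nlinarith
  have hL0 : 0 ≤ L := by
    refine le_trans (Real.log_nonneg ?_) hL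
    have h4 : (1 : ℝ) ≤ b ^ n := one_le_pow₀ hb
    have h5 : (0 : ℝ) ≤ e * a ^ n := by positivity
    linarith
  calc ((G.filter (fun p => BadK n k l a b e p)).card : ℝ)
      ≤ ((I.biUnion (fun uv => (((e : ℤ) * uv.1 ^ n - uv.2 ^ n).natAbs).primeFactors)).card : ℝ) := by
        exact_mod_cast card_le_card h1
    _ ≤ ∑ uv ∈ I, ((((e : ℤ) * uv.1 ^ n - uv.2 ^ n).natAbs).primeFactors.card : ℝ) := by
        exact_mod_cast card_biUnion_le
    _ ≤ I.card • (2 * L) := Finset.sum_le_card_nsmul _ _ _ h2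
    _ = I.card * (2 * L) := nsmul_eq_mul _ _
    _ ≤ (9 * (a1 * b1)) * (2 * L) := by gcongr
    _ = _ := by
        rw [Real.mul_rpow (by linarith) (by linarith)]
        ring

end Pool.Agent.Y159.PT
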