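import Pool.Agent.Y159.PT.Small1

set_option autoImplicit false

/-! Pure fields: a stronger bound for small torsion. -/

namespace Pool.Agent.Y159.PT

open NumberField Finset Pool.Agent.TH847.LG Pool.Agent.TH869.EVF
open scoped Classical nonZeroDivisors

/-- the primes that are not bad are separated -/
theorem sep_boundK (n : ℕ) (hn : 3 ≤ n) (δ : ℝ) (hδ : 0 < δ) : ∃ C : ℝ, 0 < C ∧ ∀ k l : ℕ,
    k + 1 ≤ n → 1 ≤ l → ∀ e : ℕ, Squarefree e →
    ∀ (K : Type) [Field K] [NumberField K], Module.finrank ℚ K = n → ∀ α : K,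
    IntermediateField.adjoin ℚ {α} = ⊤ → α ^ n = (e : K) → ∀ y z a b : ℝ, 0 < y →
    (∀ p : ℕ, z < (p : ℝ) → 2 * (n : ℝ) ^ 2 * ((150 * y) ^ l) ^ 2 *
      ((e : ℝ) ^ (1 / (n : ℝ))) ^ (k + 2) < (e : ℝ) ^ 2 * (p : ℝ) ^ l) →
    (n * ((e : ℝ) ^ (1 / (n : ℝ)) * (150 * y) ^ l) ≤ a * e) →
    (n * (((e : ℝ) ^ (1 / (n : ℝ))) ^ (k + 1) * (150 * y) ^ l) ≤ b * e) →
    (Nat.card {c : ClassGroup (𝓞 K) // c ^ l = 1} : ℝ) *
      ((((PA n 2 y).filter (fun p : ℕ => (¬ p ∣ n * e * (discr K).natAbs ∧ z < (p : ℝ)) ∧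
        ¬ BadK n k l a b e p)).card : ℝ) + 1) ≤
      C * ((discr K).natAbs : ℝ) ^ (1 / 2 + δ : ℝ) := by
  obtain ⟨C, hC0, hC⟩ := tor_sep n (by omega) δ hδ
  refine ⟨C, hC0, ?_⟩
  intro k l hkn hl e he K _ _ hK α hα h0 y z a b hy hbig ha hb
  have he0 : e ≠ 0 := he.ne_zero
  have her : (0 : ℝ) < e := by exact_mod_cast Nat.pos_of_ne_zero he0
  have h0' : α ^ n = ((e : ℤ) : K) := by rw [h0]; push_cast; rfl
  have hint : IsIntegral ℤ α := by
    refine IsIntegral.of_pow (show 0 < n by omega) ?_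
    rw [h0']
    exact isIntegral_algebraMap
  have hβn : (⟨α, hint⟩ : 𝓞 K) ^ n = ((e : ℤ) : 𝓞 K) := by
    apply RingOfIntegers.ext
    push_cast
    exact h0
  refine hC l hl K hK _ ?_ ?_
  · intro p hp
    rw [mem_filter, PA, mem_filter, mem_Icc] at hp
    obtain ⟨⟨⟨-, hpy⟩, hpp, hpc⟩, ⟨hpN, -⟩, -⟩ := hp
    have hpn : ¬ p ∣ n := fun h => hpN (by rw [mul_assoc]; exact h.mul_right _)
    have hpM : ¬ p ∣ e := fun h => hpN ((h.mul_left n).mul_right _)
    refine ⟨hpp, dickson_norm (n := n) (a := 0) (b := e) hn (Or.inl rfl) hK α hα ?_ hpp hpc hpn ?_⟩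
    · have h1 := dickson_eval α (0 : K) n
      rw [mul_zero, add_zero, zero_pow (by omega), add_zero] at h1
      rw [Int.cast_zero, h1, h0']
    · simpa [Mab] using hpM
  · intro p hp q hq hpq P J Q R hP hPJ hQ hQR z' hz0 hz hw
    rw [mem_filter, PA, mem_filter, mem_Icc] at hp hq
    obtain ⟨⟨⟨-, hpy⟩, hpp, hpc⟩, ⟨hpN, hzp⟩, hpB⟩ := hp
    obtain ⟨⟨⟨-, hqy⟩, hqp, hqc⟩, ⟨hqN, -⟩, hqB⟩ := hq
    have hpM : ¬ p ∣ e := fun h => hpN ((h.mul_left n).mul_right _)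
    have hpD : ¬ p ∣ (discr K).natAbs := fun h => hpN (h.mul_left _)
    have hpy' : (p : ℝ) ≤ y := (Nat.cast_le.mpr hpy).trans (Nat.floor_le hy.le)
    have hqy' : (q : ℝ) ≤ y := (Nat.cast_le.mpr hqy).trans (Nat.floor_le hy.le)
    have hw' : ∀ w : InfinitePlace K, w (z' : K) ≤ (150 * y) ^ l := by
      intro w
      refine (hw w).trans ?_
      have : ((max p q : ℕ) : ℝ) ≤ y := by
        rw [Nat.cast_max]
        exact max_le hpy' hqy'
      gcongr
    obtain ⟨u, v, h1, h2, h3, h4⟩ := collision_k hkn hK hl he hβn hpp hqp hpq hP hPJ hpD hpM hQ hz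
      (by positivity) hw' (hbig p hzp)
    apply hpB
    refine ⟨u, v, h1, ?_, ?_, h4⟩
    · exact le_of_mul_le_mul_right (h2.trans ha) her
    · exact le_of_mul_le_mul_right (h3.trans hb) her

/-- the bounds that hold for large parameters -/
theorem large_e (c c1 C0 A B A1 B1 τ s : ℝ) (hc : 0 < c) (hc1 : 0 < c1) (hτ : 0 < τ)
    (hτ1 : τ ≤ 1 / 2) (hs : 0 < s) :
    ∃ N1 : ℝ, 1 ≤ N1 ∧ ∀ x : ℝ, N1 ≤ x → 1 ≤ c1 * x ^ ((1 - τ) * s) ∧
      (c1 * x ^ ((1 - τ) * s)) ^ (-(τ / 4)) ≤ c ∧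
      C0 + A + B * Real.log x ≤ c * (c1 * x ^ ((1 - τ - τ / 4) * s)) ∧
      18 * x ^ ((1 - 2 * τ) * s) * (A1 + B1 * Real.log x) ≤
        c * (c1 * x ^ ((1 - τ - τ / 4) * s)) := by
  obtain ⟨N1, hN1, h1⟩ := large_N c1 0 0 0 1 ((1 - τ) * s) hc1 one_pos
    (mul_pos (by linarith) hs)
  obtain ⟨N2, hN2, h2⟩ := large_N (c * c1 ^ (τ / 4)) 0 0 0 1 ((1 - τ) * s * (τ / 4))
    (by positivity) one_pos (mul_pos (mul_pos (by linarith) hs) (by positivity))
  obtain ⟨N3, hN3, h3⟩ := large_N (c * c1) C0 A B ((1 - τ - τ / 4) * s) 1 (by positivity)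
    (mul_pos (by linarith) hs) one_pos
  obtain ⟨N4, hN4, h4⟩ := large_N (c * c1 / 18) 0 A1 B1 (3 * τ / 4 * s) 1 (by positivity)
    (by positivity) one_pos
  refine ⟨N1 + N2 + N3 + N4, by linarith, ?_⟩
  intro x hx
  have hx1 : 1 ≤ x := by linarith
  have hx0 : 0 < x := by linarith
  have e1 := (h1 x (by linarith)).1
  have e2 := (h2 x (by linarith)).1
  have e3 := (h3 x (by linarith)).2
  have e4 := (h4 x (by linarith)).2
  refine ⟨?_, ?_, ?_, ?_⟩
  · have h5 : 0 < x ^ ((1 - τ) * s) := Real.rpow_pos_of_pos hx0 _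
    rw [Real.rpow_neg hx0.le] at e1
    calc (1 : ℝ) = (x ^ ((1 - τ) * s))⁻¹ * x ^ ((1 - τ) * s) := by field_simp
      _ ≤ c1 * x ^ ((1 - τ) * s) := by gcongr
  · rw [Real.mul_rpow hc1.le (by positivity), ← Real.rpow_mul hx0.le]
    have h5 : (1 - τ) * s * (-(τ / 4)) = -((1 - τ) * s * (τ / 4)) := by ring
    rw [h5, Real.rpow_neg hc1.le]
    have h6 : 0 < c1 ^ (τ / 4) := Real.rpow_pos_of_pos hc1 _
    calc (c1 ^ (τ / 4))⁻¹ * x ^ (-((1 - τ) * s * (τ / 4)))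
        ≤ (c1 ^ (τ / 4))⁻¹ * (c * c1 ^ (τ / 4)) := by gcongr
      _ = c := by field_simp
  · linarith
  · have h5 : x ^ ((1 - τ - τ / 4) * s) = x ^ ((1 - 2 * τ) * s) * x ^ (3 * τ / 4 * s) := by
      rw [← Real.rpow_add hx0]; congr 1; ring
    have h6 : 0 < x ^ ((1 - 2 * τ) * s) := Real.rpow_pos_of_pos hx0 _
    rw [h5]
    calc 18 * x ^ ((1 - 2 * τ) * s) * (A1 + B1 * Real.log x)
        = 18 * x ^ ((1 - 2 * τ) * s) * (0 + A1 + B1 * Real.log x) := by ring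
      _ ≤ 18 * x ^ ((1 - 2 * τ) * s) * (c * c1 / 18 * x ^ (3 * τ / 4 * s)) := by gcongr
      _ = _ := by ring

/-- the constant in the choice of the range of primes -/
noncomputable def cc (n l : ℕ) : ℝ := 1 / (4 * (n : ℝ) ^ 2 * 150 ^ (2 * l))

theorem cc_pos {n l : ℕ} (hn : 3 ≤ n) : 0 < cc n l := by
  have hnr : (3 : ℝ) ≤ n := by exact_mod_cast hn
  unfold cc
  positivity

theorem cc_mul {n l : ℕ} (hn : 3 ≤ n) : cc n l * (4 * (n : ℝ) ^ 2 * 150 ^ (2 * l)) = 1 := by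
  have hnr : (3 : ℝ) ≤ n := by exact_mod_cast hn
  unfold cc
  field_simp

theorem cc_le {n l : ℕ} (hn : 3 ≤ n) : cc n l ≤ 1 := by
  have hnr : (3 : ℝ) ≤ n := by exact_mod_cast hn
  unfold cc
  rw [div_le_one (by positivity)]
  have h1 : (1 : ℝ) ≤ 150 ^ (2 * l) := one_le_pow₀ (by norm_num)
  nlinarith

theorem y_pow {n l : ℕ} (hn : 3 ≤ n) (hl : 1 ≤ l) {e ψ τ y : ℝ} (he : 1 ≤ e)
    (hy : y = cc n l * e ^ ((1 - τ) * (ψ / l))) : y ^ l ≤ cc n l * e ^ ((1 - τ) * ψ) := by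
  have hlr : (1 : ℝ) ≤ l := by exact_mod_cast hl
  have he0 : 0 < e := by linarith
  rw [hy, mul_pow, ← Real.rpow_natCast (e ^ _) l, ← Real.rpow_mul he0.le]
  have e1 : (1 - τ) * (ψ / l) * l = (1 - τ) * ψ := by field_simp
  rw [e1]
  have : cc n l ^ l ≤ cc n l := pow_le_of_le_one (cc_pos hn).le (cc_le hn) (by omega)
  gcongr

theorem B_pow {n k : ℕ} (hn : 3 ≤ n) {e ψ : ℝ} (he : 1 ≤ e) (hψ : ψ = 2 - ((k : ℝ) + 2) / n) :
    (e ^ (1 / (n : ℝ))) ^ (k + 2) = e ^ (2 - ψ) := by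
  have he0 : 0 < e := by linarith
  rw [← Real.rpow_natCast, ← Real.rpow_mul he0.le]
  congr 1
  rw [hψ]
  push_cast
  ring

/-- the primes above `y ^ (1 - τ / 2)` are large enough -/
theorem aux_big {n k l : ℕ} (hn : 3 ≤ n) (hl : 1 ≤ l) {e ψ τ y : ℝ} (her : 1 ≤ e)
    (hτ0 : 0 < τ) (hτ1 : τ ≤ 1 / 4) (hψ0 : 0 < ψ) (hψ : ψ = 2 - ((k : ℝ) + 2) / n)
    (hy : y = cc n l * e ^ ((1 - τ) * (ψ / l))) (g1 : 1 ≤ y) (p : ℕ)
    (hp : y ^ (1 - 2 * (τ / 4)) < (p : ℝ)) :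
    2 * (n : ℝ) ^ 2 * ((150 * y) ^ l) ^ 2 * (e ^ (1 / (n : ℝ))) ^ (k + 2) <
      e ^ 2 * (p : ℝ) ^ l := by
  have hepos : 0 < e := by linarith
  have hnr : (3 : ℝ) ≤ n := by exact_mod_cast hn
  have hlr : (1 : ℝ) ≤ l := by exact_mod_cast hl
  have hy0 : 0 < y := by linarith
  have hc10 := cc_pos (l := l) hn
  have hc11 := cc_le (l := l) hn
  have hc1c := cc_mul (l := l) hn
  have hyl := y_pow hn hl her hy
  have hBk := B_pow (k := k) hn her hψ
  set c1 := cc n l with hc1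
  set δ : ℝ := τ / 4 with hδ
  have hδ0 : 0 < δ := by positivity
  set z : ℝ := y ^ (1 - 2 * δ) with hz
  have hz0 : 0 < z := Real.rpow_pos_of_pos hy0 _
  set B : ℝ := e ^ (1 / (n : ℝ)) with hB
  set Y : ℝ := (150 * y) ^ l with hY
  have h1 : z ^ l < (p : ℝ) ^ l := pow_lt_pow_left₀ hp hz0.le (by omega)
  have h2 : z ^ l = y ^ l * (y ^ l) ^ (-(2 * δ)) := by
    rw [hz, ← Real.rpow_natCast (y ^ (1 - 2 * δ)), ← Real.rpow_mul hy0.le,
      ← Real.rpow_natCast y l, ← Real.rpow_mul hy0.le, ← Real.rpow_add hy0]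
    congr 1; ring
  have hyl0 : 0 < y ^ l := pow_pos hy0 l
  have hyl1 : 1 ≤ y ^ l := one_le_pow₀ g1
  have h3 : y ^ l * (y ^ l) ^ (2 * δ) ≤ c1 * e ^ ψ := by
    have h4 : (y ^ l) ^ (2 * δ) ≤ e ^ (2 * δ * ψ) := by
      calc (y ^ l) ^ (2 * δ) ≤ (e ^ ψ) ^ (2 * δ) := by
            apply Real.rpow_le_rpow hyl0.le _ (by positivity)
            refine hyl.trans ?_
            calc c1 * e ^ ((1 - τ) * ψ) ≤ 1 * e ^ ψ := by
                  have : e ^ ((1 - τ) * ψ) ≤ e ^ ψ := by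
                    apply Real.rpow_le_rpow_of_exponent_le her
                    nlinarith
                  gcongr
              _ = _ := one_mul _
        _ = _ := by rw [← Real.rpow_mul hepos.le]; congr 1; ring
    calc y ^ l * (y ^ l) ^ (2 * δ)
        ≤ (c1 * e ^ ((1 - τ) * ψ)) * e ^ (2 * δ * ψ) := by gcongr
      _ = c1 * e ^ ((1 - τ) * ψ + 2 * δ * ψ) := by rw [Real.rpow_add hepos]; ring
      _ ≤ c1 * e ^ ψ := by
          have : e ^ ((1 - τ) * ψ + 2 * δ * ψ) ≤ e ^ ψ := by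
            apply Real.rpow_le_rpow_of_exponent_le her
            rw [hδ]
            nlinarith
          gcongr
  have hY2 : Y ^ 2 = 150 ^ (2 * l) * (y ^ l) ^ 2 := by
    rw [hY, mul_pow]; ring
  have h5 : e ^ ψ * e ^ (2 - ψ) = e ^ 2 := by
    rw [← Real.rpow_add hepos, ← Real.rpow_natCast]
    congr 1; push_cast; ring
  have hpw : 0 < (y ^ l) ^ (2 * δ) := Real.rpow_pos_of_pos hyl0 _
  calc 2 * (n : ℝ) ^ 2 * Y ^ 2 * B ^ (k + 2)
      = (2 * (n : ℝ) ^ 2 * 150 ^ (2 * l)) * (y ^ l * (y ^ l) ^ (2 * δ)) *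
          ((y ^ l) * ((y ^ l) ^ (2 * δ))⁻¹) * e ^ (2 - ψ) := by
        rw [hY2, hBk]
        field_simp
    _ ≤ (2 * (n : ℝ) ^ 2 * 150 ^ (2 * l)) * (c1 * e ^ ψ) *
          ((y ^ l) * ((y ^ l) ^ (2 * δ))⁻¹) * e ^ (2 - ψ) := by gcongr
    _ = (1 / 2) * (c1 * (4 * (n : ℝ) ^ 2 * 150 ^ (2 * l))) *
          (e ^ ψ * e ^ (2 - ψ)) * (y ^ l * ((y ^ l) ^ (2 * δ))⁻¹) := by ring
    _ = (1 / 2) * (e ^ 2 * z ^ l) := by
        rw [hc1c, h5, h2, Real.rpow_neg hyl0.le]; ring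
    _ < e ^ 2 * (p : ℝ) ^ l := by
        have h6 : e ^ 2 * z ^ l < e ^ 2 * (p : ℝ) ^ l := by gcongr
        have h7 : 0 < e ^ 2 * z ^ l := by positivity
        linarith


/-- the number of bad primes -/
theorem aux_bad {n k l : ℕ} (hn : 3 ≤ n) (hl : 1 ≤ l) (hlk : l ≤ k) (hkn : k + 1 ≤ n) {e : ℕ}
    (hsq : Squarefree e) {ψ τ s y a b A1 B1 c : ℝ} (her : (1 : ℝ) ≤ e) (hc0 : 0 < c)
    (hτ0 : 0 < τ) (hτ1 : τ ≤ 1 / 4) (hψ0 : 0 < ψ) (hψ2 : ψ ≤ 2)
    (hψ : ψ = 2 - ((k : ℝ) + 2) / n) (hs : s = ψ / l)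
    (hy : y = cc n l * (e : ℝ) ^ ((1 - τ) * (ψ / l))) (hy0 : 0 < y)
    (ha : a = n * ((e : ℝ) ^ (1 / (n : ℝ)) * (150 * y) ^ l) / e)
    (hb : b = n * (((e : ℝ) ^ (1 / (n : ℝ))) ^ (k + 1) * (150 * y) ^ l) / e)
    (hA1 : A1 = Real.log 2 + n * Real.log (n * 150 ^ l)) (hB1 : B1 = 1 + 4 * n)
    (g4 : 18 * (e : ℝ) ^ ((1 - 2 * τ) * s) * (A1 + B1 * Real.log e) ≤
      c / 8 * (cc n l * (e : ℝ) ^ ((1 - τ - τ / 4) * s))) (PB : Finset ℕ)
    (hPBp : ∀ p ∈ PB, p.Prime) :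
    ((PB.filter (fun p => BadK n k l a b e p)).card : ℝ) ≤
      c / 8 * (cc n l * (e : ℝ) ^ ((1 - τ - τ / 4) * s)) := by
  have hnr : (3 : ℝ) ≤ n := by exact_mod_cast hn
  have hlr : (1 : ℝ) ≤ l := by exact_mod_cast hl
  have hkr : (1 : ℝ) ≤ k := by exact_mod_cast hl.trans hlk
  have hlkr : (l : ℝ) ≤ k := by exact_mod_cast hlk
  have hepos : (0 : ℝ) < e := by linarith
  have he0 : e ≠ 0 := hsq.ne_zero
  have hs0 : 0 < s := by rw [hs]; positivity
  have hc10 := cc_pos (l := l) hn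
  have hc11 := cc_le (l := l) hn
  have hc1c := cc_mul (l := l) hn
  have hyl := y_pow hn hl her hy
  have hBk := B_pow (k := k) hn her hψ
  set c1 := cc n l with hc1
  set B : ℝ := (e : ℝ) ^ (1 / (n : ℝ)) with hB
  have hB1' : 1 ≤ B := Real.one_le_rpow her (by positivity)
  set Y : ℝ := (150 * y) ^ l with hY
  have hY0 : 0 < Y := by positivity
  have hBpow : B ^ (k + 1) ≤ e := by
    calc B ^ (k + 1) ≤ B ^ n := pow_le_pow_right₀ hB1' hkn
      _ = e := by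
          rw [hB, ← Real.rpow_natCast, ← Real.rpow_mul hepos.le,
            one_div_mul_cancel (by linarith), Real.rpow_one]
  have hab : a ≤ b := by
    rw [ha, hb]
    have : B ≤ B ^ (k + 1) := le_self_pow₀ hB1' (by omega)
    gcongr
  have hpos : 0 < c / 8 * (c1 * (e : ℝ) ^ ((1 - τ - τ / 4) * s)) := by positivity
  rcases lt_or_ge a 1 with ha1 | ha1
  · -- no bad primes
    have h1 : PB.filter (fun p => BadK n k l a b e p) = ∅ := by
      rw [Finset.filter_eq_empty_iff]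
      rintro p - ⟨u, v, hpu, hu, -, -⟩
      have hu0 : u ≠ 0 := by
        rintro rfl
        exact hpu (dvd_zero _)
      have h2 : (1 : ℝ) ≤ |(u : ℝ)| := by
        have := Int.one_le_abs hu0
        exact_mod_cast this
      have h3 : (1 : ℝ) ≤ |(u : ℝ)| ^ k := one_le_pow₀ h2
      linarith
    rw [h1, Finset.card_empty, Nat.cast_zero]
    exact hpos.le
  · have he1 : 1 < e := by
      -- for `e = 1` the bound `a ≥ 1` is impossible for the same reason as above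
      by_contra hcon
      have he1' : e = 1 := by omega
      have hBe : B = 1 := by rw [hB, he1']; simp
      have hy1 : y = c1 := by rw [hy, he1']; simp
      have hYs : Y ≤ 150 ^ l * c1 := by
        rw [hY, hy1, mul_pow]
        have : c1 ^ l ≤ c1 := pow_le_of_le_one hc10.le hc11 (by omega)
        gcongr
      have h2 : n * (150 ^ l * c1) < 1 := by
        have h3 : (n : ℝ) * 150 ^ l ≤ n ^ 2 * 150 ^ (2 * l) := by
          have h4 : (n : ℝ) ≤ n ^ 2 := by nlinarith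
          have h5 : (150 : ℝ) ^ l ≤ 150 ^ (2 * l) :=
            pow_le_pow_right₀ (by norm_num) (by omega)
          gcongr
        have h4 : c1 * ((n : ℝ) * 150 ^ l) ≤ c1 * (n ^ 2 * 150 ^ (2 * l)) := by gcongr
        linarith
      rw [ha, he1', hBe] at ha1
      have h3 : n * Y ≤ n * (150 ^ l * c1) := by gcongr
      simp at ha1
      linarith
    have hc := card_badK (n := n) (k := k) (l := l) (by omega) (by omega) hl hsq he1 ha1
      (ha1.trans hab) (L := A1 + B1 * Real.log e) (by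
        -- the logarithm
        have hYle : Y ≤ 150 ^ l * (e : ℝ) ^ 2 := by
          rw [hY, mul_pow]
          have h2 : y ^ l ≤ (e : ℝ) ^ 2 := by
            refine hyl.trans ?_
            calc c1 * (e : ℝ) ^ ((1 - τ) * ψ) ≤ 1 * (e : ℝ) ^ (2 : ℝ) := by
                  have : (e : ℝ) ^ ((1 - τ) * ψ) ≤ (e : ℝ) ^ (2 : ℝ) := by
                    apply Real.rpow_le_rpow_of_exponent_le her
                    nlinarith
                  gcongr
              _ = (e : ℝ) ^ 2 := by rw [one_mul, Real.rpow_two]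
          gcongr
        have hbY : b ≤ n * Y := by
          rw [hb, div_le_iff₀ hepos]
          have : (0 : ℝ) ≤ n * Y := by positivity
          nlinarith
        have hbn : b ≤ n * (150 ^ l * (e : ℝ) ^ 2) := hbY.trans (by gcongr)
        have hb0 : 0 ≤ b := by linarith
        set M : ℝ := n * 150 ^ l with hM
        have hM1 : 1 ≤ M := by
          have : (1 : ℝ) ≤ 150 ^ l := one_le_pow₀ (by norm_num)
          rw [hM]; nlinarith
        have hbM : b ≤ M * (e : ℝ) ^ 2 := by rw [hM]; linarith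
        have h3 : (e : ℝ) * a ^ n + b ^ n ≤ 2 * (e * (M * (e : ℝ) ^ 2) ^ n) := by
          have h4 : a ^ n ≤ (M * (e : ℝ) ^ 2) ^ n :=
            pow_le_pow_left₀ (by linarith) (hab.trans hbM) n
          have h5 : b ^ n ≤ (M * (e : ℝ) ^ 2) ^ n := pow_le_pow_left₀ hb0 hbM n
          have h6 : (0 : ℝ) ≤ (M * (e : ℝ) ^ 2) ^ n := by positivity
          nlinarith
        have h4 : 0 < (e : ℝ) * a ^ n + b ^ n := by
          have : 0 < a := by linarith
          positivity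
        have h5 := Real.log_le_log h4 h3
        rw [Real.log_mul (by norm_num) (by positivity), Real.log_mul (by positivity)
          (by positivity), Real.log_pow, Real.log_mul (by positivity) (by positivity),
          Real.log_pow] at h5
        refine h5.trans ?_
        have hle : 0 ≤ Real.log e := Real.log_nonneg her
        rw [hA1, hB1]
        push_cast
        have hn0' : (0 : ℝ) ≤ n := by linarith
        nlinarith [mul_nonneg hn0' hle]) PB hPBp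
    refine hc.trans ?_
    have h1 : (a * b) ^ (1 / (k : ℝ)) ≤ (e : ℝ) ^ ((1 - 2 * τ) * s) := by
      have h2 : a * b ≤ (e : ℝ) ^ ((1 - 2 * τ) * ψ) := by
        have h3 : a * b = (n : ℝ) ^ 2 * 150 ^ (2 * l) * (y ^ l) ^ 2 * (B ^ (k + 2) / e ^ 2) := by
          rw [ha, hb, hY, mul_pow]
          field_simp
          ring
        have h4 : B ^ (k + 2) / (e : ℝ) ^ 2 = (e : ℝ) ^ (-ψ) := by
          rw [hBk, ← Real.rpow_two, ← Real.rpow_sub hepos]
          congr 1; ring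
        rw [h3, h4]
        calc (n : ℝ) ^ 2 * 150 ^ (2 * l) * (y ^ l) ^ 2 * (e : ℝ) ^ (-ψ)
            ≤ (n : ℝ) ^ 2 * 150 ^ (2 * l) * (c1 * (e : ℝ) ^ ((1 - τ) * ψ)) ^ 2 *
                (e : ℝ) ^ (-ψ) := by gcongr
          _ = (c1 * (4 * (n : ℝ) ^ 2 * 150 ^ (2 * l))) * (c1 / 4) *
                (((e : ℝ) ^ ((1 - τ) * ψ)) ^ 2 * (e : ℝ) ^ (-ψ)) := by ring
          _ = (c1 / 4) * (e : ℝ) ^ ((1 - 2 * τ) * ψ) := by
              rw [hc1c, one_mul, ← Real.rpow_natCast ((e : ℝ) ^ ((1 - τ) * ψ)) 2,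
                ← Real.rpow_mul hepos.le, ← Real.rpow_add hepos]
              congr 2
              push_cast
              ring
          _ ≤ 1 * (e : ℝ) ^ ((1 - 2 * τ) * ψ) := by
              have : c1 / 4 ≤ 1 := by linarith
              gcongr
          _ = _ := one_mul _
      have hab0 : 0 ≤ a * b := mul_nonneg (by linarith) (by linarith)
      calc (a * b) ^ (1 / (k : ℝ)) ≤ ((e : ℝ) ^ ((1 - 2 * τ) * ψ)) ^ (1 / (k : ℝ)) :=
            Real.rpow_le_rpow hab0 h2 (by positivity)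
        _ = (e : ℝ) ^ ((1 - 2 * τ) * ψ * (1 / (k : ℝ))) := by rw [← Real.rpow_mul hepos.le]
        _ ≤ (e : ℝ) ^ ((1 - 2 * τ) * s) := by
            apply Real.rpow_le_rpow_of_exponent_le her
            have h5 : 1 / (k : ℝ) ≤ 1 / (l : ℝ) := by gcongr
            have h6 : 0 ≤ (1 - 2 * τ) * ψ := mul_nonneg (by linarith) hψ0.le
            calc (1 - 2 * τ) * ψ * (1 / (k : ℝ)) ≤ (1 - 2 * τ) * ψ * (1 / (l : ℝ)) := by gcongr
              _ = (1 - 2 * τ) * s := by rw [hs]; ring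
    have hL0 : 0 ≤ A1 + B1 * Real.log e := by
      have h2 : 0 ≤ Real.log e := Real.log_nonneg her
      have h3 : 0 ≤ Real.log (n * 150 ^ l) := by
        apply Real.log_nonneg
        have : (1 : ℝ) ≤ 150 ^ l := one_le_pow₀ (by norm_num)
        nlinarith
      have h4 : 0 ≤ Real.log 2 := Real.log_nonneg (by norm_num)
      rw [hA1, hB1]
      positivity
    calc 18 * (a * b) ^ (1 / (k : ℝ)) * (A1 + B1 * Real.log e)
        ≤ 18 * (e : ℝ) ^ ((1 - 2 * τ) * s) * (A1 + B1 * Real.log e) := by gcongr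
      _ ≤ _ := g4


/-- **Small torsion.** -/
theorem pure_small (n k l : ℕ) (hn : 3 ≤ n) (hodd : Odd n) (hl : 1 ≤ l) (hlk : l ≤ k)
    (hkn : k + 1 ≤ n) (ε : ℝ) (hε : 0 < ε) :
    ∃ C : ℝ, 0 < C ∧ ∀ e : ℕ, Squarefree e →
    ∀ (K : Type) [Field K] [NumberField K], Module.finrank ℚ K = n → ∀ α : K,
    IntermediateField.adjoin ℚ {α} = ⊤ → α ^ n = (e : K) →
    (Nat.card {c : ClassGroup (𝓞 K) // c ^ l = 1} : ℝ) *
      (e : ℝ) ^ ((2 - ((k : ℝ) + 2) / n) / l) ≤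
      C * ((discr K).natAbs : ℝ) ^ (1 / 2 + ε : ℝ) := by
  have hnr : (3 : ℝ) ≤ n := by exact_mod_cast hn
  have hlr : (1 : ℝ) ≤ l := by exact_mod_cast hl
  have hkr : (1 : ℝ) ≤ k := by exact_mod_cast hl.trans hlk
  have hlkr : (l : ℝ) ≤ k := by exact_mod_cast hlk
  have hknr : (k : ℝ) + 1 ≤ n := by exact_mod_cast hkn
  set ψ : ℝ := 2 - ((k : ℝ) + 2) / n with hψ
  have hψ0 : 0 < ψ := by
    rw [hψ, sub_pos, div_lt_iff₀ (by linarith)]
    linarith
  have hψ2 : ψ ≤ 2 := by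
    have : 0 ≤ ((k : ℝ) + 2) / n := by positivity
    linarith
  set τ : ℝ := min ε 1 / 4 with hτ
  have hmin0 : 0 < min ε 1 := lt_min hε one_pos
  have hτ0 : 0 < τ := by positivity
  have hmin1 : min ε 1 ≤ ε := min_le_left _ _
  have hmin2 : min ε 1 ≤ 1 := min_le_right _ _
  have hτ1 : τ ≤ 1 / 4 := by rw [hτ]; linarith
  have hτε : 4 * τ ≤ ε := by rw [hτ]; linarith
  set δ : ℝ := τ / 4 with hδ
  have hδ0 : 0 < δ := by positivity
  set s : ℝ := ψ / l with hs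
  have hs0 : 0 < s := by positivity
  have hs2 : s ≤ 2 := by
    rw [hs, div_le_iff₀ (by linarith)]
    linarith
  obtain ⟨C1, hC10, hC1⟩ := sep_boundK n hn δ hδ0
  obtain ⟨Ct, hCt0, hCt⟩ := tor_sep n (by omega) δ hδ0
  obtain ⟨c, C0, hc0, hC00, hPA⟩ := PA_lower n 2 (by omega)
    ((Nat.coprime_two_left).mpr hodd) δ hδ0 (by linarith)
  have hc10 := cc_pos (l := l) hn
  have hc11 := cc_le (l := l) hn
  set c1 : ℝ := cc n l with hc1
  set A1 : ℝ := Real.log 2 + n * Real.log (n * 150 ^ l) with hA1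
  set B1 : ℝ := 1 + 4 * n with hB1
  obtain ⟨N1, hN11, hN1⟩ := large_e (c / 8) c1 C0 (2 * (Real.log n + n * (n - 1) * Real.log 2))
    (2 * n) A1 B1 τ s (by positivity) hc10 hτ0 (by linarith) hs0
  refine ⟨Ct * N1 ^ (2 : ℝ) + C1 * (4 / (c * c1)), by positivity, ?_⟩
  intro e hsq K _ _ hK α hα h0
  have he0 : e ≠ 0 := hsq.ne_zero
  have her : (1 : ℝ) ≤ e := by exact_mod_cast Nat.pos_of_ne_zero he0
  have hepos : (0 : ℝ) < e := by linarith
  have hDle := disc_le hn he0 le_rfl hK hα h0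
  set D := (discr K).natAbs with hD
  have hD0n : D ≠ 0 := Int.natAbs_ne_zero.mpr (discr_ne_zero K)
  have hD0 : (0 : ℝ) < D := by exact_mod_cast Nat.pos_of_ne_zero hD0n
  have hD1 : (1 : ℝ) ≤ D := by exact_mod_cast Nat.pos_of_ne_zero hD0n
  set T : ℝ := (Nat.card {c : ClassGroup (𝓞 K) // c ^ l = 1} : ℝ) with hT
  have hT0 : 0 ≤ T := by positivity
  have hDε : (D : ℝ) ^ (1 / 2 + δ) ≤ (D : ℝ) ^ (1 / 2 + ε) :=
    Real.rpow_le_rpow_of_exponent_le hD1 (by linarith)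
  have hZ0 : 0 < (D : ℝ) ^ (1 / 2 + ε) := Real.rpow_pos_of_pos hD0 _
  rcases lt_or_ge (e : ℝ) N1 with hsmall | hlarge
  · -- small parameters
    have h1 := hCt l hl K hK ∅ (by simp) (by simp)
    rw [← hT, ← hD, Finset.card_empty, Nat.cast_zero, zero_add, mul_one] at h1
    have h2 : (e : ℝ) ^ s ≤ N1 ^ (2 : ℝ) := by
      calc (e : ℝ) ^ s ≤ N1 ^ s := Real.rpow_le_rpow hepos.le hsmall.le hs0.le
        _ ≤ N1 ^ (2 : ℝ) := Real.rpow_le_rpow_of_exponent_le hN11 hs2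
    calc T * (e : ℝ) ^ s ≤ (Ct * (D : ℝ) ^ (1 / 2 + δ)) * N1 ^ (2 : ℝ) := by gcongr
      _ ≤ (Ct * (D : ℝ) ^ (1 / 2 + ε)) * N1 ^ (2 : ℝ) := by gcongr
      _ = Ct * N1 ^ (2 : ℝ) * (D : ℝ) ^ (1 / 2 + ε) := by ring
      _ ≤ _ := by
          have : 0 ≤ C1 * (4 / (c * c1)) := by positivity
          gcongr
          linarith
  obtain ⟨g1, g2, g3, g4⟩ := hN1 e hlarge
  set y : ℝ := c1 * (e : ℝ) ^ ((1 - τ) * s) with hy
  have hy0 : 0 < y := by linarith
  set z : ℝ := y ^ (1 - 2 * δ) with hz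
  have hz0 : 0 < z := Real.rpow_pos_of_pos hy0 _
  set B : ℝ := (e : ℝ) ^ (1 / (n : ℝ)) with hB
  have hB1' : 1 ≤ B := Real.one_le_rpow her (by positivity)
  set Y : ℝ := (150 * y) ^ l with hY
  have hY0 : 0 < Y := by positivity
  set a : ℝ := n * (B * Y) / e with ha
  set b : ℝ := n * (B ^ (k + 1) * Y) / e with hb
  -- the condition on the primes
  have hbig : ∀ p : ℕ, z < (p : ℝ) → 2 * (n : ℝ) ^ 2 * Y ^ 2 * B ^ (k + 2) <
      (e : ℝ) ^ 2 * (p : ℝ) ^ l := by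
    intro p hp
    exact aux_big hn hl her hτ0 (by linarith) hψ0 hψ (by rw [hy, hs, hc1]) g1 p hp
  have hGs := hC1 k l hkn hl e hsq K hK α hα h0 y z a b hy0 hbig
    (by rw [ha]; field_simp; rfl) (by rw [hb]; field_simp; rfl)
  rw [← hD, ← hT] at hGs
  set N0 : ℕ := n * e * D with hN0'
  have hN00 : N0 ≠ 0 := by
    have : n ≠ 0 := by omega
    positivity
  set G := (PA n 2 y).filter (fun p : ℕ => (¬ p ∣ N0 ∧ z < (p : ℝ)) ∧
    ¬ BadK n k l a b e p) with hG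
  set PB : Finset ℕ := (PA n 2 y).filter (fun p : ℕ => z < (p : ℝ)) with hPB
  have hlogN0 : 2 * Real.log (N0 : ℝ) ≤
      2 * (Real.log n + n * (n - 1) * Real.log 2) + 2 * n * Real.log e := by
    rw [hN0']
    push_cast
    have hnpos : (0 : ℝ) < n := by linarith
    rw [Real.log_mul (by positivity) (by positivity),
      Real.log_mul (by positivity) (by positivity)]
    have h3 := Real.log_le_log hD0 hDle
    rw [Real.log_mul (by positivity) (by positivity), Real.log_rpow (by norm_num),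
      Real.log_rpow hepos] at h3
    linarith
  -- the number of bad primes
  have hbadc : ((PB.filter (fun p => BadK n k l a b e p)).card : ℝ) ≤
      c / 8 * (c1 * (e : ℝ) ^ ((1 - τ - τ / 4) * s)) := by
    refine aux_bad hn hl hlk hkn hsq her hc0 hτ0 (by linarith) hψ0 hψ2 hψ hs (by rw [hy, hs, hc1])
      hy0 ha hb hA1 hB1 g4 PB ?_
    intro p hp
    rw [hPB, mem_filter, PA, mem_filter] at hp
    exact hp.1.2.1
  -- the lower bound for `y ^ (1 - δ)`
  have hylow : c1 * (e : ℝ) ^ ((1 - τ - τ / 4) * s) ≤ y ^ (1 - δ) := by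
    rw [hy, Real.mul_rpow hc10.le (by positivity), ← Real.rpow_mul hepos.le]
    have h1 : c1 ≤ c1 ^ (1 - δ) := by
      calc c1 = c1 ^ (1 : ℝ) := (Real.rpow_one _).symm
        _ ≤ c1 ^ (1 - δ) := Real.rpow_le_rpow_of_exponent_ge hc10 hc11 (by linarith)
    have h2 : (e : ℝ) ^ ((1 - τ - τ / 4) * s) ≤ (e : ℝ) ^ ((1 - τ) * s * (1 - δ)) := by
      apply Real.rpow_le_rpow_of_exponent_le her
      rw [hδ]
      nlinarith [mul_pos hs0 (mul_pos hτ0 hτ0)]
    gcongr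
  have hyp : 0 < y ^ (1 - δ) := Real.rpow_pos_of_pos hy0 _
  have hzsmall : z ≤ c / 8 * y ^ (1 - δ) := by
    have h1 : z = y ^ (-δ) * y ^ (1 - δ) := by
      rw [hz, ← Real.rpow_add hy0]; congr 1; ring
    rw [h1]
    gcongr
  -- counting
  have hcard : ((PA n 2 y).card : ℝ) ≤ G.card + N0.primeFactors.card + z +
      ((PB.filter (fun p => BadK n k l a b e p)).card : ℝ) := by
    have h1 : PA n 2 y ⊆ ((G ∪ N0.primeFactors) ∪ (Finset.Icc 1 ⌊z⌋₊)) ∪
        (PB.filter (fun p => BadK n k l a b e p)) := by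
      intro p hp
      rw [mem_union, mem_union, mem_union, hG, mem_filter, mem_filter, hPB, mem_filter]
      by_cases h : p ∣ N0
      · left; left; right
        rw [PA, mem_filter] at hp
        exact Nat.mem_primeFactors.mpr ⟨hp.2.1, h, hN00⟩
      · by_cases h3 : z < (p : ℝ)
        · by_cases h2 : BadK n k l a b e p
          · right; exact ⟨⟨hp, h3⟩, h2⟩
          · left; left; left; exact ⟨hp, ⟨h, h3⟩, h2⟩
        · left; right
          rw [PA, mem_filter] at hp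
          rw [Finset.mem_Icc]
          exact ⟨hp.2.1.one_lt.le, Nat.le_floor (not_lt.mp h3)⟩
    have h2 := card_le_card h1
    have h3 := card_union_le ((G ∪ N0.primeFactors) ∪ (Finset.Icc 1 ⌊z⌋₊))
      (PB.filter (fun p => BadK n k l a b e p))
    have h4 := card_union_le (G ∪ N0.primeFactors) (Finset.Icc 1 ⌊z⌋₊)
    have h5 := card_union_le G N0.primeFactors
    have h6 : (Finset.Icc 1 ⌊z⌋₊).card = ⌊z⌋₊ := by rw [Nat.card_Icc]; omega
    have h7 : (⌊z⌋₊ : ℝ) ≤ z := Nat.floor_le hz0.le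
    have h8 : (PA n 2 y).card ≤ G.card + N0.primeFactors.card + ⌊z⌋₊ +
        (PB.filter (fun p => BadK n k l a b e p)).card := by omega
    have h9 : ((PA n 2 y).card : ℝ) ≤ G.card + N0.primeFactors.card + (⌊z⌋₊ : ℝ) +
        ((PB.filter (fun p => BadK n k l a b e p)).card : ℝ) := by exact_mod_cast h8
    linarith
  have hpf := card_primeFactors_le N0 hN00
  have hg := hPA y hy0
  have h38 : c / 8 * (c1 * (e : ℝ) ^ ((1 - τ - τ / 4) * s)) ≤ c / 8 * y ^ (1 - δ) := by gcongr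
  have hG4 : c / 4 * y ^ (1 - δ) ≤ G.card + 1 := by linarith
  have hG5 : c / 4 * (c1 * (e : ℝ) ^ ((1 - τ - τ / 4) * s)) ≤ G.card + 1 := by
    refine le_trans ?_ hG4
    gcongr
  have h1 : T * (c / 4 * (c1 * (e : ℝ) ^ ((1 - τ - τ / 4) * s))) ≤
      C1 * (D : ℝ) ^ (1 / 2 + δ) := (mul_le_mul_of_nonneg_left hG5 hT0).trans hGs
  -- `e` is bounded by the discriminant
  have heD : (e : ℝ) ≤ D := by
    have h0' : α ^ n = ((e : ℤ) : K) := by rw [h0]; push_cast; rfl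
    have hint : IsIntegral ℤ α := by
      refine IsIntegral.of_pow (show 0 < n by omega) ?_
      rw [h0']
      exact isIntegral_algebraMap
    have hβn : (⟨α, hint⟩ : 𝓞 K) ^ n = ((e : ℤ) : 𝓞 K) := by
      apply RingOfIntegers.ext
      push_cast
      exact h0
    have hβ0 : (⟨α, hint⟩ : 𝓞 K) ≠ 0 := by
      rintro h
      rw [h, zero_pow (by omega), Int.cast_natCast] at hβn
      have h9 : ((e : ℕ) : 𝓞 K) = 0 := hβn.symm
      exact he0 (by exact_mod_cast h9)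
    have hrad : rad (e : ℤ) = e := by
      rw [rad, Int.natAbs_natCast, Nat.prod_primeFactors_of_squarefree hsq]
    have h5 := pow_dvd_discr hK hβ0 he0 (fun x => by
      have := rad_dvd_trace hβn x
      rwa [hrad] at this)
    rw [norm_root hK hβn, Int.natAbs_natCast] at h5
    have h6 : e ^ n ≤ e * D := Nat.le_of_dvd (by positivity) h5
    have h7 : e * e ≤ e * D := by
      refine le_trans ?_ h6
      rw [← sq]
      exact Nat.pow_le_pow_right (Nat.pos_of_ne_zero he0) (by omega)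
    have h8 : e ≤ D := Nat.le_of_mul_le_mul_left h7 (Nat.pos_of_ne_zero he0)
    exact_mod_cast h8
  have h2 : (e : ℝ) ^ s = (e : ℝ) ^ ((1 - τ - τ / 4) * s) * (e : ℝ) ^ ((τ + τ / 4) * s) := by
    rw [← Real.rpow_add hepos]; congr 1; ring
  have h3 : (e : ℝ) ^ ((τ + τ / 4) * s) ≤ (D : ℝ) ^ (3 * τ) := by
    calc (e : ℝ) ^ ((τ + τ / 4) * s) ≤ (D : ℝ) ^ ((τ + τ / 4) * s) :=
          Real.rpow_le_rpow hepos.le heD (by positivity)
      _ ≤ (D : ℝ) ^ (3 * τ) := by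
          apply Real.rpow_le_rpow_of_exponent_le hD1
          nlinarith
  calc T * (e : ℝ) ^ s
      = (4 / (c * c1)) * (T * (c / 4 * (c1 * (e : ℝ) ^ ((1 - τ - τ / 4) * s)))) *
          (e : ℝ) ^ ((τ + τ / 4) * s) := by
        rw [h2]; field_simp
    _ ≤ (4 / (c * c1)) * (C1 * (D : ℝ) ^ (1 / 2 + δ)) * (D : ℝ) ^ (3 * τ) := by gcongr
    _ = C1 * (4 / (c * c1)) * (D : ℝ) ^ (1 / 2 + δ + 3 * τ) := by
        rw [Real.rpow_add hD0 (1 / 2 + δ) (3 * τ)]; ring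
    _ ≤ C1 * (4 / (c * c1)) * (D : ℝ) ^ (1 / 2 + ε) := by
        have : (D : ℝ) ^ (1 / 2 + δ + 3 * τ) ≤ (D : ℝ) ^ (1 / 2 + ε) := by
          apply Real.rpow_le_rpow_of_exponent_le hD1
          rw [hδ]
          linarith
        gcongr
    _ ≤ _ := by
        have : 0 ≤ Ct * N1 ^ (2 : ℝ) := by positivity
        gcongr
        linarith

end Pool.Agent.Y159.PT
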